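import Mathlib
import Pool.Agent.H378R2.M1

/-! Characters of small conductor with the saving `exp (- (log X)^(1/20) / 2)`. -/

open MeasureTheory Filter Topology Set

namespace Pool.Agent.K4H19.FQ

open Pool.Agent.H378R2 Pool.Agent.H378R2.M1 DirichletCharacter

/-- the exponent of the savings -/
noncomputable def tt (X : ℝ) : ℝ := (Real.log X) ^ (1 / 20 : ℝ)

theorem tt_pow (X : ℝ) (hX : 1 ≤ X) : tt X ^ 20 = Real.log X := by
  unfold tt
  rw [← Real.rpow_natCast, ← Real.rpow_mul (Real.log_nonneg hX)]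
  norm_num

theorem tt_tendsto : Tendsto tt atTop atTop :=
  (tendsto_rpow_atTop (by norm_num)).comp Real.tendsto_log_atTop

theorem pars (d C : ℝ) (hd : 0 < d) : ∀ᶠ t : ℝ in atTop, 4 ≤ t ∧ 2 ^ 18 / d ≤ t ∧
    48 * (2 ^ 18 / d) * t ^ 18 ≤ Real.exp (t / 2) ∧ 48 * C * t ^ 40 ≤ Real.exp (t / 2) := by
  obtain ⟨a, ha⟩ := exp_dominates (48 * (2 ^ 18 / d) * 2 ^ 18) 18
  obtain ⟨b, hb⟩ := exp_dominates (48 * C * 2 ^ 40) 40
  filter_upwards [eventually_ge_atTop 4, eventually_ge_atTop (2 ^ 18 / d),
    eventually_ge_atTop (2 * a), eventually_ge_atTop (2 * b)] with t h1 h2 h3 h4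
  refine ⟨h1, h2, ?_, ?_⟩
  · refine le_trans (le_of_eq ?_) (ha (t / 2) (by linarith))
    rw [div_pow]
    field_simp
  · refine le_trans (le_of_eq ?_) (hb (t / 2) (by linarith))
    rw [div_pow]
    field_simp

theorem small_cond (Z : ℕ) : ∃ X0 : ℝ, ∀ X : ℝ, X0 ≤ X →
    ∃ fs : ℕ, (fs = 0 ∨ Z < fs) ∧ (fs : ℝ) ≤ Real.exp (tt X) ∧
      ∀ f : ℕ, 1 < f → (f : ℝ) ≤ Real.exp (tt X) → f ≠ fs →
        ∀ χ : DirichletCharacter ℂ f, χ.IsPrimitive →
          ‖psiPhi χ X‖ ≤ X * Real.exp (-(tt X / 2)) := by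
  obtain ⟨d, hd0, hd2, hnzr⟩ := nzr_exc
  obtain ⟨l0, hl0⟩ := hnzr Z
  obtain ⟨C, hC1, hC⟩ := vM_sum_bound
  have ev : ∀ᶠ X : ℝ in atTop, ∃ fs : ℕ, (fs = 0 ∨ Z < fs) ∧ (fs : ℝ) ≤ Real.exp (tt X) ∧
      ∀ f : ℕ, 1 < f → (f : ℝ) ≤ Real.exp (tt X) → f ≠ fs →
        ∀ χ : DirichletCharacter ℂ f, χ.IsPrimitive →
          ‖psiPhi χ X‖ ≤ X * Real.exp (-(tt X / 2)) := by
    filter_upwards [tt_tendsto.eventually (pars d C hd0), tt_tendsto.eventually_ge_atTop l0,
      eventually_ge_atTop (3 : ℝ)] with X hp htl hX3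
    obtain ⟨p1, p2, p3, p4⟩ := hp
    have hX1 : 1 ≤ X := by linarith
    have hXpos : 0 < X := by linarith
    have ht20 := tt_pow X hX1
    set t := tt X with ht
    have ht0 : 0 < t := by linarith
    have hLpos : 0 < Real.log X := by rw [← ht20]; positivity
    obtain ⟨fs, hfs, hmain⟩ := hl0 (2 * t) (by linarith)
    have key : ∀ f : ℕ, 1 < f → (f : ℝ) ≤ Real.exp t → f ≠ fs →
        ∀ χ : DirichletCharacter ℂ f, χ.IsPrimitive → ‖psiPhi χ X‖ ≤ X * Real.exp (-(t / 2)) := by
      intro f hf1 hfle hffs χ hχ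
      have : NeZero f := ⟨by omega⟩
      have hχ1 : χ ≠ 1 := primitive_ne_one hf1 hχ
      have hf0 : (0 : ℝ) < f := by exact_mod_cast (by omega : 0 < f)
      have hlogf : Real.log f ≤ 2 * t := by
        have h1 : Real.log f ≤ t := by
          rw [Real.log_le_iff_le_exp hf0]; exact hfle
        linarith
      set l : ℝ := 2 * t with hl
      have hlpow : l ^ 18 = 2 ^ 18 * t ^ 18 := by rw [hl]; ring
      have hlpos : 0 < l := by linarith
      set δ : ℝ := d / l ^ 18 with hδ
      set M : ℝ := l ^ 18 / d with hM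
      set T : ℝ := Real.exp t with hT
      have hδ0 : 0 < δ := by positivity
      have hM0 : 0 ≤ M := by positivity
      have hT3 : 3 ≤ T := by
        rw [hT]
        have h1 := Real.add_one_le_exp t
        linarith
      have hM48 : 48 * M ≤ Real.exp (t / 2) := by
        refine le_trans (le_of_eq ?_) p3
        rw [hM, hlpow]
        ring
      have ht18 : 0 < t ^ 18 := by positivity
      have htd : 2 ^ 18 ≤ t * d := by
        rwa [div_le_iff₀ hd0] at p2
      -- `t ≤ δ L`
      have hδL : t ≤ δ * Real.log X := by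
        rw [hδ, hlpow, ← ht20, div_mul_eq_mul_div, le_div_iff₀ (by positivity)]
        have e1 : t * (2 ^ 18 * t ^ 18) = 2 ^ 18 * t ^ 19 := by ring
        have e2 : d * t ^ 20 = (t * d) * t ^ 19 := by ring
        rw [e1, e2]
        exact mul_le_mul_of_nonneg_right htd (by positivity)
      have hδ4 : δ ≤ 1 / 4 := by
        rw [hδ, div_le_iff₀ (by positivity)]
        have h2 : (2 : ℝ) ≤ l := by linarith
        have h3 : (2 : ℝ) ^ 18 ≤ l ^ 18 := by gcongr
        norm_num at h3
        linarith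
      set c : ℝ := 1 + 1 / Real.log X with hc
      have hc1 : 1 < c := by
        rw [hc]
        have : 0 < 1 / Real.log X := by positivity
        linarith
      have hcδ : c ≤ 1 + δ := by
        rw [hc]
        have h2 : 1 / Real.log X ≤ δ := by
          rw [div_le_iff₀ hLpos]; linarith
        linarith
      have hXc : X ^ c ≤ 3 * X := by
        rw [hc, Real.rpow_add hXpos, Real.rpow_one]
        have h1 : X ^ (1 / Real.log X) = Real.exp 1 := by
          rw [Real.rpow_def_of_pos hXpos, mul_one_div_cancel hLpos.ne']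
        rw [h1]
        have := Real.exp_one_lt_d9
        nlinarith
      have hA : ∑' n : ℕ, ArithmeticFunction.vonMangoldt n * (n : ℝ) ^ (-c) ≤ C * t ^ 40 := by
        refine (hC c hc1 (by linarith)).trans (le_of_eq ?_)
        have h1 : c - 1 = 1 / Real.log X := by rw [hc]; ring
        have h2 : t ^ 40 = (Real.log X) ^ 2 := by
          rw [← ht20, ← pow_mul]
        rw [h1, h2]
        field_simp
      have hcont := contour χ hχ1 hX1 hc1 hδ0 hδ4 hcδ hXc (by linarith : (1 : ℝ) ≤ T) hM0 hA (by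
        intro s h1 h2
        refine hmain f hf1 hlogf hffs χ hχ s h1 ?_
        have h3 : 2 * |s.im| + 3 ≤ Real.exp l := by
          have h4 : Real.exp l = T * T := by
            rw [hT, hl, ← Real.exp_add]; congr 1; ring
          rw [h4]
          nlinarith
        rw [Real.log_le_iff_le_exp (by positivity)]
        exact h3)
      refine hcont.trans ?_
      have hXδ : X ^ (1 - δ) = X * Real.exp (-(δ * Real.log X)) := by
        rw [sub_eq_add_neg, Real.rpow_add hXpos, Real.rpow_one, Real.rpow_def_of_pos hXpos]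
        congr 2; ring
      have t1 : 48 * (X ^ (1 - δ) * M) ≤ X * Real.exp (-(t / 2)) := by
        rw [hXδ]
        calc 48 * (X * Real.exp (-(δ * Real.log X)) * M)
            = X * ((48 * M) * Real.exp (-(δ * Real.log X))) := by ring
          _ ≤ X * (Real.exp (t / 2) * Real.exp (-t)) := by
              gcongr
          _ = _ := by rw [← Real.exp_add]; congr 2; ring
      have hTT : 1 / T ^ 2 = Real.exp (-(2 * t)) := by
        rw [hT, ← Real.exp_nat_mul, Real.exp_neg, one_div]; norm_num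
      have t2 : 48 * (X * M / T ^ 2) ≤ X * Real.exp (-(t / 2)) := by
        calc 48 * (X * M / T ^ 2) = X * ((48 * M) * (1 / T ^ 2)) := by ring
          _ = X * ((48 * M) * Real.exp (-(2 * t))) := by rw [hTT]
          _ ≤ X * (Real.exp (t / 2) * Real.exp (-t)) := by
              gcongr
              linarith
          _ = _ := by rw [← Real.exp_add]; congr 2; ring
      have hT1 : 1 / T = Real.exp (-t) := by
        rw [hT, Real.exp_neg, one_div]
      have t3 : 48 * (X * (C * t ^ 40) / T) ≤ X * Real.exp (-(t / 2)) := by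
        calc 48 * (X * (C * t ^ 40) / T) = X * ((48 * C * t ^ 40) * (1 / T)) := by ring
          _ = X * ((48 * C * t ^ 40) * Real.exp (-t)) := by rw [hT1]
          _ ≤ X * (Real.exp (t / 2) * Real.exp (-t)) := by gcongr
          _ = _ := by rw [← Real.exp_add]; congr 2; ring
      linarith
    by_cases hfe : (fs : ℝ) ≤ Real.exp t
    · exact ⟨fs, hfs, hfe, key⟩
    · refine ⟨0, Or.inl rfl, by push_cast; positivity, fun f hf1 hfle _ χ hχ => ?_⟩
      refine key f hf1 hfle ?_ χ hχ
      rintro rfl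
      exact hfe hfle
  exact eventually_atTop.mp ev

end Pool.Agent.K4H19.FQ
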