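import Mathlib
import Pool.Agent.H378R2.LSBV7
import Pool.Agent.K4H19.FQ.BV1

/-! The theorem of Bombieri and Vinogradov relative to the record modulus, with the saving
`exp (- (log X)^(1/40))`. -/

open Finset Filter Topology

namespace Pool.Agent.K4H19.FQ

open Pool.Agent.H378R2 Pool.Agent.H378R2.LSBV Pool.Agent.Helper112 Pool.Agent.H398R2.BV

theorem sum_pairsA' (X : ℝ) (ps R D Ω Z : ℕ) (hps : GoodP Z ps)
    (P S : Finset ℕ) (F0 B : ℝ) (hF0 : 0 ≤ F0) (hB : 0 ≤ B)
    (hsize : ∀ p ∈ pairs X ps R S, p.2 ≤ D → (P ∩ p.1.primeFactors).card < Ω →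
      ((p.1 * p.2 : ℕ) : ℝ) ≤ F0)
    (hsc : ∀ f : ℕ, Squarefree f → 1 < f → (f : ℝ) ≤ F0 → f.Coprime ps →
        ∀ χ : DirichletCharacter ℂ f, χ.IsPrimitive → ‖psiPhi χ X‖ ≤ B) :
    ∑ p ∈ (pairs X ps R S).filter (fun p => p.2 ≤ D ∧ (P ∩ p.1.primeFactors).card < Ω),
      TT X (p.1 * p.2) ≤ F0 * (F0 * B) := by
  set G := (Icc 2 ⌊F0⌋₊).filter (fun f => Squarefree f ∧ f.Coprime ps) with hG
  have h1 : ∑ p ∈ (pairs X ps R S).filter (fun p => p.2 ≤ D ∧ (P ∩ p.1.primeFactors).card < Ω),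
      TT X (p.1 * p.2) ≤ ∑ f ∈ G, TT X f := by
    apply pair_inj (TT X) (TT_nonneg X) (WW X S ps) ps R G
    · intro p hp
      rw [mem_filter] at hp
      unfold pairs at hp
      rw [mem_filter] at hp
      exact hp.1.1
    · intro p hp
      rw [mem_filter] at hp
      have hs := hsize p hp.1 hp.2.1 hp.2.2
      unfold pairs at hp
      rw [mem_filter, mem_product, Nat.mem_divisors, mem_QQ] at hp
      obtain ⟨⟨⟨⟨ha, _⟩, ⟨hb1, hb2⟩, hb3, hb4⟩, h5⟩, _⟩ := hp
      have ha0 : 0 < p.1 := Nat.pos_of_dvd_of_pos ha (WW_pos X S ps)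
      have h6 : 0 < p.1 * p.2 := by positivity
      rw [hG, mem_filter, mem_Icc]
      refine ⟨⟨by omega, Nat.le_floor hs⟩, ?_, ?_⟩
      · have hc : p.1.Coprime p.2 := by
          have : p.2.Coprime (WW X S ps) := Nat.Coprime.coprime_mul_right_right hb4
          exact (this.coprime_dvd_right ha).symm
        rw [Nat.squarefree_mul hc]
        exact ⟨(WW_squarefree X S ps).squarefree_of_dvd ha, hb3⟩
      · apply Nat.Coprime.mul_left
        · exact (WW_coprime_ps X S ps Z hps).coprime_dvd_left ha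
        · exact Nat.Coprime.coprime_mul_left_right hb4
  refine h1.trans ?_
  have h2 : ∀ f ∈ G, TT X f ≤ F0 * B := by
    intro f hf
    rw [hG, mem_filter, mem_Icc] at hf
    obtain ⟨⟨hf1, hf2⟩, hf3, hf4⟩ := hf
    have hfe : (f:ℝ) ≤ F0 := (Nat.le_floor_iff hF0).mp hf2
    refine (TT_le X f (by omega) B hB (hsc f hf3 (by omega) hfe hf4)).trans ?_
    exact mul_le_mul_of_nonneg_right hfe hB
  refine (sum_le_sum h2).trans ?_
  rw [sum_const, nsmul_eq_mul]
  have h3 : (G.card : ℝ) ≤ F0 := by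
    have : G.card ≤ ⌊F0⌋₊ := by
      refine (card_filter_le _ _).trans ?_
      rw [Nat.card_Icc]
      omega
    calc (G.card : ℝ) ≤ ⌊F0⌋₊ := by exact_mod_cast this
      _ ≤ _ := Nat.floor_le hF0
  exact mul_le_mul_of_nonneg_right h3 (by positivity)

theorem exists_ps' (Z fs : ℕ) (h : fs = 0 ∨ primorial Z < fs) (E : ℝ) (hE1 : 1 ≤ E)
    (hE : (fs : ℝ) ≤ E) :
    ∃ ps, GoodP Z ps ∧ (ps : ℝ) ≤ E ∧ ∀ f, 1 < f → Squarefree f → f.Coprime ps → f ≠ fs := by
  by_cases hc : Squarefree fs ∧ 1 < fs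
  · obtain ⟨hsq, h1⟩ := hc
    have h2 : primorial Z < fs := by
      rcases h with h | h
      · omega
      · exact h
    have h3 : ∃ p, p.Prime ∧ p ∣ fs ∧ Z < p := by
      by_contra hcon
      push Not at hcon
      have h4 : fs ∣ primorial Z := by
        rw [← Nat.prod_primeFactors_of_squarefree hsq]
        unfold primorial
        apply prod_dvd_prod_of_subset
        intro p hp
        rw [mem_filter, mem_range]
        have hp' := Nat.prime_of_mem_primeFactors hp
        have := hcon p hp' (Nat.dvd_of_mem_primeFactors hp)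
        exact ⟨by omega, hp'⟩
      have := Nat.le_of_dvd (primorial_pos Z) h4
      omega
    obtain ⟨p, hp, hpf, hpZ⟩ := h3
    refine ⟨p, Or.inr ⟨hp, hpZ⟩, ?_, fun f _ _ hcop hf => ?_⟩
    · have : p ≤ fs := Nat.le_of_dvd (by omega) hpf
      exact le_trans (by exact_mod_cast this) hE
    · subst hf
      have := hcop.symm
      rw [Nat.Prime.coprime_iff_not_dvd hp] at this
      exact this hpf
  · refine ⟨1, Or.inl rfl, by simpa using hE1, fun f hf1 hf2 _ hf => ?_⟩
    subst hf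
    exact hc ⟨hf2, hf1⟩

theorem pars2 (C : ℝ) : ∀ᶠ t : ℝ in atTop, 16 ≤ t ^ (1 / 4 : ℝ) ∧ 20 ≤ 20 * Real.log t ∧
    100 * (20 * Real.log t) ^ 5 ≤ t ^ (1 / 4 : ℝ) ∧ C ≤ t := by
  have h1 : Tendsto (fun t : ℝ => t ^ (1 / 4 : ℝ)) atTop atTop := tendsto_rpow_atTop (by norm_num)
  have h2 := (isLittleO_log_rpow_rpow_atTop (5 : ℝ) (show (0 : ℝ) < 1 / 4 by norm_num)).bound
    (show (0 : ℝ) < 1 / (100 * 20 ^ 5) by norm_num)
  filter_upwards [h1.eventually_ge_atTop 16, Real.tendsto_log_atTop.eventually_ge_atTop 1, h2,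
    eventually_ge_atTop C, eventually_ge_atTop (1 : ℝ)] with t a1 a2 a3 a4 a5
  refine ⟨a1, by linarith, ?_, a4⟩
  have hl : 0 ≤ Real.log t := Real.log_nonneg a5
  have e5 : Real.log t ^ (5 : ℝ) = Real.log t ^ 5 := by
    rw [← Real.rpow_natCast]; norm_num
  rw [e5, Real.norm_of_nonneg (by positivity), Real.norm_of_nonneg (by positivity)] at a3
  rw [mul_pow]
  have := mul_le_mul_of_nonneg_left a3 (show (0:ℝ) ≤ 100 * 20 ^ 5 by norm_num)
  have e6 : (100 * 20 ^ 5 : ℝ) * (1 / (100 * 20 ^ 5) * t ^ (1 / 4 : ℝ)) = t ^ (1 / 4 : ℝ) := by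
    field_simp
  linarith

theorem size_alg (s l k z Ω : ℝ) (hs : 16 ≤ s) (hl : 20 ≤ l) (hls : 100 * l ^ 5 ≤ s)
    (hk0 : 0 ≤ k) (hk : k ≤ s ^ 2 + 1) (hz : z ≤ l ^ 3 + 1) (hΩ : Ω ≤ 3 * k * l ^ 4 + 1) :
    2 * z + Ω * l + 2 * k * l ≤ s ^ 4 / 8 ∧ k * l ≤ s ^ 4 / 8 := by
  have hl0 : 0 < l := by linarith
  have h1 : l ≤ l ^ 5 := le_self_pow₀ (by linarith) (by norm_num)
  have h3 : l ^ 3 ≤ l ^ 5 := pow_le_pow_right₀ (by linarith) (by norm_num)
  have h5 : l ^ 5 ≤ s / 100 := by linarith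
  have hk2 : k ≤ 2 * s ^ 2 := by nlinarith
  have e1 : k * l ^ 5 ≤ 2 * s ^ 2 * (s / 100) := mul_le_mul hk2 h5 (by positivity) (by positivity)
  have e2 : k * l ≤ 2 * s ^ 2 * (s / 100) :=
    mul_le_mul hk2 (h1.trans h5) hl0.le (by positivity)
  have e3 : Ω * l ≤ (3 * k * l ^ 4 + 1) * l := mul_le_mul_of_nonneg_right hΩ hl0.le
  have e4 : (3 * k * l ^ 4 + 1) * l = 3 * (k * l ^ 5) + l := by ring
  have e5 : s ^ 3 * 16 ≤ s ^ 4 := by
    have : s ^ 4 = s ^ 3 * s := by ring
    rw [this]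
    exact mul_le_mul_of_nonneg_left hs (by positivity)
  have e6 : 2 * s ^ 2 * (s / 100) = s ^ 3 / 50 := by ring
  have e7 : s ≤ s ^ 3 := le_self_pow₀ (by linarith) (by norm_num)
  have e8 : 1 ≤ s ^ 3 := one_le_pow₀ (by linarith)
  constructor
  · nlinarith
  · nlinarith

/-- Bombieri-Vinogradov relative to a suitable big modulus, with a strong saving -/
theorem bv_strong (Z : ℕ) : ∃ X0 : ℝ, ∀ X : ℝ, X0 ≤ X →
    ∃ (ps : ℕ) (S : Finset ℕ), GoodP Z ps ∧ (ps : ℝ) ≤ Real.exp (tt X) ∧ GoodS X S ∧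
      ∀ b : ℕ → ℕ, (∀ q, 1 ≤ q → (b q).Coprime (WW X S ps * q)) →
      ∑ q ∈ (Icc 1 ⌊X ^ (1 / 100 : ℝ)⌋₊).filter
          (fun q => Squarefree q ∧ q.Coprime (WW X S ps * ps)),
        |EPhi X (WW X S ps * q) (b q)|
        ≤ X / ((Nat.totient (WW X S ps) : ℝ) * Real.exp (Real.sqrt (tt X))) := by
  classical
  obtain ⟨C0, X1, hls⟩ := ls_sum
  set C1 := max C0 1 with hC1
  have hC1p : 1 ≤ C1 := le_max_right _ _
  obtain ⟨C5, hC5, hwt⟩ := wt_le 0
  obtain ⟨X2, hX2⟩ := small_cond (primorial Z)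
  have hlog : Tendsto Real.log atTop atTop := Real.tendsto_log_atTop
  have hloglog : Tendsto (fun X : ℝ => Real.log (Real.log X)) atTop atTop := hlog.comp hlog
  have ev : ∀ᶠ X : ℝ in atTop, ∃ (ps : ℕ) (S : Finset ℕ), GoodP Z ps ∧
      (ps : ℝ) ≤ Real.exp (tt X) ∧ GoodS X S ∧
      ∀ b : ℕ → ℕ, (∀ q, 1 ≤ q → (b q).Coprime (WW X S ps * q)) →
      ∑ q ∈ (Icc 1 ⌊X ^ (1 / 100 : ℝ)⌋₊).filter
          (fun q => Squarefree q ∧ q.Coprime (WW X S ps * ps)),
        |EPhi X (WW X S ps * q) (b q)|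
        ≤ X / ((Nat.totient (WW X S ps) : ℝ) * Real.exp (Real.sqrt (tt X))) := by
    filter_upwards [eventually_ge_atTop X1, eventually_ge_atTop X2, eventually_ge_atTop (4:ℝ),
      tt_tendsto.eventually (pars2 8),
      hlog.eventually_ge_atTop (2 ^ 2 * 10 * C5 * C1),
      ev_log (16 * C5) 2 (1 / 4) (by norm_num)] with X h1 h2 h3 h4 h5 h6
    have hX0 : 0 < X := by linarith
    have hX1 : 1 ≤ X := by linarith
    have hL1 : 1 ≤ Real.log X := by
      rw [Real.le_log_iff_exp_le hX0]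
      have := Real.exp_one_lt_d9
      linarith
    have ht20 := tt_pow X hX1
    set t := tt X with ht
    obtain ⟨a1, a2, a3, a4⟩ := h4
    have ht0 : 0 < t := by linarith
    set s : ℝ := t ^ (1 / 4 : ℝ) with hs
    have hs4 : s ^ 4 = t := by
      rw [hs, ← Real.rpow_natCast, ← Real.rpow_mul ht0.le]; norm_num
    have hsq : Real.sqrt t = s ^ 2 := by
      rw [← hs4]
      have : s ^ 4 = (s ^ 2) ^ 2 := by ring
      rw [this, Real.sqrt_sq (by positivity)]
    set L := Real.log X with hL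
    set l := Real.log L with hl
    have hL0 : 0 < L := by linarith
    have hlt : l = 20 * Real.log t := by
      rw [hl, ← ht20, Real.log_pow]; norm_num
    rw [← hlt] at a2 a3
    have hl20 : 20 ≤ l := a2
    have hexpl : Real.exp l = L := Real.exp_log hL0
    -- exceptional prime
    obtain ⟨fs, hfs, hfsE, hsc⟩ := hX2 X h2
    obtain ⟨ps, hps, hpsE, hps2⟩ := exists_ps' Z fs hfs (Real.exp t) (Real.one_le_exp ht0.le) hfsE
    have hsc' : ∀ f : ℕ, Squarefree f → 1 < f → (f : ℝ) ≤ Real.exp (t / 8) → f.Coprime ps →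
        ∀ χ : DirichletCharacter ℂ f, χ.IsPrimitive →
          ‖psiPhi χ X‖ ≤ X * Real.exp (-(t / 2)) := by
      intro f hf1 hf2 hf3 hf4
      refine hsc f hf2 (hf3.trans (Real.exp_le_exp.2 (by linarith))) (hps2 f hf2 hf1 hf4)
    -- parameters
    set k : ℕ := ⌈s ^ 2⌉₊ with hk
    have hk1 : s ^ 2 ≤ k := Nat.le_ceil _
    have hk2 : (k : ℝ) ≤ s ^ 2 + 1 := (Nat.ceil_lt_add_one (by positivity)).le
    have hk256 : (256 : ℝ) ≤ k := by nlinarith
    have hk256' : 256 ≤ k := by exact_mod_cast hk256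
    have hkr : (0:ℝ) ≤ k := by positivity
    obtain ⟨N, hN⟩ : ∃ N, k = N + 8 := ⟨k - 8, by omega⟩
    obtain ⟨A, hA⟩ : ∃ A, N = 2 + A + 2 := ⟨N - 4, by omega⟩
    set R := ⌊X ^ (1 / 100 : ℝ)⌋₊ with hR
    set F := ⌊X ^ (1 / 50 : ℝ)⌋₊ with hF
    set D := ⌊L ^ (2 * k)⌋₊ with hD
    set Ω := ⌈(3 * k : ℕ) * l ^ 4⌉₊ with hΩ
    set κ := 1 / l ^ 3 with hκ
    set P := (Icc 1 (yy X)).filter (fun p => p.Prime ∧ z2 X < p) with hP
    set M := C1 * X / L ^ N with hM
    have hM0 : 0 < M := by positivity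
    have hl3 : (1:ℝ) ≤ l ^ 3 := one_le_pow₀ (by linarith)
    have hκ0 : 0 ≤ κ := by positivity
    have hκ1 : κ ≤ 1 := by
      rw [hκ, div_le_one (by positivity)]
      exact hl3
    have hRle : (R : ℝ) ≤ X ^ (1 / 100 : ℝ) := Nat.floor_le (by positivity)
    have hVR : ((primorial (yy X) * R : ℕ) : ℝ) ≤ X ^ (1 / 50 : ℝ) := by
      push_cast
      calc (primorial (yy X) : ℝ) * R ≤ X ^ (1 / 500 : ℝ) * X ^ (1 / 100 : ℝ) :=
            mul_le_mul (primorial_yy_le X hX1) hRle (by positivity) (by positivity)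
        _ = X ^ (1 / 500 + 1 / 100 : ℝ) := by rw [Real.rpow_add hX0]
        _ ≤ _ := Real.rpow_le_rpow_of_exponent_le hX1 (by norm_num)
    have hFle : primorial (yy X) * R ≤ F := Nat.le_floor hVR
    have hall : ∑ f ∈ Icc 2 F, TT X f ≤ M * L ^ k := by
      have h7 := hls X h1
      have h8 : ∑ f ∈ Icc 2 F, TT X f ≤ C0 * X * L ^ 8 := h7
      refine h8.trans ?_
      have hLk : L ^ k = L ^ N * L ^ 8 := by rw [hN, pow_add]
      have hLN0 : L ^ N ≠ 0 := by positivity
      have : M * L ^ k = C1 * X * L ^ 8 := by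
        rw [hLk, hM]
        field_simp
      rw [this]
      have : C0 ≤ C1 := le_max_left _ _
      gcongr
    have hyL : (yy X : ℝ) ≤ L := by
      have : (yy X : ℝ) ≤ L / 1000 := Nat.floor_le (by positivity)
      linarith
    -- random set
    have hE1 : ∑ S ∈ P.powerset, ww P κ S * ∑ q ∈ S, (1:ℝ) / q ≤ 2 / l ^ 2 := by
      rw [sum_ww_inv]
      have h7 : ∑ q ∈ P, (1:ℝ) / q ≤ 1 + l := by
        calc ∑ q ∈ P, (1:ℝ) / q ≤ ∑ q ∈ Icc 1 (yy X), (1:ℝ) / q := by
              apply sum_le_sum_of_subset_of_nonneg (filter_subset _ _)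
              intro i _ _
              positivity
          _ ≤ 1 + Real.log (yy X) := harm_le' _
          _ ≤ 1 + l := by
              rcases Nat.eq_zero_or_pos (yy X) with h | h
              · rw [h]; simp; linarith
              · have : Real.log (yy X) ≤ l :=
                  Real.log_le_log (by exact_mod_cast h) hyL
                linarith
      calc κ * ∑ q ∈ P, (1:ℝ) / q ≤ κ * (1 + l) := mul_le_mul_of_nonneg_left h7 hκ0
        _ ≤ κ * (2 * l) := mul_le_mul_of_nonneg_left (by linarith) hκ0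
        _ = 2 / l ^ 2 := by
            rw [hκ]
            have : l ≠ 0 := by linarith
            field_simp
    have hE2 : ∑ S ∈ P.powerset, ww P κ S * ∑ p ∈ pairB X ps R D Ω P S, TT X (p.1 * p.2) ≤ M := by
      refine (caseB (TT X) (TT_nonneg X) X ps R D Ω F P κ hκ0 hκ1 hFle).trans ?_
      have h7 : (1 - κ) ^ Ω ≤ Real.exp (-((3 * k : ℕ) * l)) := by
        apply pow_le_exp κ l (3 * k) Ω hκ1
        have h8 : ((3 * k : ℕ) : ℝ) * l ^ 4 ≤ Ω := Nat.le_ceil _
        calc ((3 * k : ℕ) : ℝ) * l = κ * (((3 * k : ℕ) : ℝ) * l ^ 4) := by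
              rw [hκ]
              have : l ≠ 0 := by linarith
              field_simp
          _ ≤ κ * Ω := mul_le_mul_of_nonneg_left h8 hκ0
      have h8 : Real.exp (-((3 * k : ℕ) * l)) = 1 / L ^ (3 * k) := by
        rw [Real.exp_neg, Real.exp_nat_mul, hexpl, one_div]
      rw [h8] at h7
      have hDle : (D:ℝ) ≤ L ^ (2 * k) := Nat.floor_le (by positivity)
      have hT0 : 0 ≤ ∑ f ∈ Icc 2 F, TT X f := sum_nonneg fun f _ => TT_nonneg X f
      calc (1 - κ) ^ Ω * (D * ∑ f ∈ Icc 2 F, TT X f) ≤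
          (1 / L ^ (3 * k)) * (L ^ (2 * k) * (M * L ^ k)) := by
            apply mul_le_mul h7 _ (by positivity) (by positivity)
            exact mul_le_mul hDle hall hT0 (by positivity)
        _ = M * ((L ^ (2 * k) * L ^ k) / L ^ (3 * k)) := by ring
        _ = M := by
            rw [← pow_add, show 2 * k + k = 3 * k by ring, div_self (by positivity), mul_one]
    obtain ⟨S, hSP, hS1, hS2⟩ := exists_good P κ hκ0 hκ1 (fun S => ∑ q ∈ S, (1:ℝ) / q)
      (fun S => ∑ p ∈ pairB X ps R D Ω P S, TT X (p.1 * p.2))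
      (fun S => sum_nonneg fun _ _ => by positivity)
      (fun S => sum_nonneg fun _ _ => TT_nonneg X _) (2 / l ^ 2) M (by positivity) hM0 hE1 hE2
    refine ⟨ps, S, hps, hpsE, ⟨?_, ?_⟩, ?_⟩
    · intro q hq
      have := hSP hq
      rw [hP, mem_filter, mem_Icc] at this
      exact ⟨this.2.1, this.2.2, this.1.2⟩
    · calc ∑ q ∈ S, (1:ℝ) / q ≤ 3 * (2 / l ^ 2) := hS1
        _ = 6 / l ^ 2 := by ring
    intro b hb
    set W := WW X S ps with hW
    have hW1 : 1 ≤ W := WW_pos X S ps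
    have hWV : W ≤ primorial (yy X) :=
      Nat.le_of_dvd (primorial_pos _) (WW_dvd_primorial X S ps)
    have hWX : (W:ℝ) ≤ X ^ (1 / 500 : ℝ) :=
      le_trans (by exact_mod_cast hWV) (primorial_yy_le X hX1)
    have hφW : (0:ℝ) < Nat.totient W := by exact_mod_cast Nat.totient_pos.mpr hW1
    -- sizes
    have hz : (z2 X : ℝ) ≤ l ^ 3 + 1 := (Nat.ceil_lt_add_one (by positivity)).le
    have hΩle : (Ω : ℝ) ≤ 3 * k * l ^ 4 + 1 := by
      have h0 : ((3 * k : ℕ) : ℝ) = 3 * (k : ℝ) := by push_cast; ring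
      calc (Ω : ℝ) ≤ ((3 * k : ℕ) : ℝ) * l ^ 4 + 1 :=
            (Nat.ceil_lt_add_one (show 0 ≤ ((3 * k : ℕ) : ℝ) * l ^ 4 by positivity)).le
        _ = 3 * k * l ^ 4 + 1 := by rw [h0]
    obtain ⟨sz1, sz2⟩ := size_alg s l k (z2 X) Ω a1 hl20 a3 hkr hk2 hz hΩle
    rw [hs4] at sz1 sz2
    -- case A
    have hsize : ∀ p ∈ pairs X ps R S, p.2 ≤ D → (P ∩ p.1.primeFactors).card < Ω →
        ((p.1 * p.2 : ℕ) : ℝ) ≤ Real.exp (t / 8) := by
      intro p hp hpD hpΩ
      unfold pairs at hp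
      rw [mem_filter, mem_product, Nat.mem_divisors] at hp
      have h7 := size_caseA X ps Ω S p.1 hp.1.1.1 hpΩ L hL1 hyL
      have h8 : (p.2 : ℝ) ≤ L ^ (2 * k) :=
        le_trans (by exact_mod_cast hpD) (Nat.floor_le (by positivity))
      have h4e : (4:ℝ) ≤ Real.exp 2 := by
        have h := Real.exp_one_gt_d9
        have : Real.exp 2 = Real.exp 1 * Real.exp 1 := by rw [← Real.exp_add]; norm_num
        rw [this]
        nlinarith
      push_cast
      calc (p.1 : ℝ) * p.2 ≤ (4 ^ (z2 X) * L ^ Ω) * L ^ (2 * k) :=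
            mul_le_mul h7 h8 (by positivity) (by positivity)
        _ ≤ ((Real.exp 2) ^ (z2 X) * L ^ Ω) * L ^ (2 * k) := by gcongr
        _ = Real.exp (2 * z2 X + Ω * l + (2 * k : ℕ) * l) := by
            rw [Real.exp_add, Real.exp_add, Real.exp_nat_mul, Real.exp_nat_mul, hexpl,
              ← Real.exp_nat_mul, mul_comm (2:ℝ) (z2 X : ℝ)]
        _ ≤ Real.exp (t / 8) := by
            apply Real.exp_le_exp.mpr
            push_cast
            exact sz1
    have hA' : ∑ p ∈ (pairs X ps R S).filter (fun p => p.2 ≤ D ∧ (P ∩ p.1.primeFactors).card < Ω),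
        TT X (p.1 * p.2) ≤ M := by
      refine (sum_pairsA' X ps R D Ω Z hps P S (Real.exp (t / 8)) (X * Real.exp (-(t / 2)))
        (Real.exp_pos _).le (by positivity) hsize hsc').trans ?_
      have h7 : Real.exp (t / 8) * (Real.exp (t / 8) * Real.exp (-(t / 2))) ≤ 1 / L ^ N := by
        have : 1 / L ^ N = Real.exp (-(N * l)) := by
          rw [Real.exp_neg, Real.exp_nat_mul, hexpl, one_div]
        rw [this, ← Real.exp_add, ← Real.exp_add]
        apply Real.exp_le_exp.mpr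
        have hNk : (N : ℝ) ≤ k := by rw [hN]; push_cast; linarith
        have : (N : ℝ) * l ≤ k * l := mul_le_mul_of_nonneg_right hNk (by linarith)
        linarith
      calc Real.exp (t / 8) * (Real.exp (t / 8) * (X * Real.exp (-(t / 2)))) =
            X * (Real.exp (t / 8) * (Real.exp (t / 8) * Real.exp (-(t / 2)))) := by ring
        _ ≤ X * (1 / L ^ N) := mul_le_mul_of_nonneg_left h7 hX0.le
        _ = 1 * X / L ^ N := by ring
        _ ≤ C1 * X / L ^ N := by gcongr
    have hmain := sum_pairs 0 X C5 M L hX0.le hC5 hwt ps R D Ω k F P S hL1 hM0.le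
      (fun b hb => by
        have : L ^ (2 * k) < b := (Nat.floor_lt (by positivity)).mp hb
        exact this.le) hFle hall hA' hS2
    -- logarithm of R
    have hRX : (R:ℝ) ≤ X := by
      refine hRle.trans ?_
      calc X ^ (1 / 100 : ℝ) ≤ X ^ (1:ℝ) := Real.rpow_le_rpow_of_exponent_le hX1 (by norm_num)
        _ = X := Real.rpow_one X
    have hsumwt : ∑ e ∈ Icc 1 R, wt 0 e ≤ 2 ^ 2 * L ^ 2 := by
      refine (sum_wt 0 R).trans ?_
      have e0 : 2 ^ (0 + 1) = 2 := by norm_num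
      rw [e0, ← mul_pow]
      have h7 := log_natCast_le R X hX1 hRX
      have h8 := Real.log_natCast_nonneg R
      apply pow_le_pow_left₀ (by linarith)
      linarith
    have hsumwt0 : 0 ≤ ∑ e ∈ Icc 1 R, wt 0 e := sum_nonneg fun e _ => wt_nonneg 0 e
    have hpairs0 : 0 ≤ ∑ p ∈ pairs X ps R S, wt 0 p.2 * TT X (p.1 * p.2) :=
      sum_nonneg fun p _ => mul_nonneg (wt_nonneg 0 _) (TT_nonneg X _)
    -- first part
    have s0 : ∑ q ∈ QQ W ps R, |EPhi X (W * q) (b q)| ≤
        ∑ q ∈ QQ W ps R, (q.divisors.card : ℝ) ^ 0 * ((1 / (Nat.totient (W * q) : ℝ)) *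
          ∑ f ∈ (W * q).divisors.filter (fun f => f ≠ 1), TT X f) +
        ∑ q ∈ QQ W ps R, (2 * ((W * q).primeFactors.card * Real.log (3 * X))) := by
      rw [← sum_add_distrib]
      apply sum_le_sum
      intro q hq
      rw [mem_QQ] at hq
      rw [pow_zero, one_mul]
      exact EPhi_le X hX1 (W * q) (b q) (Nat.mul_pos hW1 hq.1.1) (hb q hq.1.1)
    have s1 := main_swap 0 (TT X) (TT_nonneg X) W ps R hW1
    have s2 : (1 / (Nat.totient W : ℝ)) * ((∑ e ∈ Icc 1 R, wt 0 e) *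
      ∑ p ∈ (W.divisors ×ˢ QQ W ps R).filter (fun p => p.1 * p.2 ≠ 1),
        wt 0 p.2 * TT X (p.1 * p.2)) ≤ (1 / 2) * (X / ((Nat.totient W : ℝ) * L ^ A)) := by
      calc _ ≤ (1 / (Nat.totient W : ℝ)) * ((2 ^ 2 * L ^ 2) * (5 * C5 * M)) := by
            apply mul_le_mul_of_nonneg_left _ (by positivity)
            exact mul_le_mul hsumwt hmain hpairs0 (by positivity)
        _ = (1 / 2) * ((2 ^ 2 * 10 * C5 * C1) / L ^ 2) * (X / ((Nat.totient W : ℝ) * L ^ A)) :=
            main_alg (Nat.totient W : ℝ) (2 ^ 2) (L ^ 2) (L ^ A) (L ^ 2) (L ^ N) C5 C1 X M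
              hφW.ne' (by positivity) (by positivity) (by positivity)
              (by rw [hA, pow_add, pow_add]) hM
        _ ≤ (1 / 2) * 1 * (X / ((Nat.totient W : ℝ) * L ^ A)) := by
            gcongr
            rw [div_le_one (by positivity)]
            calc 2 ^ 2 * 10 * C5 * C1 ≤ L := h5
              _ ≤ L ^ 2 := by nlinarith
        _ = _ := by ring
    -- the saving
    have hLA : Real.exp (Real.sqrt t) ≤ L ^ A := by
      have e1 : L ^ A = Real.exp (A * l) := by rw [Real.exp_nat_mul, hexpl]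
      rw [e1, hsq]
      apply Real.exp_le_exp.mpr
      have e2 : (k : ℝ) = A + 12 := by
        have : k = A + 12 := by omega
        exact_mod_cast this
      have e3 : s ^ 2 - 12 ≤ A := by linarith
      nlinarith
    have hLAup : L ^ A ≤ X ^ (1 / 4 : ℝ) := by
      have e1 : L ^ A = Real.exp (A * l) := by rw [Real.exp_nat_mul, hexpl]
      rw [e1, Real.rpow_def_of_pos hX0]
      apply Real.exp_le_exp.mpr
      have hAk : (A : ℝ) ≤ k := by
        have : A ≤ k := by omega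
        exact_mod_cast this
      have : (A : ℝ) * l ≤ k * l := mul_le_mul_of_nonneg_right hAk (by linarith)
      have htL : t ≤ L := by
        rw [← ht20]
        exact le_self_pow₀ (by linarith) (by norm_num)
      change (A : ℝ) * l ≤ L * (1 / 4)
      linarith
    have s3 : ∑ q ∈ QQ W ps R, (2 * ((W * q).primeFactors.card * Real.log (3 * X))) ≤
        (1 / 2) * (X / ((Nat.totient W : ℝ) * L ^ A)) := by
      have t1 : ∀ q ∈ QQ W ps R, (2 * ((W * q).primeFactors.card * Real.log (3 * X))) ≤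
          8 * L ^ 2 := by
        intro q hq
        rw [mem_QQ] at hq
        obtain ⟨⟨hq1, hq2⟩, _, _⟩ := hq
        have u2 : ((W * q).primeFactors.card : ℝ) ≤ 2 * L := by
          refine (omega_le_log (W * q) (Nat.mul_pos hW1 hq1)).trans ?_
          have v1 : ((W * q : ℕ) : ℝ) ≤ X := by
            calc ((W * q : ℕ) : ℝ) ≤ ((primorial (yy X) * R : ℕ) : ℝ) := by
                  exact_mod_cast Nat.mul_le_mul hWV hq2
              _ ≤ X ^ (1 / 50 : ℝ) := hVR
              _ ≤ X ^ (1:ℝ) := Real.rpow_le_rpow_of_exponent_le hX1 (by norm_num)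
              _ = X := Real.rpow_one X
          have := log_natCast_le (W * q) X hX1 v1
          linarith
        have u3 : Real.log (3 * X) ≤ 2 * L := by
          calc Real.log (3 * X) ≤ Real.log (X * X) :=
                Real.log_le_log (by positivity) (by nlinarith)
            _ = 2 * L := by rw [Real.log_mul hX0.ne' hX0.ne']; ring
        have u4 : 0 ≤ Real.log (3 * X) := Real.log_nonneg (by linarith)
        calc (2 * ((W * q).primeFactors.card * Real.log (3 * X))) ≤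
            (2 * ((2 * L) * (2 * L))) := by
              apply mul_le_mul_of_nonneg_left _ (by norm_num)
              exact mul_le_mul u2 u3 u4 (by positivity)
          _ = _ := by ring
      refine (sum_le_sum t1).trans ?_
      rw [sum_const, nsmul_eq_mul]
      have t2 : ((QQ W ps R).card : ℝ) ≤ X ^ (1 / 100 : ℝ) := by
        have : (QQ W ps R).card ≤ R := by
          refine (card_filter_le _ _).trans ?_
          rw [Nat.card_Icc]
          omega
        exact le_trans (by exact_mod_cast this) hRle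
      have t3 : (Nat.totient W : ℝ) ≤ X ^ (1 / 500 : ℝ) :=
        le_trans (by exact_mod_cast Nat.totient_le W) hWX
      have hC51 : 1 ≤ C5 := by
        have := hwt 1 le_rfl
        unfold wt at this
        simpa using this
      have h6' : 16 * L ^ 2 ≤ X ^ (1 / 4 : ℝ) := by
        refine le_trans ?_ h6
        have : 0 ≤ L ^ 2 := by positivity
        nlinarith
      rw [← mul_div_assoc, le_div_iff₀ (by positivity)]
      calc ((QQ W ps R).card : ℝ) * (8 * L ^ 2) * ((Nat.totient W : ℝ) * L ^ A) ≤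
          X ^ (1 / 100 : ℝ) * (8 * L ^ 2) * (X ^ (1 / 500 : ℝ) * X ^ (1 / 4 : ℝ)) := by gcongr
        _ = (1 / 2) * ((16 * L ^ 2) *
            (X ^ (1 / 100 : ℝ) * X ^ (1 / 500 : ℝ) * X ^ (1 / 4 : ℝ))) := by ring
        _ ≤ (1 / 2) * (X ^ (1 / 4 : ℝ) * X ^ (3 / 4 : ℝ)) := by
            apply mul_le_mul_of_nonneg_left _ (by norm_num)
            apply mul_le_mul h6' _ (by positivity) (by positivity)
            rw [← Real.rpow_add hX0, ← Real.rpow_add hX0]
            exact Real.rpow_le_rpow_of_exponent_le hX1 (by norm_num)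
        _ = (1 / 2) * X := by
            rw [← Real.rpow_add hX0]; norm_num
    have hfin : ∑ q ∈ QQ W ps R, |EPhi X (W * q) (b q)| ≤
        X / ((Nat.totient W : ℝ) * L ^ A) := by linarith
    refine hfin.trans ?_
    apply div_le_div_of_nonneg_left hX0.le (by positivity)
    exact mul_le_mul_of_nonneg_left hLA hφW.le
  exact eventually_atTop.mp ev

end Pool.Agent.K4H19.FQ
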