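import Mathlib

set_option autoImplicit false
set_option linter.unusedVariables false

/-! # Pairs of coprime residues -/

namespace Pool.Agent.K4H19.FQ

open Finset

/-- number of classes `b` mod `m` with `b` and `b + k` invertible -/
noncomputable def cc (k : ℤ) (m : ℕ) : ℕ := Nat.card {b : ZMod m // IsUnit b ∧ IsUnit (b + (k : ZMod m))}

theorem cc_one (k : ℤ) : cc k 1 = 1 := by
  unfold cc
  rw [Nat.card_eq_one_iff_unique]
  refine ⟨⟨fun a b => Subtype.ext (Subsingleton.elim _ _)⟩, ⟨⟨1, isUnit_one, ?_⟩⟩⟩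
  rw [Subsingleton.elim ((1 : ZMod 1) + (k : ZMod 1)) 1]
  exact isUnit_one

theorem cc_mul (k : ℤ) {m n : ℕ} (h : m.Coprime n) : cc k (m * n) = cc k m * cc k n := by
  unfold cc
  rw [← Nat.card_prod]
  apply Nat.card_congr
  refine Equiv.trans (Equiv.subtypeEquiv (ZMod.chineseRemainder h).toEquiv
    (q := fun x : ZMod m × ZMod n => (IsUnit x.1 ∧ IsUnit (x.1 + (k : ZMod m))) ∧
      (IsUnit x.2 ∧ IsUnit (x.2 + (k : ZMod n)))) ?_)
    (Equiv.subtypeProdEquivProd (p := fun a : ZMod m => IsUnit a ∧ IsUnit (a + (k : ZMod m)))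
      (q := fun a : ZMod n => IsUnit a ∧ IsUnit (a + (k : ZMod n))))
  intro b
  have h1 : IsUnit b ↔ IsUnit (ZMod.chineseRemainder h b) := by
    constructor
    · intro hb
      exact hb.map _
    · intro hb
      have := hb.map (ZMod.chineseRemainder h).symm
      simpa using this
  have h2 : IsUnit (b + (k : ZMod (m * n))) ↔
      IsUnit (ZMod.chineseRemainder h b + (k : ZMod m × ZMod n)) := by
    have e : ZMod.chineseRemainder h (b + (k : ZMod (m * n))) =
        ZMod.chineseRemainder h b + (k : ZMod m × ZMod n) := by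
      rw [map_add, map_intCast]
    constructor
    · intro hb
      rw [← e]
      exact hb.map _
    · intro hb
      rw [← e] at hb
      have := hb.map (ZMod.chineseRemainder h).symm
      simpa using this
  rw [h1, h2, Prod.isUnit_iff, Prod.isUnit_iff]
  simp only [Prod.fst_add, Prod.snd_add, Prod.fst_intCast, Prod.snd_intCast]
  change _ ↔ (IsUnit (ZMod.chineseRemainder h b).1 ∧ _) ∧ (IsUnit (ZMod.chineseRemainder h b).2 ∧ _)
  tauto

theorem cc_prime (k : ℤ) {p : ℕ} (hp : p.Prime) :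
    (cc k p : ℝ) ≤ ((p:ℝ) - 1) * (1 - 1 / (p:ℝ)) *
      (1 + if (p:ℤ) ∣ k then 1 / ((p:ℝ) - 1) else 0) := by
  have := Fact.mk hp
  have hp2 : (2:ℝ) ≤ p := by exact_mod_cast hp.two_le
  unfold cc
  rw [Nat.card_eq_fintype_card, Fintype.card_subtype]
  by_cases hk : (p:ℤ) ∣ k
  · rw [if_pos hk]
    have h1 : (univ.filter (fun b : ZMod p => IsUnit b ∧ IsUnit (b + (k : ZMod p)))) ⊆
        univ.erase 0 := by
      intro b hb
      rw [Finset.mem_filter] at hb
      rw [Finset.mem_erase]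
      exact ⟨hb.2.1.ne_zero, Finset.mem_univ _⟩
    have h2 := Finset.card_le_card h1
    rw [Finset.card_erase_of_mem (Finset.mem_univ _), Finset.card_univ, ZMod.card] at h2
    have h3 : ((univ.filter (fun b : ZMod p => IsUnit b ∧ IsUnit (b + (k : ZMod p)))).card : ℝ) ≤
        (p:ℝ) - 1 := by
      have : ((univ.filter (fun b : ZMod p => IsUnit b ∧ IsUnit (b + (k : ZMod p)))).card : ℝ) ≤
        ((p - 1 : ℕ) : ℝ) := by exact_mod_cast h2
      rwa [Nat.cast_sub hp.one_le, Nat.cast_one] at this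
    have h4 : ((p:ℝ) - 1) * (1 - 1 / (p:ℝ)) * (1 + 1 / ((p:ℝ) - 1)) = (p:ℝ) - 1 := by
      have : (p:ℝ) - 1 ≠ 0 := by linarith
      have : (p:ℝ) ≠ 0 := by linarith
      field_simp
      ring
    rw [h4]
    exact h3
  · rw [if_neg hk, add_zero, mul_one]
    have hk0 : (k : ZMod p) ≠ 0 := by
      intro h
      exact hk ((ZMod.intCast_zmod_eq_zero_iff_dvd k p).1 h)
    have h1 : (univ.filter (fun b : ZMod p => IsUnit b ∧ IsUnit (b + (k : ZMod p)))) ⊆
        (univ.erase 0).erase (-(k : ZMod p)) := by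
      intro b hb
      rw [Finset.mem_filter] at hb
      rw [Finset.mem_erase, Finset.mem_erase]
      refine ⟨?_, hb.2.1.ne_zero, Finset.mem_univ _⟩
      intro h
      apply hb.2.2.ne_zero
      rw [h]
      ring
    have h2 := Finset.card_le_card h1
    rw [Finset.card_erase_of_mem (by
      rw [Finset.mem_erase]
      exact ⟨neg_ne_zero.2 hk0, Finset.mem_univ _⟩),
      Finset.card_erase_of_mem (Finset.mem_univ _), Finset.card_univ, ZMod.card] at h2
    have h3 : ((univ.filter (fun b : ZMod p => IsUnit b ∧ IsUnit (b + (k : ZMod p)))).card : ℝ) ≤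
        (p:ℝ) - 2 := by
      have : ((univ.filter (fun b : ZMod p => IsUnit b ∧ IsUnit (b + (k : ZMod p)))).card : ℝ) ≤
        ((p - 1 - 1 : ℕ) : ℝ) := by exact_mod_cast h2
      have e : p - 1 - 1 = p - 2 := by omega
      rw [e, Nat.cast_sub hp.two_le] at this
      exact_mod_cast this
    refine h3.trans ?_
    have h5 : ((p:ℝ) - 1) * (1 - 1 / (p:ℝ)) = (p:ℝ) - 2 + 1 / p := by
      have : (p:ℝ) ≠ 0 := by linarith
      field_simp
      ring
    rw [h5]
    have : 0 ≤ 1 / (p:ℝ) := by positivity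
    linarith

theorem cc_prod (k : ℤ) (P : Finset ℕ) (hP : ∀ p ∈ P, p.Prime) :
    (cc k (∏ p ∈ P, p) : ℝ) ≤ ∏ p ∈ P, (((p:ℝ) - 1) * (1 - 1 / (p:ℝ)) *
      (1 + if (p:ℤ) ∣ k then 1 / ((p:ℝ) - 1) else 0)) := by
  induction P using Finset.induction_on with
  | empty => simp [cc_one]
  | insert a s ha ih =>
    have hap : a.Prime := hP a (Finset.mem_insert_self a s)
    have hs : ∀ p ∈ s, p.Prime := fun p hp => hP p (Finset.mem_insert_of_mem hp)
    rw [Finset.prod_insert ha, Finset.prod_insert ha, cc_mul k]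
    · push_cast
      apply mul_le_mul (cc_prime k hap) (ih hs) (by positivity)
      exact (Nat.cast_nonneg _).trans (cc_prime k hap)
    · apply Nat.Coprime.prod_right
      intro j hj
      rw [Nat.coprime_primes hap (hs j hj)]
      intro h
      exact ha (h ▸ hj)

/-- the shifts -/
noncomputable def KF (F : ℕ) : Finset ℤ := (Icc (-(F:ℤ)) F).erase 0

theorem mem_KF {F : ℕ} {k : ℤ} : k ∈ KF F ↔ k ≠ 0 ∧ |k| ≤ F := by
  unfold KF
  rw [Finset.mem_erase, Finset.mem_Icc, abs_le]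

theorem card_mult (F d : ℕ) (hd : 0 < d) :
    (((KF F).filter (fun k => (d:ℤ) ∣ k)).card : ℝ) ≤ 2 * F / d := by
  classical
  have h1 : (KF F).filter (fun k => (d:ℤ) ∣ k) ⊆
      ((Icc 1 (F / d)).image (fun j : ℕ => (d:ℤ) * j)) ∪
      ((Icc 1 (F / d)).image (fun j : ℕ => -((d:ℤ) * j))) := by
    intro k hk
    rw [Finset.mem_filter, mem_KF] at hk
    obtain ⟨⟨hk0, hkF⟩, hdk⟩ := hk
    have h2 : d ∣ k.natAbs := Int.natCast_dvd.1 hdk
    obtain ⟨j, hj⟩ := h2
    have hkn : 0 < k.natAbs := Int.natAbs_pos.2 hk0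
    have hj1 : 1 ≤ j := by
      by_contra hc
      have : j = 0 := by omega
      rw [this] at hj
      omega
    have hjF : j ≤ F / d := by
      rw [Nat.le_div_iff_mul_le hd]
      have : (k.natAbs : ℤ) ≤ F := by rw [Int.natCast_natAbs]; exact hkF
      have h3 : k.natAbs ≤ F := by exact_mod_cast this
      rw [hj, mul_comm] at h3
      exact h3
    rw [Finset.mem_union, Finset.mem_image, Finset.mem_image]
    rcases le_total 0 k with hk' | hk'
    · left
      refine ⟨j, Finset.mem_Icc.2 ⟨hj1, hjF⟩, ?_⟩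
      have : (k.natAbs : ℤ) = k := Int.natAbs_of_nonneg hk'
      rw [← this, hj]
      push_cast
      rfl
    · right
      refine ⟨j, Finset.mem_Icc.2 ⟨hj1, hjF⟩, ?_⟩
      have : (k.natAbs : ℤ) = -k := Int.ofNat_natAbs_of_nonpos hk'
      rw [hj] at this
      push_cast at this
      linarith
  have h2 := Finset.card_le_card h1
  have h3 := Finset.card_union_le ((Icc 1 (F / d)).image (fun j : ℕ => (d:ℤ) * j))
      ((Icc 1 (F / d)).image (fun j : ℕ => -((d:ℤ) * j)))
  have h4 : ((Icc 1 (F / d)).image (fun j : ℕ => (d:ℤ) * j)).card ≤ F / d := by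
    refine Finset.card_image_le.trans ?_
    rw [Nat.card_Icc]
    exact le_of_eq (Nat.add_sub_cancel _ _)
  have h5 : ((Icc 1 (F / d)).image (fun j : ℕ => -((d:ℤ) * j))).card ≤ F / d := by
    refine Finset.card_image_le.trans ?_
    rw [Nat.card_Icc]
    exact le_of_eq (Nat.add_sub_cancel _ _)
  have h6 : ((KF F).filter (fun k => (d:ℤ) ∣ k)).card ≤ 2 * (F / d) := by
    rw [two_mul]
    exact h2.trans (h3.trans (add_le_add h4 h5))
  have h7 : (((KF F).filter (fun k => (d:ℤ) ∣ k)).card : ℝ) ≤ 2 * ((F / d : ℕ) : ℝ) := by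
    exact_mod_cast h6
  refine h7.trans ?_
  have h8 : ((F / d : ℕ) : ℝ) ≤ (F:ℝ) / d := Nat.cast_div_le
  calc 2 * ((F / d : ℕ) : ℝ) ≤ 2 * ((F:ℝ) / d) := by linarith
    _ = 2 * F / d := by ring

theorem tel_sum (P : Finset ℕ) (hP : ∀ p ∈ P, 2 ≤ p) :
    ∑ p ∈ P, 1 / ((p:ℝ) * ((p:ℝ) - 1)) ≤ 1 := by
  have hsub : P ⊆ Finset.Ico 2 (P.sup id + 2) := by
    intro p hp
    rw [Finset.mem_Ico]
    refine ⟨hP p hp, ?_⟩
    have : p ≤ P.sup id := Finset.le_sup (f := id) hp
    omega
  have htel : ∀ M : ℕ, ∑ p ∈ Finset.Ico 2 (M + 2), 1 / ((p:ℝ) * ((p:ℝ) - 1)) =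
      1 - 1 / ((M:ℝ) + 1) := by
    intro M
    induction M with
    | zero => simp
    | succ M ih =>
      have e : M + 1 + 2 = (M + 2) + 1 := by ring
      rw [e, Finset.sum_Ico_succ_top (by omega), ih]
      push_cast
      have h1 : (M:ℝ) + 1 ≠ 0 := by positivity
      have h2 : (M:ℝ) + 2 ≠ 0 := by positivity
      have h3 : (M:ℝ) + 2 - 1 ≠ 0 := by
        have : (M:ℝ) + 2 - 1 = M + 1 := by ring
        rw [this]
        exact h1
      have h4 : (M:ℝ) + 1 + 1 ≠ 0 := by positivity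
      field_simp
      ring
  calc ∑ p ∈ P, 1 / ((p:ℝ) * ((p:ℝ) - 1))
      ≤ ∑ p ∈ Finset.Ico 2 (P.sup id + 2), 1 / ((p:ℝ) * ((p:ℝ) - 1)) := by
        apply Finset.sum_le_sum_of_subset_of_nonneg hsub
        intro p hp _
        rw [Finset.mem_Ico] at hp
        have : (2:ℝ) ≤ p := by exact_mod_cast hp.1
        have : 0 ≤ (p:ℝ) - 1 := by linarith
        positivity
    _ = 1 - 1 / (((P.sup id : ℕ):ℝ) + 1) := htel _
    _ ≤ 1 := by
        have : 0 ≤ 1 / (((P.sup id : ℕ):ℝ) + 1) := by positivity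
        linarith

theorem sum_mult (F : ℕ) (P : Finset ℕ) (hP : ∀ p ∈ P, p.Prime) :
    ∑ k ∈ KF F, ∏ p ∈ P, (1 + if (p:ℤ) ∣ k then 1 / ((p:ℝ) - 1) else 0) ≤
      2 * F * Real.exp 1 := by
  classical
  have hp1 : ∀ p ∈ P, 0 < (p:ℝ) - 1 := by
    intro p hp
    have : (2:ℝ) ≤ p := by exact_mod_cast (hP p hp).two_le
    linarith
  have hp0 : ∀ p ∈ P, 0 < (p:ℝ) := fun p hp => by linarith [hp1 p hp]
  simp_rw [Finset.prod_one_add]
  rw [Finset.sum_comm]
  have h1 : ∀ T ∈ P.powerset, ∑ k ∈ KF F, ∏ p ∈ T, (if (p:ℤ) ∣ k then 1 / ((p:ℝ) - 1) else 0) ≤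
      2 * F * ∏ p ∈ T, 1 / ((p:ℝ) * ((p:ℝ) - 1)) := by
    intro T hT
    rw [Finset.mem_powerset] at hT
    have hTp : ∀ p ∈ T, p.Prime := fun p hp => hP p (hT hp)
    have hd : 0 < ∏ p ∈ T, p := Finset.prod_pos fun p hp => (hTp p hp).pos
    have e1 : ∀ k : ℤ, ∏ p ∈ T, (if (p:ℤ) ∣ k then 1 / ((p:ℝ) - 1) else 0) =
        if ((∏ p ∈ T, p : ℕ) : ℤ) ∣ k then ∏ p ∈ T, 1 / ((p:ℝ) - 1) else 0 := by
      intro k
      by_cases h : ∀ p ∈ T, (p:ℤ) ∣ k
      · have h2 : ((∏ p ∈ T, p : ℕ) : ℤ) ∣ k := by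
          push_cast
          apply Finset.prod_dvd_of_coprime _ h
          intro a ha b hb hab
          change IsCoprime (a:ℤ) (b:ℤ)
          rw [Nat.isCoprime_iff_coprime]
          exact (Nat.coprime_primes (hTp a ha) (hTp b hb)).2 hab
        rw [if_pos h2]
        exact Finset.prod_congr rfl fun p hp => by rw [if_pos (h p hp)]
      · have h2 : ¬ ((∏ p ∈ T, p : ℕ) : ℤ) ∣ k := by
          intro h3
          apply h
          intro p hp
          refine dvd_trans ?_ h3
          exact_mod_cast Finset.dvd_prod_of_mem _ hp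
        rw [if_neg h2]
        push Not at h
        obtain ⟨p, hp, hpk⟩ := h
        exact Finset.prod_eq_zero hp (if_neg hpk)
    rw [Finset.sum_congr rfl fun k _ => e1 k, ← Finset.sum_filter, Finset.sum_const, nsmul_eq_mul]
    have h2 := card_mult F (∏ p ∈ T, p) hd
    have h3 : 0 ≤ ∏ p ∈ T, 1 / ((p:ℝ) - 1) := Finset.prod_nonneg fun p hp => by
      have := hp1 p (hT hp)
      positivity
    refine (mul_le_mul_of_nonneg_right h2 h3).trans (le_of_eq ?_)
    have h4 : ∏ p ∈ T, 1 / ((p:ℝ) * ((p:ℝ) - 1)) = (1 / ∏ p ∈ T, (p:ℝ)) *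
        ∏ p ∈ T, 1 / ((p:ℝ) - 1) := by
      have h5 : (1 / ∏ p ∈ T, (p:ℝ)) = ∏ p ∈ T, 1 / (p:ℝ) := by
        rw [Finset.prod_div_distrib, Finset.prod_const_one]
      rw [h5, ← Finset.prod_mul_distrib]
      refine Finset.prod_congr rfl fun p hp => ?_
      rw [one_div_mul_one_div]
    rw [h4]
    push_cast
    ring
  refine (Finset.sum_le_sum h1).trans ?_
  rw [← Finset.mul_sum]
  apply mul_le_mul_of_nonneg_left _ (by positivity)
  rw [← Finset.prod_one_add]
  calc ∏ p ∈ P, (1 + 1 / ((p:ℝ) * ((p:ℝ) - 1)))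
      ≤ ∏ p ∈ P, Real.exp (1 / ((p:ℝ) * ((p:ℝ) - 1))) := by
        apply Finset.prod_le_prod
        · intro p hp
          have h1 := hp1 p hp
          have h2 := hp0 p hp
          positivity
        · intro p _
          have := Real.add_one_le_exp (1 / ((p:ℝ) * ((p:ℝ) - 1)))
          linarith
    _ = Real.exp (∑ p ∈ P, 1 / ((p:ℝ) * ((p:ℝ) - 1))) := by rw [Real.exp_sum]
    _ ≤ Real.exp 1 := Real.exp_le_exp.2 (tel_sum P fun p hp => (hP p hp).two_le)

/-- average number of shifts that remain coprime -/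
theorem sum_cc (F : ℕ) (P : Finset ℕ) (hP : ∀ p ∈ P, p.Prime) :
    ∑ k ∈ KF F, (cc k (∏ p ∈ P, p) : ℝ) ≤
      ((∏ p ∈ P, p).totient : ℝ) * (∏ p ∈ P, (1 - 1 / (p:ℝ))) * (2 * F * Real.exp 1) := by
  have h1 : ∀ k ∈ KF F, (cc k (∏ p ∈ P, p) : ℝ) ≤
      ((∏ p ∈ P, ((p:ℝ) - 1)) * (∏ p ∈ P, (1 - 1 / (p:ℝ)))) *
      ∏ p ∈ P, (1 + if (p:ℤ) ∣ k then 1 / ((p:ℝ) - 1) else 0) := by
    intro k _
    refine (cc_prod k P hP).trans (le_of_eq ?_)
    rw [Finset.prod_mul_distrib, Finset.prod_mul_distrib]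
  have h2 : ((∏ p ∈ P, p).totient : ℝ) = ∏ p ∈ P, ((p:ℝ) - 1) := by
    clear h1
    induction P using Finset.induction_on with
    | empty => simp
    | insert a s ha ih =>
      have hap : a.Prime := hP a (Finset.mem_insert_self a s)
      have hs : ∀ p ∈ s, p.Prime := fun p hp => hP p (Finset.mem_insert_of_mem hp)
      rw [Finset.prod_insert ha, Finset.prod_insert ha, Nat.totient_mul, Nat.totient_prime hap]
      · push_cast
        rw [ih hs, Nat.cast_sub hap.one_le]
        simp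
      · apply Nat.Coprime.prod_right
        intro j hj
        rw [Nat.coprime_primes hap (hs j hj)]
        intro h
        exact ha (h ▸ hj)
  refine (Finset.sum_le_sum h1).trans ?_
  rw [← Finset.mul_sum, h2]
  apply mul_le_mul_of_nonneg_left (sum_mult F P hP)
  apply mul_nonneg
  · apply Finset.prod_nonneg
    intro p hp
    have : (2:ℝ) ≤ p := by exact_mod_cast (hP p hp).two_le
    linarith
  · apply Finset.prod_nonneg
    intro p hp
    have : (2:ℝ) ≤ p := by exact_mod_cast (hP p hp).two_le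
    have : 1 / (p:ℝ) ≤ 1 := by
      rw [div_le_one (by linarith)]
      linarith
    linarith

open Classical in
/-- the remaining shifts of the class `b` -/
noncomputable def KK (W F : ℕ) (b : ZMod W) : Finset ℤ :=
  (KF F).filter (fun k => IsUnit (b + (k : ZMod W)))

open Classical in
theorem mem_KK {W F : ℕ} {b : ZMod W} {k : ℤ} :
    k ∈ KK W F b ↔ k ∈ KF F ∧ IsUnit (b + (k : ZMod W)) := by
  unfold KK
  exact Finset.mem_filter

open Classical in
/-- many classes have few remaining shifts -/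
theorem good_classes (F : ℕ) (P : Finset ℕ) (hP : ∀ p ∈ P, p.Prime) (B : ℝ) (hB : 0 < B)
    (hBF : 2 * ((∏ p ∈ P, (1 - 1 / (p:ℝ))) * (2 * F * Real.exp 1)) ≤ B)
    [NeZero (∏ p ∈ P, p)] :
    ((∏ p ∈ P, p).totient : ℝ) / 2 ≤
      ((univ.filter (fun b : ZMod (∏ p ∈ P, p) => IsUnit b ∧
        ((KK (∏ p ∈ P, p) F b).card : ℝ) ≤ B)).card : ℝ) := by
  set W : ℕ := ∏ p ∈ P, p with hW
  have h1 : ∑ b ∈ univ.filter (fun b : ZMod W => IsUnit b), ((KK W F b).card : ℝ) =
      ∑ k ∈ KF F, (cc k W : ℝ) := by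
    have e1 : ∀ b : ZMod W, ((KK W F b).card : ℝ) =
        ∑ k ∈ KF F, if IsUnit (b + (k : ZMod W)) then (1:ℝ) else 0 := by
      intro b
      unfold KK
      rw [Finset.card_filter]
      push_cast
      rfl
    rw [Finset.sum_congr rfl fun b _ => e1 b, Finset.sum_comm]
    refine Finset.sum_congr rfl fun k _ => ?_
    unfold cc
    rw [Nat.card_eq_fintype_card, Fintype.card_subtype, ← Finset.sum_filter, Finset.filter_filter,
      Finset.sum_const, nsmul_eq_mul, mul_one]
  have h2 := sum_cc F P hP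
  rw [← hW, ← h1] at h2
  have h3 : ((univ.filter (fun b : ZMod W => IsUnit b)).card : ℝ) = (W.totient : ℝ) := by
    rw [← ZMod.card_units_eq_totient]
    congr 1
    have e1 : univ.filter (fun b : ZMod W => IsUnit b) =
        (univ : Finset (ZMod W)ˣ).map ⟨Units.val, Units.val_injective⟩ := by
      ext b
      rw [Finset.mem_filter, Finset.mem_map]
      constructor
      · rintro ⟨_, u, hu⟩
        exact ⟨u, Finset.mem_univ _, hu⟩
      · rintro ⟨u, _, hu⟩
        exact ⟨Finset.mem_univ _, u, hu⟩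
    rw [e1, Finset.card_map, Finset.card_univ]
  set G := univ.filter (fun b : ZMod W => IsUnit b ∧ ((KK W F b).card : ℝ) ≤ B) with hG
  set D := univ.filter (fun b : ZMod W => IsUnit b ∧ ¬ ((KK W F b).card : ℝ) ≤ B) with hD
  have h4 : (G.card : ℝ) + D.card = W.totient := by
    rw [← h3]
    have := Finset.card_filter_add_card_filter_not (s := univ.filter (fun b : ZMod W => IsUnit b))
      (fun b => ((KK W F b).card : ℝ) ≤ B)
    rw [Finset.filter_filter, Finset.filter_filter] at this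
    exact_mod_cast this
  have h5 : (D.card : ℝ) * B ≤ (W.totient : ℝ) * (∏ p ∈ P, (1 - 1 / (p:ℝ))) *
      (2 * F * Real.exp 1) := by
    refine le_trans ?_ h2
    calc (D.card : ℝ) * B = ∑ _b ∈ D, B := by rw [Finset.sum_const, nsmul_eq_mul]
      _ ≤ ∑ b ∈ D, ((KK W F b).card : ℝ) := by
          apply Finset.sum_le_sum
          intro b hb
          exact (not_le.1 (Finset.mem_filter.1 hb).2.2).le
      _ ≤ _ := by
          apply Finset.sum_le_sum_of_subset_of_nonneg
          · intro b hb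
            rw [hD, Finset.mem_filter] at hb
            rw [Finset.mem_filter]
            exact ⟨hb.1, hb.2.1⟩
          · intro b _ _
            positivity
  have h6 : (D.card : ℝ) * B ≤ (W.totient : ℝ) * (B / 2) := by
    refine h5.trans ?_
    rw [mul_assoc]
    apply mul_le_mul_of_nonneg_left _ (Nat.cast_nonneg _)
    linarith
  have h7 : (D.card : ℝ) ≤ (W.totient : ℝ) / 2 := by
    have : (D.card : ℝ) * B ≤ ((W.totient : ℝ) / 2) * B := by
      refine h6.trans (le_of_eq ?_)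
      ring
    exact le_of_mul_le_mul_right this hB
  linarith

end Pool.Agent.K4H19.FQ
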