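import Pool.Agent.K4H19.FQ.Cov6
import Pool.Agent.K4H19.FQ.BV2
import Pool.Agent.K4H19.FQ.Cls

set_option autoImplicit false
set_option linter.unusedVariables false

/-! # One class modulo the small primes -/

namespace Pool.Agent.K4H19.FQ

open Finset Filter
open Pool.Agent.H378R2 (Phi EPhi)
open ArithmeticFunction (vonMangoldt)

open scoped Classical

/-- weighted sum of the von Mangoldt function -/
noncomputable def LP (X : ℝ) : ℝ := ∑ n ∈ Icc 1 ⌊3 * X⌋₊, Phi (n / X) * vonMangoldt n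

theorem EPhi_def' (X : ℝ) (Q c : ℕ) : EPhi X Q c =
    ∑ n ∈ (Icc 1 ⌊3 * X⌋₊).filter (fun n => n ≡ c [MOD Q]), Phi (n / X) * vonMangoldt n -
      (1 / (Q.totient : ℝ)) * LP X := rfl

theorem EPhi_congr (X : ℝ) (Q : ℕ) {c d : ℕ} (h : c ≡ d [MOD Q]) : EPhi X Q c = EPhi X Q d := by
  rw [EPhi_def', EPhi_def']
  congr 1
  apply Finset.sum_congr _ fun _ _ => rfl
  apply Finset.filter_congr
  intro n _
  exact ⟨fun h1 => h1.trans h, fun h1 => h1.trans h.symm⟩

theorem exists_bmax (X : ℝ) (W : ℕ) (hW : 1 ≤ W) : ∃ b : ℕ → ℕ,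
    (∀ q, 1 ≤ q → (b q).Coprime (W * q)) ∧
    ∀ q, 1 ≤ q → ∀ c : ℕ, c.Coprime (W * q) → |EPhi X (W * q) c| ≤ |EPhi X (W * q) (b q)| := by
  have h : ∀ q : ℕ, ∃ b : ℕ, 1 ≤ q → b.Coprime (W * q) ∧
      ∀ c : ℕ, c.Coprime (W * q) → |EPhi X (W * q) c| ≤ |EPhi X (W * q) b| := by
    intro q
    by_cases hq : 1 ≤ q
    · have hQ : 0 < W * q := Nat.mul_pos hW hq
      set S := (range (W * q)).filter (fun b => b.Coprime (W * q)) with hS
      have hmod : ∀ c : ℕ, c.Coprime (W * q) → c % (W * q) ∈ S := by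
        intro c hc
        rw [hS, Finset.mem_filter, Finset.mem_range]
        refine ⟨Nat.mod_lt _ hQ, ?_⟩
        have := (Nat.mod_modEq c (W * q)).gcd_eq
        unfold Nat.Coprime
        rw [this]
        exact hc
      have hne : S.Nonempty := ⟨1 % (W * q), hmod 1 (Nat.coprime_one_left _)⟩
      obtain ⟨b, hb, hmax⟩ := Finset.exists_max_image S (fun b => |EPhi X (W * q) b|) hne
      refine ⟨b, fun _ => ⟨(Finset.mem_filter.1 hb).2, fun c hc => ?_⟩⟩
      rw [EPhi_congr X (W * q) (Nat.mod_modEq c (W * q)).symm]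
      exact hmax _ (hmod c hc)
    · exact ⟨0, fun h => absurd h hq⟩
  choose b hb using h
  exact ⟨b, fun q hq => (hb q hq).1, fun q hq => (hb q hq).2⟩

/-- isolated primes: there is no other prime within distance `F` -/
def Iso (F n : ℕ) : Prop := ∀ m : ℕ, m.Prime → m ≠ n → (F:ℤ) < |(m:ℤ) - n|

/-- the covering statement -/
def CovS (L w Bd MM Lo : ℝ) (ps : ℕ) : Prop :=
  ∀ (κ : Type) [Fintype κ] [DecidableEq κ], (Fintype.card κ : ℝ) ≤ Bd →
    ∀ res : ℕ → κ → ℤ,
    (∀ p : ℕ, p.Prime → w < p → ∀ k l, k ≠ l → ¬ ((p : ℤ) ∣ res p k - res p l)) →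
    (∀ p : ℕ, p.Prime → w < p → ∀ k, ¬ ((p : ℤ) ∣ res p k)) →
    ∀ (𝒜 : Finset ℤ) (ω : ℤ → ℝ), (∀ a ∈ 𝒜, 0 ≤ ω a) → ∀ N : ℝ, 0 < N → ∀ Er : ℕ → ℝ,
    (∀ q, 0 ≤ Er q) →
    (∀ q : ℕ, (q:ℝ) ≤ Real.exp L → Squarefree q →
      (∀ p : ℕ, p.Prime → p ∣ q → w < (p:ℝ) ∧ p ≠ ps) → ∀ r : ℤ, IsCoprime r (q:ℤ) →
      |∑ a ∈ 𝒜 with (q:ℤ) ∣ a - r, ω a - N / (q.totient : ℝ)| ≤ Er q) →
    MM * ∑ q ∈ QS w (Real.exp L) ps, Er q ≤ N / 8 →
    3 / 8 * N ≤ (∑ a ∈ 𝒜 with (∀ k : κ, ∃ p : ℕ, p.Prime ∧ w < p ∧ (p : ℝ) ≤ Real.exp L ∧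
      (p : ℤ) ∣ a - res p k), ω a) * Lo

theorem Phi_nn (u : ℝ) : 0 ≤ Phi u := le_max_left _ _

theorem Phi_zero {u : ℝ} (h0 : 0 ≤ u) (h1 : u ≤ 1) : Phi u = 0 := by
  unfold Phi
  apply max_eq_left
  have : Real.log u ≤ 0 := Real.log_nonpos h0 h1
  rw [abs_of_nonpos (by linarith)]
  linarith

theorem cast_eq_iff {W : ℕ} [NeZero W] (b : ZMod W) (n c : ℕ) (hc : (c : ZMod W) = b) :
    (n : ZMod W) = b ↔ n ≡ c [MOD W] := by
  rw [← hc]
  exact ZMod.natCast_eq_natCast_iff n c W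

theorem class_cov (X : ℝ) (W ps F : ℕ) [NeZero W] (b : ZMod W) (L w Bd MM Lo : ℝ) (hX : 4 ≤ X)
    (hb : IsUnit b) (hK : ((KK W F b).card : ℝ) ≤ Bd) (hcov : CovS L w Bd MM Lo ps)
    (hLo : 0 ≤ Lo) (hFw : 2 * (F:ℝ) ≤ w) (hWw : ∀ p : ℕ, p.Prime → p ∣ W → (p:ℝ) ≤ w)
    (hXL : Real.exp L ≤ X - F) (hWX : ∀ p : ℕ, p.Prime → p ∣ W → (p:ℝ) ≤ X - F)
    (bm : ℕ → ℕ) (hbm : ∀ q, 1 ≤ q → ∀ c : ℕ, c.Coprime (W * q) →
      |EPhi X (W * q) c| ≤ |EPhi X (W * q) (bm q)|) (hS : 0 < LP X)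
    (hfin : MM * ∑ q ∈ QS w (Real.exp L) ps, |EPhi X (W * q) (bm q)| ≤
      (LP X / (W.totient : ℝ)) / 8) :
    3 / 8 * (LP X / (W.totient : ℝ)) ≤ (∑ n ∈ (Icc 1 ⌊3 * X⌋₊).filter (fun n : ℕ =>
      (n : ZMod W) = b ∧ X < n ∧ Iso F n), Phi (n / X) * vonMangoldt n) * Lo := by
  have hX0 : 0 < X := by linarith
  have hW0 : 0 < W := Nat.pos_of_ne_zero (NeZero.ne W)
  have hφ : (0:ℝ) < W.totient := by exact_mod_cast Nat.totient_pos.2 hW0
  set ω : ℤ → ℝ := fun a => Phi ((a:ℝ) / X) * vonMangoldt a.toNat with hω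
  have hωn : ∀ n : ℕ, ω (n:ℤ) = Phi (n / X) * vonMangoldt n := by
    intro n
    simp only [hω]
    rw [Int.toNat_natCast]
    push_cast
    rfl
  have hω0 : ∀ n : ℕ, 0 ≤ Phi (n / X) * vonMangoldt n := fun n =>
    mul_nonneg (Phi_nn _) ArithmeticFunction.vonMangoldt_nonneg
  set A₀ : Finset ℕ := (Icc 1 ⌊3 * X⌋₊).filter (fun n : ℕ => (n : ZMod W) = b) with hA₀
  set 𝒜 : Finset ℤ := A₀.map Nat.castEmbedding with h𝒜
  have hsum : ∀ (P : ℤ → Prop) [DecidablePred P], ∑ a ∈ 𝒜 with P a, ω a =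
      ∑ n ∈ A₀.filter (fun n : ℕ => P (n:ℤ)), Phi (n / X) * vonMangoldt n := by
    intro P _
    rw [h𝒜, Finset.filter_map, Finset.sum_map]
    apply Finset.sum_congr
    · apply Finset.filter_congr
      intro n _
      rfl
    · intro n _
      exact hωn n
  have hmain := hcov {k // k ∈ KK W F b} (by rw [Fintype.card_coe]; exact hK)
    (fun _ k => -(k:ℤ)) (by
      intro p hp hwp k l hkl hdvd
      have hk := (mem_KF.1 (mem_KK.1 k.2).1).2
      have hl := (mem_KF.1 (mem_KK.1 l.2).1).2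
      have h1 : -(k:ℤ) - -(l:ℤ) = (l:ℤ) - k := by ring
      rw [h1] at hdvd
      have h2 : (l:ℤ) - k ≠ 0 := by
        intro h
        apply hkl
        apply Subtype.ext
        linarith
      have h3 := Int.le_of_dvd (abs_pos.2 h2) ((dvd_abs _ _).2 hdvd)
      have h4 : |(l:ℤ) - k| ≤ 2 * F := by
        have := abs_sub (l:ℤ) k
        linarith
      have h5 : (p:ℤ) ≤ 2 * F := h3.trans h4
      have h6 : (p:ℝ) ≤ 2 * F := by exact_mod_cast h5
      linarith)
    (by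
      intro p hp hwp k hdvd
      have hk := mem_KF.1 (mem_KK.1 k.2).1
      have h3 := Int.le_of_dvd (abs_pos.2 (neg_ne_zero.2 hk.1)) ((dvd_abs _ _).2 hdvd)
      rw [abs_neg] at h3
      have h5 : (p:ℤ) ≤ F := h3.trans hk.2
      have h6 : (p:ℝ) ≤ F := by exact_mod_cast h5
      have h7 : (0:ℝ) ≤ F := Nat.cast_nonneg _
      linarith)
    𝒜 ω (by
      intro a ha
      rw [h𝒜, Finset.mem_map] at ha
      obtain ⟨n, _, rfl⟩ := ha
      have := hωn n
      change 0 ≤ ω (n:ℤ)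
      rw [this]
      exact hω0 n)
    (LP X / (W.totient : ℝ)) (by positivity) (fun q => |EPhi X (W * q) (bm q)|)
    (fun q => abs_nonneg _) (by
      intro q hq hsq hqp r hr
      have hq1 : 1 ≤ q := Nat.one_le_iff_ne_zero.2 hsq.ne_zero
      have hWq : W.Coprime q := by
        rw [Nat.coprime_iff_gcd_eq_one]
        by_contra hne
        obtain ⟨p, hp, hpd⟩ := Nat.exists_prime_and_dvd hne
        have h1 := hWw p hp (hpd.trans (Nat.gcd_dvd_left _ _))
        have h2 := (hqp p hp (hpd.trans (Nat.gcd_dvd_right _ _))).1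
        linarith
      have hq0 : (0:ℤ) < q := by exact_mod_cast hq1
      -- the class modulo `W q`
      set r' : ℕ := (r % q).toNat with hr'
      have hr'1 : (r' : ℤ) = r % q := Int.toNat_of_nonneg (Int.emod_nonneg _ hq0.ne')
      obtain ⟨c, hc1, hc2⟩ := Nat.chineseRemainder hWq b.val r'
      have hcb : (c : ZMod W) = b := by
        rw [(ZMod.natCast_eq_natCast_iff c b.val W).2 hc1, ZMod.natCast_zmod_val]
      have hcr : (q:ℤ) ∣ (c:ℤ) - r := by
        have h1 : (q:ℤ) ∣ (c:ℤ) - r' := by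
          have := (Nat.modEq_iff_dvd.1 hc2.symm)
          exact this
        have h2 : (q:ℤ) ∣ (r' : ℤ) - r := by
          rw [hr'1]
          have := Int.emod_add_mul_ediv r q
          refine ⟨-(r / q), ?_⟩
          linarith
        have := dvd_add h1 h2
        have e : (c:ℤ) - r' + ((r' : ℤ) - r) = c - r := by ring
        rwa [e] at this
      have hccop : c.Coprime (W * q) := by
        apply Nat.Coprime.mul_right
        · rw [← ZMod.isUnit_iff_coprime, hcb]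
          exact hb
        · rw [← Nat.isCoprime_iff_coprime]
          obtain ⟨t, ht⟩ := hcr
          have : (c:ℤ) = r + q * t := by linarith
          rw [this]
          exact (IsCoprime.add_mul_left_left_iff).2 hr
      refine le_trans (le_of_eq ?_) (hbm q hq1 c hccop)
      congr 1
      rw [hsum, EPhi_def', Nat.totient_mul hWq]
      congr 1
      · apply Finset.sum_congr _ fun _ _ => rfl
        ext n
        rw [hA₀, Finset.mem_filter, Finset.mem_filter, Finset.mem_filter,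
          ← Nat.modEq_and_modEq_iff_modEq_mul hWq, cast_eq_iff b n c hcb]
        have h3 : (q:ℤ) ∣ (n:ℤ) - r ↔ n ≡ c [MOD q] := by
          constructor
          · intro h
            have h4 := dvd_sub hcr h
            have e : (c:ℤ) - r - ((n:ℤ) - r) = c - n := by ring
            rw [e] at h4
            exact Nat.modEq_iff_dvd.2 h4
          · intro h
            have h4 := Nat.modEq_iff_dvd.1 h
            have h5 := dvd_sub hcr h4
            have e : (c:ℤ) - r - ((c:ℤ) - n) = n - r := by ring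
            rwa [e] at h5
        rw [h3]
        tauto
      · push_cast
        rw [div_div, one_div, div_eq_inv_mul])
    hfin
  refine hmain.trans ?_
  apply mul_le_mul_of_nonneg_right _ hLo
  rw [hsum, hA₀, Finset.filter_filter, Finset.sum_filter, Finset.sum_filter]
  apply Finset.sum_le_sum
  intro n hn
  by_cases h1 : (n : ZMod W) = b ∧ ∀ k : {k // k ∈ KK W F b}, ∃ p : ℕ, p.Prime ∧ w < p ∧
      (p : ℝ) ≤ Real.exp L ∧ (p : ℤ) ∣ (n:ℤ) - -(k:ℤ)
  · rw [if_pos h1]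
    by_cases hXn : X < n
    · rw [if_pos]
      refine ⟨h1.1, hXn, ?_⟩
      intro m hm hmn
      by_contra hcon
      push Not at hcon
      have hkF : (m:ℤ) - n ∈ KF F := by
        rw [mem_KF]
        refine ⟨?_, hcon⟩
        intro h0
        apply hmn
        have : (m:ℤ) = n := by linarith
        exact_mod_cast this
      have hmbig : X - F < m := by
        have h2 := (abs_le.1 hcon).1
        have h3 : (n:ℤ) - F ≤ m := by linarith
        have h4 : (n:ℝ) - F ≤ m := by exact_mod_cast h3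
        linarith
      by_cases hu : IsUnit (b + (((m:ℤ) - n : ℤ) : ZMod W))
      · obtain ⟨p, hp, _, hpL, hpd⟩ := h1.2 ⟨(m:ℤ) - n, mem_KK.2 ⟨hkF, hu⟩⟩
        have e : (n:ℤ) - -((m:ℤ) - n) = m := by ring
        simp only [e] at hpd
        have h2 : p ∣ m := by exact_mod_cast hpd
        have h3 : p = m := (Nat.prime_dvd_prime_iff_eq hp hm).1 h2
        rw [h3] at hpL
        linarith
      · have e : b + (((m:ℤ) - n : ℤ) : ZMod W) = (m : ZMod W) := by
          push_cast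
          rw [← h1.1]
          ring
        rw [e, ZMod.isUnit_iff_coprime, Nat.coprime_iff_gcd_eq_one] at hu
        obtain ⟨p, hp, hpd⟩ := Nat.exists_prime_and_dvd hu
        have h2 : p ∣ m := hpd.trans (Nat.gcd_dvd_left _ _)
        have h3 : p = m := (Nat.prime_dvd_prime_iff_eq hp hm).1 h2
        have h4 := hWX p hp (hpd.trans (Nat.gcd_dvd_right _ _))
        rw [h3] at h4
        linarith
    · have h2 : Phi (n / X) = 0 := by
        apply Phi_zero (by positivity)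
        rw [div_le_one hX0]
        exact not_lt.1 hXn
      rw [h2, zero_mul]
      split_ifs <;> exact le_rfl
  · rw [if_neg h1]
    split_ifs
    · exact hω0 n
    · exact le_rfl

/-- summing over the good classes -/
theorem sum_classes (X : ℝ) (W F : ℕ) [NeZero W] (G : Finset (ZMod W)) (V : ℝ)
    (h : ∀ b ∈ G, V ≤ ∑ n ∈ (Icc 1 ⌊3 * X⌋₊).filter (fun n : ℕ =>
      (n : ZMod W) = b ∧ X < n ∧ Iso F n), Phi (n / X) * vonMangoldt n) :
    (G.card : ℝ) * V ≤ ∑ n ∈ (Icc 1 ⌊3 * X⌋₊).filter (fun n : ℕ => X < n ∧ Iso F n),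
      Phi (n / X) * vonMangoldt n := by
  have hω0 : ∀ n : ℕ, 0 ≤ Phi (n / X) * vonMangoldt n := fun n =>
    mul_nonneg (Phi_nn _) ArithmeticFunction.vonMangoldt_nonneg
  calc (G.card : ℝ) * V = ∑ _b ∈ G, V := by rw [Finset.sum_const, nsmul_eq_mul]
    _ ≤ ∑ b ∈ G, ∑ n ∈ (Icc 1 ⌊3 * X⌋₊).filter (fun n : ℕ =>
        (n : ZMod W) = b ∧ X < n ∧ Iso F n), Phi (n / X) * vonMangoldt n := Finset.sum_le_sum h
    _ ≤ ∑ b : ZMod W, ∑ n ∈ (Icc 1 ⌊3 * X⌋₊).filter (fun n : ℕ =>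
        (n : ZMod W) = b ∧ X < n ∧ Iso F n), Phi (n / X) * vonMangoldt n := by
        apply Finset.sum_le_sum_of_subset_of_nonneg (Finset.subset_univ _)
        intro b _ _
        exact Finset.sum_nonneg fun n _ => hω0 n
    _ = _ := by
        rw [← Finset.sum_fiberwise (s := (Icc 1 ⌊3 * X⌋₊).filter (fun n : ℕ => X < n ∧ Iso F n))
          (g := fun n : ℕ => (n : ZMod W))]
        refine Finset.sum_congr rfl fun b _ => ?_
        apply Finset.sum_congr _ fun _ _ => rfl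
        rw [Finset.filter_filter]
        apply Finset.filter_congr
        intro n _
        tauto

theorem nonprime_sum (x : ℝ) (hx : 1 ≤ x) :
    ∑ n ∈ (Icc 1 ⌊x⌋₊).filter (fun n => ¬ n.Prime), vonMangoldt n ≤
      2 * Real.sqrt x * Real.log x := by
  have h1 := Chebyshev.psi_sub_theta_le hx
  have h2 := Chebyshev.psi_sub_theta_eq_sum_not_prime x
  rw [h2] at h1
  refine le_trans (le_of_eq ?_) h1
  apply Finset.sum_congr _ (fun _ _ => rfl)
  ext n
  simp [Finset.mem_filter, Finset.mem_Icc, Finset.mem_Ioc]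
  omega

theorem Phi_le1 (u : ℝ) : Phi u ≤ 1 := by
  unfold Phi
  apply max_le (by norm_num)
  linarith [abs_nonneg (Real.log u - 1 / 2)]

/-- from the weighted sum to the number of isolated primes -/
theorem count_iso (X : ℝ) (F : ℕ) (hX : 1 ≤ X) :
    ∑ n ∈ (Icc 1 ⌊3 * X⌋₊).filter (fun n : ℕ => X < n ∧ Iso F n),
      Phi (n / X) * vonMangoldt n ≤
    (((Icc 1 ⌊3 * X⌋₊).filter (fun n : ℕ => n.Prime ∧ X < n ∧ Iso F n)).card : ℝ) *
      Real.log (3 * X) + 2 * Real.sqrt (3 * X) * Real.log (3 * X) := by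
  have h0 : ∀ n : ℕ, Phi (n / X) * vonMangoldt n ≤ vonMangoldt n := by
    intro n
    have := mul_le_mul_of_nonneg_right (Phi_le1 ((n:ℝ) / X))
      (ArithmeticFunction.vonMangoldt_nonneg (n := n))
    linarith
  have h1 : ∑ n ∈ (Icc 1 ⌊3 * X⌋₊).filter (fun n : ℕ => X < n ∧ Iso F n),
      Phi (n / X) * vonMangoldt n ≤
      ∑ n ∈ (Icc 1 ⌊3 * X⌋₊).filter (fun n : ℕ => n.Prime ∧ X < n ∧ Iso F n), vonMangoldt n +
      ∑ n ∈ (Icc 1 ⌊3 * X⌋₊).filter (fun n => ¬ n.Prime), vonMangoldt n := by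
    rw [Finset.sum_filter, Finset.sum_filter, Finset.sum_filter, ← Finset.sum_add_distrib]
    apply Finset.sum_le_sum
    intro n _
    have h3 : 0 ≤ vonMangoldt n := ArithmeticFunction.vonMangoldt_nonneg
    have h4 := h0 n
    by_cases hn : n.Prime
    · by_cases h5 : X < n ∧ Iso F n
      · have e1 : n.Prime ∧ X < n ∧ Iso F n := ⟨hn, h5⟩
        rw [if_pos h5, if_pos e1, if_neg (not_not.2 hn), add_zero]
        exact h4
      · have e1 : ¬ (n.Prime ∧ X < n ∧ Iso F n) := fun h => h5 h.2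
        rw [if_neg h5, if_neg e1, if_neg (not_not.2 hn), add_zero]
    · have e1 : ¬ (n.Prime ∧ X < n ∧ Iso F n) := fun h => hn h.1
      rw [if_neg e1, if_pos hn, zero_add]
      by_cases h5 : X < n ∧ Iso F n
      · rw [if_pos h5]
        exact h4
      · rw [if_neg h5]
        exact h3
  have h2 : ∑ n ∈ (Icc 1 ⌊3 * X⌋₊).filter (fun n : ℕ => n.Prime ∧ X < n ∧ Iso F n),
      vonMangoldt n ≤
      (((Icc 1 ⌊3 * X⌋₊).filter (fun n : ℕ => n.Prime ∧ X < n ∧ Iso F n)).card : ℝ) *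
      Real.log (3 * X) := by
    calc ∑ n ∈ (Icc 1 ⌊3 * X⌋₊).filter (fun n : ℕ => n.Prime ∧ X < n ∧ Iso F n), vonMangoldt n
        ≤ ∑ _n ∈ (Icc 1 ⌊3 * X⌋₊).filter (fun n : ℕ => n.Prime ∧ X < n ∧ Iso F n),
          Real.log (3 * X) := by
          apply Finset.sum_le_sum
          intro n hn
          rw [Finset.mem_filter, Finset.mem_Icc] at hn
          refine ArithmeticFunction.vonMangoldt_le_log.trans ?_
          apply Real.log_le_log
          · have : 0 < n := hn.1.1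
            exact_mod_cast this
          · exact (Nat.le_floor_iff (by linarith)).1 hn.1.2
      _ = _ := by rw [Finset.sum_const, nsmul_eq_mul]
  have h3 := nonprime_sum (3 * X) (by linarith)
  linarith

end Pool.Agent.K4H19.FQ
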