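import Pool.Agent.K4H19.FQ.BV2

set_option autoImplicit false
set_option linter.unusedVariables false

/-! # Asymptotic inequalities -/

namespace Pool.Agent.K4H19.FQ

open Finset Filter
open Pool.Agent.H378R2 (Phi)

theorem Phi_mid' {u : ℝ} (h1 : 11 / 10 ≤ u) (h2 : u ≤ 5 / 2) : 1 / 20 ≤ Phi u := by
  have hl1 : 1 / 20 ≤ Real.log u := by
    have h3 := Real.one_sub_inv_le_log_of_pos (by linarith : 0 < u)
    have h4 : u⁻¹ ≤ 10 / 11 := (inv_anti₀ (by norm_num) h1).trans (by norm_num)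
    linarith
  have hl2 : Real.log u ≤ 19 / 20 := by
    have h3 := Real.log_le_log (by linarith) h2
    have h4 : Real.log (5 / 2) = Real.log 2 + Real.log (5 / 4) := by
      rw [← Real.log_mul (by norm_num) (by norm_num)]; norm_num
    have h5 : Real.log (5 / 4) ≤ 1 / 4 := by
      have := Real.log_le_sub_one_of_pos (by norm_num : (0 : ℝ) < 5 / 4)
      linarith
    have := Real.log_two_lt_d9
    linarith
  unfold Phi
  apply le_max_of_le_right
  have : |Real.log u - 1 / 2| ≤ 9 / 20 := by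
    rw [abs_le]; constructor <;> linarith
  linarith

theorem LP_ge : ∀ᶠ X : ℝ in atTop, X / 200 ≤
    ∑ n ∈ Icc 1 ⌊3 * X⌋₊, Phi (n / X) * ArithmeticFunction.vonMangoldt n := by
  have h1 : ∀ᶠ X : ℝ in atTop, Real.log (5 / 2 * X + 2) + 2 * Real.sqrt (11 / 10 * X) * Real.log (11 / 10 * X) + 1 ≤ X / 20 := by
    have e1 : (fun X : ℝ => Real.log X) =o[atTop] (fun X : ℝ => X ^ (1 / 4 : ℝ)) := isLittleO_log_rpow_atTop (by norm_num)
    filter_upwards [e1.def (by norm_num : (0 : ℝ) < 1), eventually_ge_atTop (10 ^ 12 : ℝ)] with X h2 h3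
    rw [one_mul, Real.norm_of_nonneg (Real.log_nonneg (by linarith)), Real.norm_of_nonneg (Real.rpow_nonneg (by linarith) _)] at h2
    set q := X ^ (1 / 4 : ℝ) with hq
    have hq4 : q ^ 4 = X := by
      rw [hq, ← Real.rpow_natCast, ← Real.rpow_mul (by linarith)]; norm_num
    have hqn : 0 ≤ q := Real.rpow_nonneg (by linarith) _
    have hq2 : Real.sqrt X = q ^ 2 := by
      rw [Real.sqrt_eq_iff_mul_self_eq (by linarith) (by positivity)]
      rw [← hq4]; ring
    have hq1000 : 1000 ≤ q := by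
      by_contra h
      push Not at h
      have : q ^ 4 < 1000 ^ 4 := pow_lt_pow_left₀ h hqn (by norm_num)
      rw [hq4] at this
      linarith
    have e2 : Real.log (5 / 2 * X + 2) ≤ 2 + q := by
      have : 5 / 2 * X + 2 ≤ 3 * X := by linarith
      have h4 := Real.log_le_log (by linarith) this
      rw [Real.log_mul (by norm_num) (by linarith)] at h4
      have : Real.log 3 ≤ 2 := by
        have := Real.log_le_sub_one_of_pos (by norm_num : (0 : ℝ) < 3)
        linarith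
      linarith
    have e3 : Real.sqrt (11 / 10 * X) ≤ 2 * q ^ 2 := by
      rw [← hq2]
      rw [Real.sqrt_le_left (by positivity), mul_pow, Real.sq_sqrt (by linarith)]
      linarith
    have e4 : Real.log (11 / 10 * X) ≤ 1 + q := by
      rw [Real.log_mul (by norm_num) (by linarith)]
      have := Real.log_le_sub_one_of_pos (by norm_num : (0 : ℝ) < 11 / 10)
      linarith
    have e5 : 0 ≤ Real.log (11 / 10 * X) := Real.log_nonneg (by linarith)
    have e6 : 2 * Real.sqrt (11 / 10 * X) * Real.log (11 / 10 * X) ≤ 2 * (2 * q ^ 2) * (1 + q) := by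
      gcongr
    have e7 : 2 + q + 2 * (2 * q ^ 2) * (1 + q) + 1 ≤ q ^ 4 / 20 := by
      have : q ^ 4 = q * (q * (q * q)) := by ring
      have hqq : 1000 * (q * q) ≤ q * (q * q) := by nlinarith [mul_nonneg hqn hqn]
      nlinarith [mul_nonneg hqn hqn, mul_nonneg hqn (mul_nonneg hqn hqn)]
    rw [← hq4]
    rw [← hq4] at e2 e6
    linarith
  filter_upwards [h1, eventually_ge_atTop 10] with X h2 h3
  have h4 := Chebyshev.psi_ge' (x := 5 / 2 * X) (by linarith)
  have h5 := Chebyshev.psi_le (x := 11 / 10 * X) (by linarith)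
  have hl4 : Real.log 4 = 2 * Real.log 2 := by
    rw [show (4 : ℝ) = 2 ^ 2 by norm_num, Real.log_pow]; norm_num
  have hdiff : X / 10 ≤ Chebyshev.psi (5 / 2 * X) - Chebyshev.psi (11 / 10 * X) := by
    have := Real.log_two_gt_d9
    have := Real.log_two_lt_d9
    rw [hl4] at h5
    nlinarith
  have hsum : Chebyshev.psi (5 / 2 * X) - Chebyshev.psi (11 / 10 * X) =
      ∑ n ∈ Ioc ⌊11 / 10 * X⌋₊ ⌊5 / 2 * X⌋₊, ArithmeticFunction.vonMangoldt n := by
    unfold Chebyshev.psi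
    rw [sub_eq_iff_eq_add, add_comm]
    have hd : Ioc 0 ⌊5 / 2 * X⌋₊ = Ioc 0 ⌊11 / 10 * X⌋₊ ∪ Ioc ⌊11 / 10 * X⌋₊ ⌊5 / 2 * X⌋₊ := by
      rw [Finset.Ioc_union_Ioc_eq_Ioc (Nat.zero_le _) (Nat.floor_le_floor (by linarith))]
    rw [hd, Finset.sum_union]
    rw [Finset.disjoint_left]
    intro n
    simp only [Finset.mem_Ioc]
    omega
  have h6 : ∑ n ∈ Ioc ⌊11 / 10 * X⌋₊ ⌊5 / 2 * X⌋₊, Phi (n / X) * ArithmeticFunction.vonMangoldt n ≤
      ∑ n ∈ Icc 1 ⌊3 * X⌋₊, Phi (n / X) * ArithmeticFunction.vonMangoldt n := by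
    apply Finset.sum_le_sum_of_subset_of_nonneg
    · intro n hn
      rw [Finset.mem_Ioc] at hn
      rw [Finset.mem_Icc]
      refine ⟨by omega, hn.2.trans (Nat.floor_le_floor (by linarith))⟩
    · intro n _ _
      exact mul_nonneg (le_max_left _ _) ArithmeticFunction.vonMangoldt_nonneg
  refine le_trans ?_ h6
  have h7 : ∀ n ∈ Ioc ⌊11 / 10 * X⌋₊ ⌊5 / 2 * X⌋₊, (1 / 20) * ArithmeticFunction.vonMangoldt n ≤
      Phi (n / X) * ArithmeticFunction.vonMangoldt n := by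
    intro n hn
    rw [Finset.mem_Ioc] at hn
    apply mul_le_mul_of_nonneg_right _ ArithmeticFunction.vonMangoldt_nonneg
    apply Phi_mid'
    · rw [le_div_iff₀ (by linarith)]
      exact ((Nat.floor_lt (by linarith)).1 hn.1).le
    · rw [div_le_iff₀ (by linarith)]
      exact (Nat.le_floor_iff (by linarith)).1 hn.2
  have h8 := Finset.sum_le_sum h7
  rw [← Finset.mul_sum, ← hsum] at h8
  linarith

theorem ev_a : ∀ᶠ t : ℝ in atTop, 1000 * (t ^ (1 / 100 : ℝ) * (Real.log t) ^ 3) + 8 ≤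
    t ^ (1 / 40 : ℝ) := by
  have h := (isLittleO_log_rpow_rpow_atTop 3 (show (0:ℝ) < 3 / 200 by norm_num)).def
    (show (0:ℝ) < 1 / 2000 by norm_num)
  have h2 : Tendsto (fun t : ℝ => t ^ (1 / 40 : ℝ)) atTop atTop :=
    tendsto_rpow_atTop (by norm_num)
  filter_upwards [h, eventually_ge_atTop (1:ℝ), h2.eventually_ge_atTop 16] with t ht ht1 ht2
  rw [Real.norm_of_nonneg (Real.rpow_nonneg (Real.log_nonneg ht1) _),
    Real.norm_of_nonneg (Real.rpow_nonneg (by linarith) _)] at ht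
  have e0 : (Real.log t) ^ (3:ℝ) = (Real.log t) ^ (3:ℕ) := by
    have := Real.rpow_natCast (Real.log t) 3
    push_cast at this
    exact this
  rw [e0] at ht
  have e1 : t ^ (1 / 100 : ℝ) * t ^ (3 / 200 : ℝ) = t ^ (1 / 40 : ℝ) := by
    rw [← Real.rpow_add (by linarith)]
    norm_num
  have e2 : 0 ≤ t ^ (1 / 100 : ℝ) := Real.rpow_nonneg (by linarith) _
  have e3 := mul_le_mul_of_nonneg_left ht e2
  have e4 : t ^ (1 / 100 : ℝ) * (1 / 2000 * t ^ (3 / 200 : ℝ)) = 1 / 2000 * t ^ (1 / 40 : ℝ) := by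
    rw [← e1]; ring
  rw [e4] at e3
  linarith

theorem ev_b (c : ℝ) (hc : 0 ≤ c) : ∀ᶠ t : ℝ in atTop, 2 * (c * (Real.log t * t)) ≤
    (t / 100) ^ (9 / 8 : ℝ) := by
  have h := (isLittleO_log_rpow_atTop (show (0:ℝ) < 1 / 8 by norm_num)).def
    (show (0:ℝ) < 1 / (20000 * (c + 1)) by positivity)
  filter_upwards [h, eventually_ge_atTop (100:ℝ)] with t ht ht1
  rw [Real.norm_of_nonneg (Real.log_nonneg (by linarith)),
    Real.norm_of_nonneg (Real.rpow_nonneg (by linarith) _)] at ht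
  have ht0 : 0 < t := by linarith
  have e1 : (t / 100) ^ (9 / 8 : ℝ) = t ^ (9 / 8 : ℝ) / 100 ^ (9 / 8 : ℝ) :=
    Real.div_rpow ht0.le (by norm_num) _
  have e2 : (100:ℝ) ^ (9 / 8 : ℝ) ≤ 10000 := by
    calc (100:ℝ) ^ (9 / 8 : ℝ) ≤ 100 ^ (2:ℝ) :=
          Real.rpow_le_rpow_of_exponent_le (by norm_num) (by norm_num)
      _ = 10000 := by norm_num
  have e3 : (0:ℝ) < 100 ^ (9 / 8 : ℝ) := by positivity
  have e4 : t ^ (9 / 8 : ℝ) = t ^ (1 / 8 : ℝ) * t := by
    conv_rhs => rw [← Real.rpow_one t]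
    rw [← Real.rpow_mul ht0.le, ← Real.rpow_add ht0]
    norm_num
  rw [e1, le_div_iff₀ e3, e4]
  have e5 : 20000 * (c + 1) * Real.log t ≤ t ^ (1 / 8 : ℝ) := by
    have := mul_le_mul_of_nonneg_left ht (show 0 ≤ 20000 * (c + 1) by positivity)
    have e6 : 20000 * (c + 1) * (1 / (20000 * (c + 1)) * t ^ (1 / 8 : ℝ)) = t ^ (1 / 8 : ℝ) := by
      field_simp
    linarith
  have hl : 0 ≤ Real.log t := Real.log_nonneg (by linarith)
  have e6 : 20000 * (c * Real.log t) ≤ t ^ (1 / 8 : ℝ) := by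
    have : 0 ≤ 20000 * Real.log t := by positivity
    nlinarith
  calc 2 * (c * (Real.log t * t)) * 100 ^ (9 / 8 : ℝ)
      ≤ 2 * (c * (Real.log t * t)) * 10000 := mul_le_mul_of_nonneg_left e2 (by positivity)
    _ = 20000 * (c * Real.log t) * t := by ring
    _ ≤ t ^ (1 / 8 : ℝ) * t := mul_le_mul_of_nonneg_right e6 ht0.le

theorem ev_c : ∀ᶠ t : ℝ in atTop, t ^ (1 / 20 : ℝ) ≤ (t / 100) ^ (1 / 4 : ℝ) := by
  have h2 : Tendsto (fun t : ℝ => t ^ (1 / 5 : ℝ)) atTop atTop :=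
    tendsto_rpow_atTop (by norm_num)
  filter_upwards [h2.eventually_ge_atTop 100, eventually_ge_atTop (100:ℝ)] with t ht ht1
  have ht0 : 0 < t := by linarith
  have e1 : (t / 100) ^ (1 / 4 : ℝ) = t ^ (1 / 4 : ℝ) / 100 ^ (1 / 4 : ℝ) :=
    Real.div_rpow ht0.le (by norm_num) _
  have e2 : (100:ℝ) ^ (1 / 4 : ℝ) ≤ 100 := by
    calc (100:ℝ) ^ (1 / 4 : ℝ) ≤ 100 ^ (1:ℝ) :=
          Real.rpow_le_rpow_of_exponent_le (by norm_num) (by norm_num)
      _ = 100 := Real.rpow_one _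
  have e3 : (0:ℝ) < 100 ^ (1 / 4 : ℝ) := by positivity
  have e4 : t ^ (1 / 4 : ℝ) = t ^ (1 / 20 : ℝ) * t ^ (1 / 5 : ℝ) := by
    rw [← Real.rpow_add ht0]
    norm_num
  rw [e1, le_div_iff₀ e3, e4]
  apply mul_le_mul_of_nonneg_left (e2.trans ht)
  positivity

theorem ev_d : ∀ᶠ t : ℝ in atTop, (Real.log t) ^ 2 * t ^ (1 / 200 : ℝ) ≤ t ^ (1 / 2 : ℝ) := by
  have h := (isLittleO_log_rpow_rpow_atTop 2 (show (0:ℝ) < 99 / 200 by norm_num)).def
    (show (0:ℝ) < 1 by norm_num)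
  filter_upwards [h, eventually_ge_atTop (1:ℝ)] with t ht ht1
  rw [Real.norm_of_nonneg (Real.rpow_nonneg (Real.log_nonneg ht1) _),
    Real.norm_of_nonneg (Real.rpow_nonneg (by linarith) _), one_mul] at ht
  have e0 : (Real.log t) ^ (2:ℝ) = (Real.log t) ^ (2:ℕ) := by
    have := Real.rpow_natCast (Real.log t) 2
    push_cast at this
    exact this
  rw [e0] at ht
  have e1 : t ^ (99 / 200 : ℝ) * t ^ (1 / 200 : ℝ) = t ^ (1 / 2 : ℝ) := by
    rw [← Real.rpow_add (by linarith)]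
    norm_num
  rw [← e1]
  exact mul_le_mul_of_nonneg_right ht (Real.rpow_nonneg (by linarith) _)

theorem ev_e' (c : ℝ) (hc : 0 ≤ c) : ∀ᶠ t : ℝ in atTop,
    Real.exp (t / 100) + c * (Real.log t * t) + t ≤ Real.exp t ∧
    25600 * t ≤ Real.exp (t / 4) := by
  have h1 := (Real.isLittleO_pow_exp_atTop (n := 2)).def (show (0:ℝ) < 1 / (4 * (c + 1)) by positivity)
  have h2 := (Real.isLittleO_pow_exp_atTop (n := 1)).def
    (show (0:ℝ) < 1 / 102400 by norm_num)
  have h3 : ∀ᶠ t : ℝ in atTop, 25600 * t ≤ Real.exp (t / 4) := by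
    have h4 : Tendsto (fun t : ℝ => t / 4) atTop atTop := tendsto_id.atTop_div_const (by norm_num)
    filter_upwards [h4.eventually h2, eventually_ge_atTop (0:ℝ)] with t ht ht0
    rw [Real.norm_of_nonneg (by positivity), Real.norm_of_nonneg (Real.exp_pos _).le,
      pow_one] at ht
    linarith
  filter_upwards [h1, h3, eventually_ge_atTop (4:ℝ)] with t ht ht3 ht4
  refine ⟨?_, ht3⟩
  rw [Real.norm_of_nonneg (by positivity), Real.norm_of_nonneg (Real.exp_pos _).le] at ht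
  have ht0 : 0 < t := by linarith
  have hl : Real.log t ≤ t := (Real.log_le_sub_one_of_pos ht0).trans (by linarith)
  have e1 : c * (Real.log t * t) ≤ c * t ^ 2 := by
    apply mul_le_mul_of_nonneg_left _ hc
    nlinarith
  have e2 : (c + 1) * t ^ 2 ≤ Real.exp t / 4 := by
    have := mul_le_mul_of_nonneg_left ht (show 0 ≤ c + 1 by linarith)
    have e3 : (c + 1) * (1 / (4 * (c + 1)) * Real.exp t) = Real.exp t / 4 := by
      field_simp
    linarith
  have e3 : Real.exp (t / 100) ≤ Real.exp t / 2 := by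
    have h5 : Real.exp t = Real.exp (t / 100) * Real.exp (99 * t / 100) := by
      rw [← Real.exp_add]; congr 1; ring
    have h6 : 2 ≤ Real.exp (99 * t / 100) := by
      have := Real.add_one_le_exp (99 * t / 100)
      linarith
    have h7 := Real.exp_pos (t / 100)
    rw [h5]
    nlinarith
  have e4 : t ≤ t ^ 2 := by nlinarith
  nlinarith

end Pool.Agent.K4H19.FQ
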