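import Pool.Agent.K4H19.FQ.App1
import Pool.Agent.K4H19.FQ.Ev

set_option autoImplicit false
set_option linter.unusedVariables false

/-! # Isolated primes with a uniform frequency -/

namespace Pool.Agent.K4H19.FQ

open Finset Filter
open Pool.Agent.H378R2 (Phi EPhi GoodS GoodP yy PW z2)
open ArithmeticFunction (vonMangoldt)

open scoped Classical

theorem PW_prod (X : ℝ) (S : Finset ℕ) (ps : ℕ) (hP : GoodP 2 ps) (hS : GoodS X S)
    (hl : 12 ≤ (Real.log (Real.log X)) ^ 2) :
    ∏ p ∈ PW X S ps, (1 - 1 / (p:ℝ)) ≤ 4 * Pool.Agent.Y831.RC.WW (yy X) := by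
  set A : Finset ℕ := (Icc 1 (yy X)).filter Nat.Prime with hA
  have hWW : Pool.Agent.Y831.RC.WW (yy X) = ∏ p ∈ A, (1 - 1 / (p:ℝ)) := by
    unfold Pool.Agent.Y831.RC.WW
    rw [Nat.floor_natCast]
  have hf0 : ∀ p : ℕ, p.Prime → 1 / 2 ≤ 1 - 1 / (p:ℝ) := by
    intro p hp
    have h2 : (2:ℝ) ≤ p := by exact_mod_cast hp.two_le
    have : 1 / (p:ℝ) ≤ 1 / 2 := one_div_le_one_div_of_le (by norm_num) h2
    linarith
  have hsub : PW X S ps ⊆ A := by
    intro p hp
    unfold PW at hp
    rw [Finset.mem_filter] at hp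
    rw [hA, Finset.mem_filter]
    exact ⟨hp.1, hp.2.1⟩
  have hAp : ∀ p ∈ A, p.Prime := fun p hp => (Finset.mem_filter.1 hp).2
  set T : Finset ℕ := A \ PW X S ps with hT
  have h1 : ∏ p ∈ A, (1 - 1 / (p:ℝ)) = (∏ p ∈ T, (1 - 1 / (p:ℝ))) *
      ∏ p ∈ PW X S ps, (1 - 1 / (p:ℝ)) := by
    rw [hT, Finset.prod_sdiff hsub]
  have hTp : ∀ p ∈ T, p.Prime := fun p hp => hAp p (Finset.mem_sdiff.1 hp).1
  have hTS : ∀ p ∈ T, p ∈ S ∨ p = ps := by
    intro p hp
    rw [hT, Finset.mem_sdiff] at hp
    by_contra hc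
    push Not at hc
    apply hp.2
    unfold PW
    rw [Finset.mem_filter]
    have := Finset.mem_filter.1 (hA ▸ hp.1)
    exact ⟨this.1, this.2, hc.1, hc.2⟩
  have h2 : 1 / 4 ≤ ∏ p ∈ T, (1 - 1 / (p:ℝ)) := by
    have h3 : ∏ p ∈ T, (1 - 1 / (p:ℝ)) = (∏ p ∈ T.filter (fun p => p ∈ S), (1 - 1 / (p:ℝ))) *
        ∏ p ∈ T.filter (fun p => ¬ p ∈ S), (1 - 1 / (p:ℝ)) := by
      rw [Finset.prod_filter_mul_prod_filter_not]
    have h4 : 1 / 2 ≤ ∏ p ∈ T.filter (fun p => p ∈ S), (1 - 1 / (p:ℝ)) := by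
      have h5 := Pool.Agent.H256R2.SC.prod_ge_one_sub_sum (T.filter (fun p => p ∈ S))
        (fun p : ℕ => 1 / (p:ℝ)) (fun p => by positivity) (fun p => by
          rcases Nat.eq_zero_or_pos p with h0 | h0
          · rw [h0]; simp
          · rw [div_le_one (by exact_mod_cast h0)]
            exact_mod_cast h0)
      refine le_trans ?_ h5
      have h6 : ∑ p ∈ T.filter (fun p => p ∈ S), 1 / (p:ℝ) ≤ 1 / 2 := by
        calc ∑ p ∈ T.filter (fun p => p ∈ S), 1 / (p:ℝ) ≤ ∑ p ∈ S, 1 / (p:ℝ) := by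
              apply Finset.sum_le_sum_of_subset_of_nonneg
              · intro p hp
                exact (Finset.mem_filter.1 hp).2
              · intro p _ _
                positivity
          _ ≤ 6 / (Real.log (Real.log X)) ^ 2 := hS.2
          _ ≤ 1 / 2 := by
              rw [div_le_div_iff₀ (by linarith) (by norm_num)]
              linarith
      linarith
    have h5 : 1 / 2 ≤ ∏ p ∈ T.filter (fun p => ¬ p ∈ S), (1 - 1 / (p:ℝ)) := by
      have h6 : T.filter (fun p => ¬ p ∈ S) ⊆ {ps} := by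
        intro p hp
        rw [Finset.mem_filter] at hp
        rw [Finset.mem_singleton]
        rcases hTS p hp.1 with h | h
        · exact absurd h hp.2
        · exact h
      rcases Finset.subset_singleton_iff.1 h6 with h7 | h7
      · rw [h7, Finset.prod_empty]
        norm_num
      · rw [h7, Finset.prod_singleton]
        apply hf0
        have : ps ∈ T.filter (fun p => ¬ p ∈ S) := by rw [h7]; exact Finset.mem_singleton_self _
        exact hTp ps (Finset.mem_filter.1 this).1
    rw [h3]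
    nlinarith
  have h3 : 0 ≤ ∏ p ∈ PW X S ps, (1 - 1 / (p:ℝ)) :=
    Finset.prod_nonneg fun p hp => by linarith [hf0 p (hAp p (hsub hp))]
  rw [hWW, h1]
  nlinarith

theorem cov6S : ∃ c₂ e₀ L₀ : ℝ, 0 < c₂ ∧ 1 ≤ e₀ ∧ 3 ≤ L₀ ∧ ∀ L : ℝ, L₀ ≤ L →
    ∀ e : ℝ, e₀ ≤ e → e ≤ (1 / 2) * Real.log L →
    ∀ ps : ℕ, Real.log ps ≤ L ^ (1 / 4 : ℝ) →
    CovS L (L ^ (9 / 8 : ℝ)) (c₂ * (e * L / Real.log L))
      (Real.exp (1000 * (Real.exp (2 * e) * (Real.log L) ^ 3)))
      (Real.exp (e ^ 2 * Real.exp e)) ps := by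
  obtain ⟨c₂, e₀, L₀, h1, h2, h3, h4⟩ := cov6
  refine ⟨c₂, e₀, L₀, h1, h2, h3, ?_⟩
  intro L hL e he heu ps hps κ _ _ hκ res hres hres0 𝒜 ω hω N hN Er hEr hcnt hfin
  exact h4 L hL e he heu ps hps κ hκ res hres hres0 𝒜 ω hω N hN Er hEr hcnt hfin

/-- the main analytic theorem -/
theorem main_iso : ∃ c₅ e₀ X₀ : ℝ, 0 < c₅ ∧ 1 ≤ e₀ ∧ 3 ≤ X₀ ∧ ∀ X : ℝ, X₀ ≤ X →
    ∀ e : ℝ, e₀ ≤ e → e ≤ (1 / 200) * Real.log (Real.log X) →
    X / (3200 * Real.log X) * Real.exp (-(e ^ 2 * Real.exp e)) ≤
      (((Icc 1 ⌊3 * X⌋₊).filter (fun n : ℕ => n.Prime ∧ X < n ∧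
        Iso ⌊c₅ * (e * Real.log X)⌋₊ n)).card : ℝ) := by
  obtain ⟨c₂, e₀, L₀, hc₂, he₀, hL₀, hcov⟩ := cov6S
  obtain ⟨c, C, hc, hcC, hWb⟩ := Pool.Agent.Y831.RC.WW_bounds
  have hC : 0 < C := hc.trans_le hcC
  obtain ⟨X₁, hX₁⟩ := bv_strong 2
  set c₅ : ℝ := c₂ / (9600 * C) with hc₅
  have hc₅0 : 0 < c₅ := by positivity
  have hlog := Real.tendsto_log_atTop
  have hll : Tendsto (fun X : ℝ => Real.log (Real.log X)) atTop atTop := hlog.comp hlog
  have ev : ∀ᶠ X : ℝ in atTop, ∀ e : ℝ, e₀ ≤ e → e ≤ (1 / 200) * Real.log (Real.log X) →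
    X / (3200 * Real.log X) * Real.exp (-(e ^ 2 * Real.exp e)) ≤
      (((Icc 1 ⌊3 * X⌋₊).filter (fun n : ℕ => n.Prime ∧ X < n ∧
        Iso ⌊c₅ * (e * Real.log X)⌋₊ n)).card : ℝ) := by
    filter_upwards [eventually_ge_atTop X₁, eventually_ge_atTop (4:ℝ), LP_ge,
      hlog.eventually ev_a, hlog.eventually (ev_b c₅ hc₅0.le), hlog.eventually ev_c,
      hlog.eventually ev_d, hlog.eventually (ev_e' c₅ hc₅0.le),
      hlog.eventually_ge_atTop (100 * L₀ + 40000), hll.eventually_ge_atTop 10] with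
      X g1 g2 g3 g4 g5 g6 g7 g8 g9 g10
    intro e he heu
    obtain ⟨g8a, g8b⟩ := g8
    obtain ⟨ps, S, hP, hps, hS, hbv⟩ := hX₁ X g1
    set t : ℝ := Real.log X with ht
    set l : ℝ := Real.log t with hl
    set L : ℝ := t / 100 with hL
    have hX0 : 0 < X := by linarith
    have hXt : Real.exp t = X := Real.exp_log hX0
    have ht0 : 40000 ≤ t := by linarith
    have htpos : 0 < t := by linarith
    have hL400 : 400 ≤ L := by rw [hL]; linarith
    have hLpos : 0 < L := by linarith
    have hLL₀ : L₀ ≤ L := by rw [hL]; linarith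
    have hel : 1 ≤ e := he₀.trans he
    have he0 : 0 < e := by linarith
    -- logarithm of `L`
    have hlogL : Real.log L = l - Real.log 100 := by
      rw [hL, Real.log_div htpos.ne' (by norm_num)]
    have hlog100 : Real.log 100 ≤ 5 := by
      rw [Real.log_le_iff_le_exp (by norm_num)]
      have e1 := Real.exp_one_gt_d9
      have e2 : Real.exp 5 = Real.exp 1 * Real.exp 1 * Real.exp 1 * Real.exp 1 * Real.exp 1 := by
        rw [← Real.exp_add, ← Real.exp_add, ← Real.exp_add, ← Real.exp_add]; norm_num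
      have e3 : (27/10) ≤ Real.exp 1 := by linarith
      have e4 : (27/10:ℝ) * (27/10) ≤ Real.exp 1 * Real.exp 1 :=
        mul_le_mul e3 e3 (by norm_num) (by linarith)
      have e5 : (27/10:ℝ) * (27/10) * (27/10) ≤ Real.exp 1 * Real.exp 1 * Real.exp 1 :=
        mul_le_mul e4 e3 (by norm_num) (by positivity)
      have e6 : (27/10:ℝ) * (27/10) * (27/10) * (27/10) ≤
          Real.exp 1 * Real.exp 1 * Real.exp 1 * Real.exp 1 :=
        mul_le_mul e5 e3 (by norm_num) (by positivity)
      have e7 : (27/10:ℝ) * (27/10) * (27/10) * (27/10) * (27/10) ≤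
          Real.exp 1 * Real.exp 1 * Real.exp 1 * Real.exp 1 * Real.exp 1 :=
        mul_le_mul e6 e3 (by norm_num) (by positivity)
      rw [e2]
      linarith
    have hlog100' : 0 ≤ Real.log 100 := Real.log_nonneg (by norm_num)
    have hlogL1 : l / 2 ≤ Real.log L := by rw [hlogL]; linarith
    have hlogL2 : Real.log L ≤ l := by rw [hlogL]; linarith
    have hlogLpos : 0 < Real.log L := by linarith
    have heL : e ≤ (1 / 2) * Real.log L := by linarith
    -- the exceptional prime
    have hpsL : Real.log ps ≤ L ^ (1 / 4 : ℝ) := by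
      have h1 : Real.log ps ≤ tt X := by
        rcases Nat.eq_zero_or_pos ps with h0 | h0
        · rw [h0]
          simp only [Nat.cast_zero, Real.log_zero]
          unfold tt
          positivity
        · have h1 : (0:ℝ) < ps := by exact_mod_cast h0
          rw [Real.log_le_iff_le_exp h1]
          exact hps
      refine h1.trans ?_
      unfold tt
      exact g6
    have hcovX := hcov L hLL₀ e he heL ps hpsL
    -- the modulus
    set P : Finset ℕ := PW X S ps with hPdef
    have hPprime : ∀ p ∈ P, p.Prime := by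
      intro p hp
      rw [hPdef] at hp
      unfold PW at hp
      rw [Finset.mem_filter] at hp
      exact hp.2.1
    have hPle : ∀ p ∈ P, (p:ℝ) ≤ t / 1000 := by
      intro p hp
      rw [hPdef] at hp
      unfold PW at hp
      rw [Finset.mem_filter, Finset.mem_Icc] at hp
      have h1 : (p:ℝ) ≤ (yy X : ℝ) := by exact_mod_cast hp.1.2
      have h2 : (yy X : ℝ) ≤ t / 1000 := Nat.floor_le (by positivity)
      exact h1.trans h2
    set W : ℕ := ∏ p ∈ P, p with hW
    have hWpos : 0 < W := Finset.prod_pos fun p hp => (hPprime p hp).pos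
    have : NeZero W := ⟨hWpos.ne'⟩
    have hWWe : Pool.Agent.H378R2.WW X S ps = W := rfl
    have hpW : ∀ p : ℕ, p.Prime → p ∣ W → p ∈ P := by
      intro p hp hpd
      obtain ⟨q, hq, hpq⟩ := (Prime.dvd_finsetProd_iff hp.prime _).mp hpd
      have := (Nat.prime_dvd_prime_iff_eq hp (hPprime q hq)).1 hpq
      rw [this]
      exact hq
    have hWle : ∀ p : ℕ, p.Prime → p ∣ W → (p:ℝ) ≤ t / 1000 := fun p hp hpd =>
      hPle p (hpW p hp hpd)
    -- the window
    set F : ℕ := ⌊c₅ * (e * t)⌋₊ with hF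
    have hF1 : (F:ℝ) ≤ c₅ * (e * t) := Nat.floor_le (by positivity)
    have hF2 : (F:ℝ) ≤ c₅ * (l * t) := by
      refine hF1.trans ?_
      apply mul_le_mul_of_nonneg_left _ hc₅0.le
      apply mul_le_mul_of_nonneg_right _ htpos.le
      linarith
    set w : ℝ := L ^ (9 / 8 : ℝ) with hw
    have hwL : L ≤ w := by
      calc L = L ^ (1:ℝ) := (Real.rpow_one L).symm
        _ ≤ L ^ (9 / 8 : ℝ) := Real.rpow_le_rpow_of_exponent_le (by linarith) (by norm_num)
    have hFw : 2 * (F:ℝ) ≤ w := by linarith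
    have hWw : ∀ p : ℕ, p.Prime → p ∣ W → (p:ℝ) ≤ w := by
      intro p hp hpd
      have := hWle p hp hpd
      have h1 : t / 1000 ≤ L := by rw [hL]; linarith
      linarith
    have hXL : Real.exp L ≤ X - F := by rw [← hXt]; linarith
    have hWX : ∀ p : ℕ, p.Prime → p ∣ W → (p:ℝ) ≤ X - F := by
      intro p hp hpd
      have := hWle p hp hpd
      have h1 : t / 1000 ≤ t := by linarith
      have h2 := Real.exp_pos (t / 100)
      rw [← hXt]
      linarith
    -- good classes
    set Bd : ℝ := c₂ * (e * L / Real.log L) with hBd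
    have hBd0 : 0 < Bd := by positivity
    have hmert : ∏ p ∈ P, (1 - 1 / (p:ℝ)) ≤ 8 * C / Real.log L := by
      have h1 := PW_prod X S ps hP hS (by nlinarith)
      refine h1.trans ?_
      have hyy : L ^ (1 / 2 : ℝ) ≤ (yy X : ℝ) := by
        have h2 : L / 10 - 1 ≤ (yy X : ℝ) := by
          have h3 := Nat.lt_floor_add_one (t / 1000)
          have h4 : L / 10 = t / 1000 := by rw [hL]; ring
          have h5 : (yy X : ℝ) = (⌊t / 1000⌋₊ : ℝ) := rfl
          rw [h5, h4]
          linarith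
        refine le_trans ?_ h2
        rw [← Real.sqrt_eq_rpow]
        have h3 : Real.sqrt L * Real.sqrt L = L := Real.mul_self_sqrt hLpos.le
        have h4 : 20 ≤ Real.sqrt L := by
          rw [show (20:ℝ) = Real.sqrt 400 by
            rw [show (400:ℝ) = 20 ^ 2 by norm_num, Real.sqrt_sq (by norm_num)]]
          exact Real.sqrt_le_sqrt hL400
        nlinarith
      have hLh : 20 ≤ L ^ (1 / 2 : ℝ) := by
        rw [← Real.sqrt_eq_rpow, show (20:ℝ) = Real.sqrt 400 by
            rw [show (400:ℝ) = 20 ^ 2 by norm_num, Real.sqrt_sq (by norm_num)]]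
        exact Real.sqrt_le_sqrt hL400
      have hy2 : 2 ≤ (yy X : ℝ) := by linarith
      have h2 := (hWb (yy X) hy2).2
      have h3 : Real.log L / 2 ≤ Real.log (yy X : ℝ) := by
        have h4 := Real.log_le_log (by positivity) hyy
        rw [Real.log_rpow hLpos] at h4
        linarith
      have h5 := Pool.Agent.Y831.RC.WW_pos (yy X : ℝ)
      rw [le_div_iff₀ hlogLpos]
      nlinarith
    have hgood := good_classes F P hPprime Bd hBd0 (by
      have h1 : 2 * (F:ℝ) * Real.exp 1 ≤ 6 * (c₅ * (e * t)) := by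
        have h2 : Real.exp 1 ≤ 3 := by
          have := Real.exp_one_lt_d9
          linarith
        have h3 : (0:ℝ) ≤ F := Nat.cast_nonneg _
        have h4 : (F:ℝ) * Real.exp 1 ≤ F * 3 := mul_le_mul_of_nonneg_left h2 h3
        linarith
      have h2 : 0 ≤ 2 * (F:ℝ) * Real.exp 1 := by positivity
      have h3 : (∏ p ∈ P, (1 - 1 / (p:ℝ))) * (2 * F * Real.exp 1) ≤
          8 * C / Real.log L * (6 * (c₅ * (e * t))) :=
        mul_le_mul hmert h1 h2 (by positivity)
      have h4 : 2 * (8 * C / Real.log L * (6 * (c₅ * (e * t)))) = Bd := by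
        rw [hBd, hc₅, hL]
        field_simp
        ring
      linarith)
    -- the errors
    obtain ⟨bm, hbm1, hbm2⟩ := exists_bmax X W hWpos
    have hbvX := hbv bm (by rw [hWWe]; exact hbm1)
    rw [hWWe] at hbvX
    have hLP : 0 < LP X := lt_of_lt_of_le (by positivity) g3
    have hφ : (0:ℝ) < W.totient := by exact_mod_cast Nat.totient_pos.2 hWpos
    have hexpL : Real.exp L = X ^ (1 / 100 : ℝ) := by
      rw [← hXt, ← Real.exp_mul, hL]
      congr 1
      ring
    have hsumE : ∑ q ∈ QS w (Real.exp L) ps, |EPhi X (W * q) (bm q)| ≤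
        X / ((W.totient : ℝ) * Real.exp (Real.sqrt (tt X))) := by
      refine le_trans ?_ hbvX
      apply Finset.sum_le_sum_of_subset_of_nonneg
      · intro q hq
        unfold QS at hq
        rw [Finset.mem_filter, Finset.mem_Icc, hexpL] at hq
        rw [Finset.mem_filter, Finset.mem_Icc]
        refine ⟨hq.1, hq.2.1, ?_⟩
        apply Nat.Coprime.mul_right
        · rw [Nat.coprime_iff_gcd_eq_one]
          by_contra hne
          obtain ⟨p, hp, hpd⟩ := Nat.exists_prime_and_dvd hne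
          have h1 := (hq.2.2 p hp (hpd.trans (Nat.gcd_dvd_left _ _))).1
          have h2 := hWw p hp (hpd.trans (Nat.gcd_dvd_right _ _))
          linarith
        · rcases hP with h1 | h1
          · rw [h1]
            exact Nat.coprime_one_right _
          · apply Nat.Coprime.symm
            rw [h1.1.coprime_iff_not_dvd]
            intro hd
            exact (hq.2.2 ps h1.1 hd).2 rfl
      · intro q _ _
        exact abs_nonneg _
    have hfin : Real.exp (1000 * (Real.exp (2 * e) * (Real.log L) ^ 3)) *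
        ∑ q ∈ QS w (Real.exp L) ps, |EPhi X (W * q) (bm q)| ≤
        (LP X / (W.totient : ℝ)) / 8 := by
      have h1 : 1000 * (Real.exp (2 * e) * (Real.log L) ^ 3) + 8 ≤ Real.sqrt (tt X) := by
        have h2 : Real.exp (2 * e) ≤ t ^ (1 / 100 : ℝ) := by
          rw [Real.rpow_def_of_pos htpos]
          apply Real.exp_le_exp.2
          linarith
        have h3 : (Real.log L) ^ 3 ≤ l ^ 3 := pow_le_pow_left₀ hlogLpos.le hlogL2 3
        have h4 : Real.exp (2 * e) * (Real.log L) ^ 3 ≤ t ^ (1 / 100 : ℝ) * l ^ 3 :=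
          mul_le_mul h2 h3 (by positivity) (by positivity)
        have h5 : Real.sqrt (tt X) = t ^ (1 / 40 : ℝ) := by
          unfold tt
          rw [Real.sqrt_eq_rpow, ← Real.rpow_mul htpos.le]
          norm_num
        rw [h5]
        linarith
      have h2 : Real.exp (1000 * (Real.exp (2 * e) * (Real.log L) ^ 3)) * Real.exp 8 ≤
          Real.exp (Real.sqrt (tt X)) := by
        rw [← Real.exp_add]
        exact Real.exp_le_exp.2 h1
      have h8 : (1600:ℝ) ≤ Real.exp 8 := by
        have e1 := Real.exp_one_gt_d9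
        have e2 : Real.exp 8 = (Real.exp 1) ^ 8 := by
          rw [← Real.exp_nat_mul]; norm_num
        rw [e2]
        calc (1600:ℝ) ≤ (27 / 10) ^ 8 := by norm_num
          _ ≤ (Real.exp 1) ^ 8 := pow_le_pow_left₀ (by norm_num) (by linarith) 8
      set M := Real.exp (1000 * (Real.exp (2 * e) * (Real.log L) ^ 3)) with hM
      set Ex := Real.exp (Real.sqrt (tt X)) with hEx
      have hM0 : 0 < M := Real.exp_pos _
      have hEx0 : 0 < Ex := Real.exp_pos _
      have h3 : M * 1600 ≤ Ex := (mul_le_mul_of_nonneg_left h8 hM0.le).trans h2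
      calc M * ∑ q ∈ QS w (Real.exp L) ps, |EPhi X (W * q) (bm q)|
          ≤ M * (X / ((W.totient : ℝ) * Ex)) := mul_le_mul_of_nonneg_left hsumE hM0.le
        _ = (X / (W.totient : ℝ)) * (M / Ex) := by
            field_simp
        _ ≤ (X / (W.totient : ℝ)) * (1 / 1600) := by
            apply mul_le_mul_of_nonneg_left _ (by positivity)
            rw [div_le_div_iff₀ hEx0 (by norm_num)]
            linarith
        _ = (X / 200) / (W.totient : ℝ) / 8 := by
            field_simp
            norm_num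
        _ ≤ (LP X / (W.totient : ℝ)) / 8 := by
            apply div_le_div_of_nonneg_right _ (by norm_num)
            exact div_le_div_of_nonneg_right g3 hφ.le
    -- the classes
    set Lo : ℝ := Real.exp (e ^ 2 * Real.exp e) with hLo
    have hLo0 : 0 < Lo := Real.exp_pos _
    have hcls : ∀ b ∈ univ.filter (fun b : ZMod W => IsUnit b ∧ ((KK W F b).card : ℝ) ≤ Bd),
        3 / 8 * (LP X / (W.totient : ℝ)) / Lo ≤ ∑ n ∈ (Icc 1 ⌊3 * X⌋₊).filter (fun n : ℕ =>
        (n : ZMod W) = b ∧ X < n ∧ Iso F n), Phi (n / X) * vonMangoldt n := by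
      intro b hb
      rw [Finset.mem_filter] at hb
      rw [div_le_iff₀ hLo0]
      exact class_cov X W ps F b L w Bd _ Lo g2 hb.2.1 hb.2.2 hcovX hLo0.le hFw hWw hXL hWX bm
        hbm2 hLP hfin
    have hsumc := sum_classes X W F _ _ hcls
    have hcnt := count_iso X F (by linarith)
    set cnt : ℝ := (((Icc 1 ⌊3 * X⌋₊).filter (fun n : ℕ => n.Prime ∧ X < n ∧
      Iso F n)).card : ℝ) with hcntdef
    have hcnt0 : 0 ≤ cnt := Nat.cast_nonneg _
    -- lower bound for the weighted sum
    have h1 : 3 / 16 * LP X / Lo ≤ cnt * Real.log (3 * X) +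
        2 * Real.sqrt (3 * X) * Real.log (3 * X) := by
      refine le_trans ?_ (hsumc.trans hcnt)
      have h2 : 0 ≤ 3 / 8 * (LP X / (W.totient : ℝ)) / Lo := by positivity
      refine le_trans ?_ (mul_le_mul_of_nonneg_right hgood h2)
      apply le_of_eq
      field_simp
      ring
    have hlog3 : Real.log (3 * X) ≤ 2 * t := by
      rw [Real.log_mul (by norm_num) hX0.ne']
      have : Real.log 3 ≤ 2 := by
        have := Real.log_le_sub_one_of_pos (by norm_num : (0 : ℝ) < 3)
        linarith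
      linarith
    have hlog30 : 0 ≤ Real.log (3 * X) := Real.log_nonneg (by linarith)
    -- the loss is small
    have hLoss : e ^ 2 * Real.exp e ≤ t ^ (1 / 2 : ℝ) := by
      refine le_trans ?_ g7
      apply mul_le_mul _ _ (Real.exp_pos _).le (by positivity)
      · apply pow_le_pow_left₀ he0.le
        linarith
      · rw [Real.rpow_def_of_pos htpos]
        apply Real.exp_le_exp.2
        linarith
    have hsq : t ^ (1 / 2 : ℝ) ≤ t / 4 := by
      rw [← Real.sqrt_eq_rpow]
      have h3 : Real.sqrt t * Real.sqrt t = t := Real.mul_self_sqrt htpos.le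
      have h4 : 4 ≤ Real.sqrt t := by
        rw [show (4:ℝ) = Real.sqrt 16 by
          rw [show (16:ℝ) = 4 ^ 2 by norm_num, Real.sqrt_sq (by norm_num)]]
        exact Real.sqrt_le_sqrt (by linarith)
      nlinarith
    have hpp : 2 * Real.sqrt (3 * X) * Real.log (3 * X) ≤ X / Lo / 3200 := by
      have h3 : Real.sqrt (3 * X) ≤ 2 * Real.exp (t / 2) := by
        rw [Real.sqrt_le_left (by positivity), mul_pow, ← Real.exp_nat_mul]
        have : ((2:ℕ):ℝ) * (t / 2) = t := by push_cast; ring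
        rw [this, hXt]
        linarith
      have h4 : 2 * Real.sqrt (3 * X) * Real.log (3 * X) ≤ 2 * (2 * Real.exp (t / 2)) * (2 * t) := by
        apply mul_le_mul _ hlog3 hlog30 (by positivity)
        linarith
      have h5 : Real.exp (3 * t / 4) ≤ X / Lo := by
        rw [le_div_iff₀ hLo0, hLo, ← Real.exp_add, ← hXt]
        apply Real.exp_le_exp.2
        linarith
      have h6 : 25600 * t * Real.exp (t / 2) ≤ Real.exp (3 * t / 4) := by
        have h7 := mul_le_mul_of_nonneg_right g8b (Real.exp_pos (t / 2)).le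
        have h8 : Real.exp (t / 4) * Real.exp (t / 2) = Real.exp (3 * t / 4) := by
          rw [← Real.exp_add]; congr 1; ring
        linarith
      linarith
    have h2 : X / Lo / 1600 ≤ cnt * (2 * t) := by
      have h3 : 3 / 3200 * (X / Lo) ≤ 3 / 16 * LP X / Lo := by
        have : 3 / 3200 * (X / Lo) = 3 / 16 * (X / 200) / Lo := by ring
        rw [this]
        apply div_le_div_of_nonneg_right _ hLo0.le
        have g3' : X / 200 ≤ LP X := g3
        linarith
      have h4 : cnt * Real.log (3 * X) ≤ cnt * (2 * t) := mul_le_mul_of_nonneg_left hlog3 hcnt0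
      have h5 : 0 < X / Lo := by positivity
      linarith
    have h3 : X / (3200 * t) * Real.exp (-(e ^ 2 * Real.exp e)) = X / Lo / 1600 / (2 * t) := by
      rw [Real.exp_neg, hLo]
      field_simp
      norm_num
    rw [h3, div_le_iff₀ (by positivity)]
    exact h2
  obtain ⟨X₀, hX₀⟩ := Filter.eventually_atTop.1 ev
  exact ⟨c₅, e₀, max X₀ 3, hc₅0, he₀, le_max_right _ _, fun X hX =>
    hX₀ X ((le_max_left _ _).trans hX)⟩

end Pool.Agent.K4H19.FQ
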