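import Pool.Agent.K4H19.FQ.MBV
import Pool.Agent.Y831.RC5.Cov5

set_option autoImplicit false
set_option linter.unusedSectionVars false
set_option linter.unusedVariables false

/-! # The two blocks of primes with the densities `1/(p-1)` -/

namespace Pool.Agent.K4H19.FQ

open Finset Filter Pool.Agent.H256R2.SC Pool.Agent.Y831.RC

open scoped Classical

/-- number of sub-blocks -/
noncomputable def nB (w y : ℝ) : ℕ := Nat.log 2 ⌊Real.log y / Real.log w⌋₊ + 1

theorem BHyp6 : ∃ C₁ : ℝ, 0 < C₁ ∧ ∀ (w y : ℝ) (b₀ : ℕ) (m τ : ℝ) (κ : Type) [Fintype κ]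
    [DecidableEq κ], 12 ≤ w → C₁ ≤ Real.log w → w ≤ y → Even b₀ →
    2 * (Fintype.card κ : ℝ) + 1 ≤ w → 0 ≤ m → τ ≤ 1 → m * (1 / 3) ^ b₀ ≤ Real.exp (-130) * τ →
    ∀ PP : Finset ℕ, PP ⊆ PS w y ∅ →
    ∃ R : κ → Col PP.card κ → ℝ,
      BHyp (fun i => 1 / (((emb PP i : ℕ) : ℝ) - 1)) R m τ ∧
      ∀ k, MB (fun i => ((emb PP i : ℕ) : ℝ)) (4 ^ (nB w y * (nB w y * (b₀ + nB w y))))
        (Real.exp (Real.log y * (2 * b₀ + 4))) (nB w y * (b₀ + nB w y)) (R k) := by
  obtain ⟨CR, hCR0, hSR⟩ := sum_ratio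
  refine ⟨10 * CR + 1, by positivity, ?_⟩
  intro w y b₀ m τ κ _ _ hw12 hw hwy hb₀ huw hm0 hτ1 hmτ PP hPPs
  have hw2 : 2 ≤ w := by linarith
  have hy0 : 0 < y := by linarith
  have hlw : 0 < Real.log w := by linarith
  have hlwy : Real.log w ≤ Real.log y := Real.log_le_log (by linarith) hwy
  have hly : 0 < Real.log y := by linarith
  set g : Fin PP.card → ℝ := fun i => 1 / (((emb PP i : ℕ) : ℝ) - 1) with hg
  have hmem : ∀ i, emb PP i ∈ PS w y ∅ := fun i => hPPs (emb_mem PP i)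
  have hPm : ∀ i, (emb PP i).Prime ∧ w < ((emb PP i : ℕ):ℝ) ∧ ((emb PP i : ℕ):ℝ) ≤ y :=
    fun i => PS_mem hy0.le (hmem i)
  have hP0 : ∀ i, 0 < ((emb PP i : ℕ):ℝ) := fun i => by linarith [(hPm i).2.1]
  have hP10 : ∀ i, 0 < ((emb PP i : ℕ):ℝ) - 1 := fun i => by linarith [(hPm i).2.1]
  have hg0 : ∀ i, 0 ≤ g i := fun i => by have := hP10 i; simp only [hg]; positivity
  have hgu : ∀ i, (Fintype.card κ : ℝ) * g i ≤ 1 / 2 := fun i => by
    simp only [hg]
    rw [mul_one_div, div_le_div_iff₀ (hP10 i) (by norm_num)]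
    have := (hPm i).2.1.le
    linarith
  have hwt : ∀ i (c : Option κ), 0 ≤ wt (g i) c := fun i c =>
    wt_nonneg (hg0 i) (by linarith [hgu i]) c
  have hgle : ∀ i, g i ≤ 11 / 10 * (1 / ((emb PP i : ℕ):ℝ)) := by
    intro i
    simp only [hg]
    have h1 := (hPm i).2.1
    have h2 := hP0 i
    have h3 := hP10 i
    rw [mul_one_div, div_le_div_iff₀ h3 h2]
    linarith
  set bl : Fin PP.card → ℕ := fun i => blk y (emb PP i) with hbl
  set B : ℕ := nB w y with hB
  have hblB : ∀ i, bl i < B := by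
    intro i
    simp only [hbl, hB, nB]
    unfold blk
    apply Nat.lt_succ_of_le
    apply Nat.log_mono_right
    apply Nat.floor_le_floor
    apply div_le_div_of_nonneg_left hly.le hlw
    exact Real.log_le_log (by linarith) (hPm i).2.1.le
  set M : ℕ → ℕ := fun j => b₀ + 2 * j with hM
  have hMe : ∀ j, Even (M j) := fun j => hb₀.add (even_two_mul j)
  -- the masses of the sub-blocks
  have hmass : ∀ j, ∑ i with bl i = j, g i ≤ 1 := by
    intro j
    rcases (univ.filter (fun i => bl i = j)).eq_empty_or_nonempty with he | ⟨i₀, hi₀⟩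
    · rw [he]
      simp
    · rw [Finset.mem_filter] at hi₀
      set a : ℝ := max w (Real.exp (Real.log y / 2 ^ (j + 1))) with ha
      set b : ℝ := Real.exp (Real.log y / 2 ^ j) with hb
      have hspec : ∀ i, bl i = j → a ≤ ((emb PP i : ℕ):ℝ) ∧ (a < ((emb PP i : ℕ):ℝ)) ∧
          ((emb PP i : ℕ):ℝ) ≤ b := by
        intro i hi
        obtain ⟨e1, e2, e3⟩ := blk_spec hw2 (hmem i)
        have hi' : blk y (emb PP i) = j := hi
        rw [hi'] at e1 e2
        have e4 : a < ((emb PP i : ℕ):ℝ) := by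
          rw [ha]
          apply max_lt (hPm i).2.1
          rw [← Real.lt_log_iff_exp_lt (hP0 i)]
          exact e2
        refine ⟨e4.le, e4, ?_⟩
        rw [hb, ← Real.log_le_iff_le_exp (hP0 i)]
        exact e1
      have ha2 : 2 ≤ a := hw2.trans (le_max_left _ _)
      have hab : a ≤ b := (hspec i₀ hi₀.2).1.trans (hspec i₀ hi₀.2).2.2
      have h1 := hSR a b ha2 hab
      have h2 : ∑ i with bl i = j, 1 / ((emb PP i : ℕ):ℝ) ≤
          ∑ p ∈ (Finset.Ioc ⌊a⌋₊ ⌊b⌋₊).filter Nat.Prime, (1 : ℝ) / p := by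
        have e1 : ∑ i with bl i = j, 1 / ((emb PP i : ℕ):ℝ) =
            ∑ p ∈ (univ.filter (fun i => bl i = j)).map (emb PP), (1 : ℝ) / p := by
          rw [Finset.sum_map]
        rw [e1]
        apply Finset.sum_le_sum_of_subset_of_nonneg
        · intro p hp
          rw [Finset.mem_map] at hp
          obtain ⟨i, hi, rfl⟩ := hp
          rw [Finset.mem_filter] at hi
          obtain ⟨_, e3, e4⟩ := hspec i hi.2
          rw [Finset.mem_filter, Finset.mem_Ioc]
          refine ⟨⟨(Nat.floor_lt (by linarith)).2 e3, Nat.le_floor e4⟩, (hPm i).1⟩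
        · intro p _ _
          positivity
      have hla : Real.log w ≤ Real.log a := Real.log_le_log (by linarith) (le_max_left _ _)
      have hla0 : 0 < Real.log a := by linarith
      have hla2 : Real.log y / 2 ^ (j + 1) ≤ Real.log a := by
        rw [← Real.log_exp (Real.log y / 2 ^ (j + 1))]
        exact Real.log_le_log (Real.exp_pos _) (le_max_right _ _)
      have hlb : Real.log b = Real.log y / 2 ^ j := Real.log_exp _
      have h3 : Real.log (Real.log b / Real.log a) ≤ 7 / 10 := by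
        have e1 : Real.log b / Real.log a ≤ 2 := by
          rw [div_le_iff₀ hla0, hlb]
          rw [pow_succ] at hla2
          have e2 : Real.log y / (2 ^ j * 2) = Real.log y / 2 ^ j / 2 := by field_simp
          rw [e2] at hla2
          linarith
        have e2 : 0 < Real.log b / Real.log a := by
          rw [hlb]; positivity
        refine (Real.log_le_log e2 e1).trans ?_
        have := Real.log_two_lt_d9
        linarith
      have h4 : CR / Real.log a ≤ 1 / 10 := by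
        rw [div_le_iff₀ hla0]
        linarith
      have h5 : ∑ i with bl i = j, g i ≤ 11 / 10 * ∑ i with bl i = j, 1 / ((emb PP i : ℕ):ℝ) := by
        rw [Finset.mul_sum]
        exact Finset.sum_le_sum fun i _ => hgle i
      linarith
  refine ⟨fun k => BHk bl B M k, ⟨fun k x => BHk_nonneg bl B M hMe k x,
    fun k x hx => BHk_one bl B M k x hx, ?_⟩, ?_⟩
  · intro K hK a ha
    have h1 := BH_up hg0 hwt hgu bl B hblB M hMe K a ha
    refine h1.trans ?_
    have hρ : 0 ≤ rho g K.card := rho_nonneg hg0 hgu (Finset.card_le_univ K)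
    rw [mul_comm]
    apply mul_le_mul_of_nonneg_right _ hρ
    set q : ℝ := (1 / 3) ^ b₀ * Real.exp 128 with hq
    have hq0 : 0 ≤ q := by positivity
    have h2 : ∏ j ∈ range B, (1 + (1 / 3 : ℝ) ^ (M j) *
        Real.exp (128 * ∑ i with bl i = j, g i)) ≤ Real.exp (2 * q) := by
      calc ∏ j ∈ range B, (1 + (1 / 3 : ℝ) ^ (M j) * Real.exp (128 * ∑ i with bl i = j, g i))
          ≤ ∏ j ∈ range B, Real.exp (q * (1 / 9) ^ j) := by
            apply Finset.prod_le_prod
            · intro j _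
              positivity
            · intro j _
              have e1 : Real.exp (128 * ∑ i with bl i = j, g i) ≤ Real.exp 128 := by
                apply Real.exp_le_exp.2
                linarith [hmass j]
              have e2 : (1 / 3 : ℝ) ^ (M j) = (1 / 3) ^ b₀ * (1 / 9) ^ j := by
                simp only [hM]
                rw [pow_add, pow_mul]
                norm_num
              have e3 : (1 / 3 : ℝ) ^ (M j) * Real.exp (128 * ∑ i with bl i = j, g i) ≤
                  q * (1 / 9) ^ j := by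
                rw [e2, hq]
                calc (1 / 3 : ℝ) ^ b₀ * (1 / 9) ^ j * Real.exp (128 * ∑ i with bl i = j, g i)
                    ≤ (1 / 3 : ℝ) ^ b₀ * (1 / 9) ^ j * Real.exp 128 :=
                      mul_le_mul_of_nonneg_left e1 (by positivity)
                  _ = _ := by ring
              have e4 := Real.add_one_le_exp (q * (1 / 9 : ℝ) ^ j)
              linarith
        _ = Real.exp (q * ∑ j ∈ range B, (1 / 9 : ℝ) ^ j) := by
            rw [← Real.exp_sum, ← Finset.mul_sum]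
        _ ≤ Real.exp (2 * q) := by
            apply Real.exp_le_exp.2
            have := geo_b B
            nlinarith
    have h3 : (∏ j ∈ range B, (1 + (1 / 3 : ℝ) ^ (M j) *
        Real.exp (128 * ∑ i with bl i = j, g i))) ^ K.card ≤ Real.exp (2 * q * m) := by
      calc (∏ j ∈ range B, (1 + (1 / 3 : ℝ) ^ (M j) *
          Real.exp (128 * ∑ i with bl i = j, g i))) ^ K.card ≤ (Real.exp (2 * q)) ^ K.card := by
            apply pow_le_pow_left₀ _ h2
            apply Finset.prod_nonneg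
            intro j _
            positivity
        _ = Real.exp (K.card * (2 * q)) := by rw [← Real.exp_nat_mul]
        _ ≤ Real.exp (2 * q * m) := by
            apply Real.exp_le_exp.2
            nlinarith
    refine h3.trans ?_
    have h5 : 2 * q * m ≤ τ / 2 := by
      have e1 : q * m = Real.exp 128 * (m * (1 / 3) ^ b₀) := by rw [hq]; ring
      have e2 : Real.exp 128 * (m * (1 / 3) ^ b₀) ≤ Real.exp 128 * (Real.exp (-130) * τ) :=
        mul_le_mul_of_nonneg_left hmτ (Real.exp_pos _).le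
      have e3 : Real.exp 128 * (Real.exp (-130) * τ) = Real.exp (-2) * τ := by
        rw [← mul_assoc, ← Real.exp_add]
        norm_num
      have hτ0 : 0 ≤ τ := by
        have : 0 ≤ Real.exp (-130) * τ := le_trans (by positivity) hmτ
        by_contra hc
        push Not at hc
        have := Real.exp_pos (-130)
        nlinarith
      have e4 : Real.exp (-2) ≤ 1 / 4 := by
        have h1 := Real.add_one_le_exp (1:ℝ)
        have h2 : Real.exp (-2) * Real.exp 2 = 1 := by rw [← Real.exp_add]; norm_num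
        have h3 : Real.exp 2 = Real.exp 1 * Real.exp 1 := by rw [← Real.exp_add]; norm_num
        have h4 := Real.exp_pos (-2)
        have h5 : 4 ≤ Real.exp 2 := by
          rw [h3]
          nlinarith
        have h6 : Real.exp (-2) * 4 ≤ Real.exp (-2) * Real.exp 2 :=
          mul_le_mul_of_nonneg_left h5 h4.le
        linarith
      nlinarith
    have h6 : 0 ≤ 2 * q * m := by positivity
    have h7 : Real.exp (2 * q * m) ≤ 1 + 2 * (2 * q * m) := by
      have hx1 : |2 * q * m| ≤ 1 := by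
        rw [abs_of_nonneg h6]
        linarith
      have e1 := Real.abs_exp_sub_one_le hx1
      have e2 := (abs_le.1 e1).2
      rw [abs_of_nonneg h6] at e2
      linarith
    linarith
  · intro k
    set P : Fin PP.card → ℝ := fun i => ((emb PP i : ℕ) : ℝ) with hP
    have hP1 : ∀ i, 1 ≤ P i := fun i => by have := (hPm i).2.1; simp only [hP]; linarith
    have h1 := MB_BHk P bl B M (fun j => Real.exp (Real.log y / 2 ^ j))
      (fun j => Real.one_le_exp (by positivity)) hP1
      (fun i => by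
        obtain ⟨e1, e2, e3⟩ := blk_spec hw2 (hmem i)
        simp only [hP, hbl]
        rw [← Real.log_le_iff_le_exp (hP0 i)]
        exact e1) k
    have hsum : ∑ j ∈ range B, M j ≤ B * (b₀ + B) := by
      calc ∑ j ∈ range B, M j = B * b₀ + 2 * ∑ j ∈ range B, j := by
            simp only [hM]
            rw [Finset.sum_add_distrib, Finset.sum_const, Finset.card_range, smul_eq_mul,
              Finset.mul_sum]
        _ = B * b₀ + B * (B - 1) := by
            rw [mul_comm 2, Finset.sum_range_id_mul_two]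
        _ ≤ B * b₀ + B * B := by
            apply Nat.add_le_add_left
            exact Nat.mul_le_mul_left _ (Nat.sub_le _ _)
        _ = B * (b₀ + B) := by ring
    refine MB_mono ?_ ?_ hsum h1
    · apply pow_le_pow_right₀ (by norm_num)
      exact Nat.mul_le_mul_left _ hsum
    · calc ∏ j ∈ range B, Real.exp (Real.log y / 2 ^ j) ^ M j
          = Real.exp (Real.log y * ∑ j ∈ range B, ((b₀ : ℝ) + 2 * j) / 2 ^ j) := by
            rw [Finset.mul_sum, Real.exp_sum]
            refine Finset.prod_congr rfl fun j _ => ?_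
            rw [← Real.exp_nat_mul]
            congr 1
            simp only [hM]
            push_cast
            ring
        _ ≤ Real.exp (Real.log y * (2 * b₀ + 4)) := by
            apply Real.exp_le_exp.2
            apply mul_le_mul_of_nonneg_left _ hly.le
            rw [geo_a]
            have : (0:ℝ) ≤ (2 * (b₀:ℝ) + 4 * B + 4) / 2 ^ B := by positivity
            linarith

theorem PS_erase (w y : ℝ) (ps : ℕ) : PS w y {ps} = (PS w y ∅).erase ps := by
  ext p
  unfold PS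
  simp only [Finset.mem_filter, Finset.mem_erase, Finset.mem_singleton, Finset.notMem_empty,
    not_false_eq_true, and_true]
  tauto

/-- the density of the first block -/
theorem rho6 (w y : ℝ) (hw : 2 ≤ w) (hwy : w ≤ y) (ps : ℕ) :
    0 ≤ rho (fun i => 1 / (((emb (PS w y {ps}) i : ℕ) : ℝ) - 1)) 1 ∧
    rho (fun i => 1 / (((emb (PS w y {ps}) i : ℕ) : ℝ) - 1)) 1 ≤ 2 * (WW y / WW w) := by
  have hy0 : 0 ≤ y := by linarith
  set S : Finset ℕ := PS w y ∅ with hS
  have hSm : ∀ p ∈ S, 2 < (p:ℝ) := fun p hp => lt_of_le_of_lt hw (PS_mem hy0 hp).2.1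
  have hf0 : ∀ p ∈ S, 0 ≤ 1 - 1 / ((p:ℝ) - 1) := by
    intro p hp
    have := hSm p hp
    rw [sub_nonneg, div_le_one (by linarith)]
    have h2 : 2 < p := by exact_mod_cast this
    have h3 : 3 ≤ p := h2
    have h4 : (3:ℝ) ≤ p := by exact_mod_cast h3
    linarith
  have hf1 : ∀ p ∈ S, 1 - 1 / ((p:ℝ) - 1) ≤ 1 - 1 / (p:ℝ) := by
    intro p hp
    have := hSm p hp
    have : 1 / (p:ℝ) ≤ 1 / ((p:ℝ) - 1) := one_div_le_one_div_of_le (by linarith) (by linarith)
    linarith
  have hg0 : ∀ p ∈ S, 1 / 2 ≤ 1 - 1 / (p:ℝ) := by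
    intro p hp
    have := hSm p hp
    have h2 : 1 / (p:ℝ) ≤ 1 / 2 := one_div_le_one_div_of_le (by norm_num) this.le
    linarith
  have h1 : rho (fun i => 1 / (((emb (PS w y {ps}) i : ℕ) : ℝ) - 1)) 1 =
      ∏ p ∈ PS w y {ps}, (1 - 1 / ((p : ℝ) - 1)) := by
    unfold rho
    have h2 : PS w y {ps} = univ.map (emb (PS w y {ps})) := by
      ext p
      rw [Finset.mem_map]
      constructor
      · intro hp
        obtain ⟨i, hi⟩ := emb_surj (PS w y {ps}) hp
        exact ⟨i, Finset.mem_univ _, hi⟩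
      · rintro ⟨i, _, rfl⟩
        exact emb_mem (PS w y {ps}) i
    conv_rhs => rw [h2]
    rw [Finset.prod_map]
    push_cast
    simp
  have h2 : rho (fun i => 1 / ((emb (PS w y ∅) i : ℕ) : ℝ)) 1 =
      ∏ p ∈ S, (1 - 1 / (p : ℝ)) := by
    unfold rho
    have h2 : S = univ.map (emb S) := by
      ext p
      rw [Finset.mem_map]
      constructor
      · intro hp
        obtain ⟨i, hi⟩ := emb_surj S hp
        exact ⟨i, Finset.mem_univ _, hi⟩
      · rintro ⟨i, _, rfl⟩
        exact emb_mem S i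
    conv_rhs => rw [h2]
    rw [Finset.prod_map]
    push_cast
    simp only [one_mul]
    rfl
  rw [h1]
  rw [← rho_PS w y hw hwy, h2, PS_erase, ← hS]
  have hsub : S.erase ps ⊆ S := Finset.erase_subset _ _
  refine ⟨Finset.prod_nonneg fun p hp => hf0 p (hsub hp), ?_⟩
  have h3 : ∏ p ∈ S.erase ps, (1 - 1 / ((p : ℝ) - 1)) ≤ ∏ p ∈ S.erase ps, (1 - 1 / (p : ℝ)) :=
    Finset.prod_le_prod (fun p hp => hf0 p (hsub hp)) fun p hp => hf1 p (hsub hp)
  refine h3.trans ?_
  have h4 : 0 ≤ ∏ p ∈ S.erase ps, (1 - 1 / (p : ℝ)) :=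
    Finset.prod_nonneg fun p hp => by linarith [hg0 p (hsub hp)]
  by_cases hps : ps ∈ S
  · rw [← Finset.mul_prod_erase S (fun p => 1 - 1 / (p:ℝ)) hps]
    have := hg0 ps hps
    nlinarith
  · rw [Finset.erase_eq_of_notMem hps] at h4 ⊢
    linarith

/-- change of density -/
theorem HypS6 {n : ℕ} {p : Fin n → ℝ} {h : Finset (Fin n) → ℝ} {z K v₀ : ℝ}
    (H : HypS p (fun i => 1 / p i) h z K v₀) :
    HypS p (fun i => 1 / (p i - 1)) (fun s => h s * ∏ i ∈ s, (1 - 1 / p i)) z K v₀ := by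
  have hp1 := H.p1
  have hp0 : ∀ i, 0 < p i := fun i => zero_lt_one.trans (hp1 i)
  have hq0 : ∀ i, 0 < p i - 1 := fun i => sub_pos.2 (hp1 i)
  have hr0 : ∀ i, 0 < 1 - 1 / p i := fun i => by
    rw [sub_pos, div_lt_one (hp0 i)]
    exact hp1 i
  have hr1 : ∀ i, 1 - 1 / p i ≤ 1 := fun i => by
    have : 0 < 1 / p i := by have := hp0 i; positivity
    linarith
  have hk : ∀ i, (1 - 1 / p i) * (1 / (p i - 1)) = 1 / p i := fun i => by
    have h1 := (hp0 i).ne'
    have h2 := (hq0 i).ne'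
    field_simp
  have hprod : ∀ s : Finset (Fin n), (h s * ∏ i ∈ s, (1 - 1 / p i)) * ∏ i ∈ s, 1 / (p i - 1) =
      h s * ∏ i ∈ s, 1 / p i := by
    intro s
    rw [mul_assoc, ← Finset.prod_mul_distrib]
    rw [Finset.prod_congr rfl fun i _ => hk i]
  have hR0 : ∀ s : Finset (Fin n), 0 ≤ ∏ i ∈ s, (1 - 1 / p i) := fun s =>
    Finset.prod_nonneg fun i _ => (hr0 i).le
  have hR1 : ∀ s : Finset (Fin n), ∏ i ∈ s, (1 - 1 / p i) ≤ 1 := fun s =>
    Finset.prod_le_one (fun i _ => (hr0 i).le) fun i _ => hr1 i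
  have hG0 : ∀ s : Finset (Fin n), 0 ≤ ∏ i ∈ s, 1 / p i := fun s =>
    Finset.prod_nonneg fun i _ => by have := hp0 i; positivity
  refine ⟨hp1, fun i => by have := hq0 i; positivity, H.z1, H.K0, H.v0,
    fun s => mul_nonneg (H.h0 s) (hR0 s), fun s => ?_, fun s hs => H.supp s (left_ne_zero_of_mul hs),
    fun s hs => H.low s (left_ne_zero_of_mul hs), ?_, fun i => ?_, ?_⟩
  · have := mul_le_mul (H.h1 s) (hR1 s) (hR0 s) zero_le_one
    simpa using this
  · refine Eq.trans ?_ H.sum1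
    exact Finset.sum_congr rfl fun s _ => hprod s
  · rw [Finset.sum_congr rfl fun s _ => hprod s]
    refine (H.mem i).trans ?_
    have : 1 / p i ≤ 1 / (p i - 1) := one_div_le_one_div_of_le (hq0 i) (by linarith)
    linarith
  · refine le_trans (Finset.sum_le_sum fun s hs => ?_) H.cost
    have e1 : 0 ≤ Real.log (∏ i ∈ s, p i) := Real.log_nonneg (H.prod_ge_one s)
    have e2 : (h s * ∏ i ∈ s, (1 - 1 / p i)) ^ 2 * (∏ i ∈ s, 1 / (p i - 1)) =
        h s * (∏ i ∈ s, (1 - 1 / p i)) * (h s * ∏ i ∈ s, 1 / p i) := by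
      rw [← hprod s]; ring
    change (h s * ∏ i ∈ s, (1 - 1 / p i)) ^ 2 * (∏ i ∈ s, 1 / (p i - 1)) *
      Real.log (∏ i ∈ s, p i) ≤ _
    rw [e2]
    apply mul_le_mul_of_nonneg_right _ e1
    have e3 : h s * (∏ i ∈ s, (1 - 1 / p i)) ≤ h s := by
      have := mul_le_mul_of_nonneg_left (hR1 s) (H.h0 s)
      linarith
    have e4 := mul_le_mul_of_nonneg_right e3 (mul_nonneg (H.h0 s) (hG0 s))
    refine e4.trans (le_of_eq ?_)
    ring

/-- the second block -/
theorem blk2_prof6 (ε c C CR : ℝ) (hε : 0 < ε) (hε4 : ε ≤ 1 / 4) (hc : 0 < c)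
    (hWb : ∀ y : ℝ, 2 ≤ y → c ≤ WW y * Real.log y ∧ WW y * Real.log y ≤ C)
    (hSR : ∀ a b : ℝ, 2 ≤ a → a ≤ b →
    ∑ p ∈ (Finset.Ioc ⌊a⌋₊ ⌊b⌋₊).filter Nat.Prime, (1 : ℝ) / p ≤
      Real.log (Real.log b / Real.log a) + CR / Real.log a)
    (L e Y Z : ℝ) (hL : 1 ≤ L) (he1 : 1 ≤ e) (hY0 : 0 < Y) (hY : Y = L * Real.exp (-e) / e ^ 2)
    (hZ : Z = ε ^ 2 * L / (100 * e)) (hYZ : Y ≤ Z) (hvZ : L * Real.exp (-e) ≤ Z)
    (hlog1 : Real.log e ≤ e / 20) (hlog2 : Real.log (100 * e / ε ^ 2) ≤ ε / 4 * e)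
    (hCR : CR / Y ≤ 1 / 2) (he1000 : 1000 ≤ e) (hK4 : 64 / (c * ε) ≤ e) (hY8 : 8 ≤ Y)
    (hYε : 64 / ε ≤ Y) (hYe : 4 * e ≤ Real.exp Y) (m₀ : ℕ) (hm₀ : 20 * e ≤ m₀) :
    (∑ i, 1 / (((emb (PS (Real.exp Y) (Real.exp Z) ∅) i : ℕ) : ℝ) - 1) ≤ 11 / 10 * e) ∧
    ∃ h, HypS (fun i => ((emb (PS (Real.exp Y) (Real.exp Z) ∅) i : ℕ) : ℝ))
      (fun i => 1 / (((emb (PS (Real.exp Y) (Real.exp Z) ∅) i : ℕ) : ℝ) - 1))
      h (Real.exp Z) (1 / ((1 - ε) * WW (Real.exp Y) * e)) (L * Real.exp (-e)) ∧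
        ∀ s, h s ≠ 0 → s.card ≤ m₀ := by
  obtain ⟨_, h, H, hcard⟩ := blk2_prof ε c C CR hε hε4 hc hWb hSR L e Y Z hL he1 hY0 hY hZ hYZ hvZ
    hlog1 hlog2 hCR he1000 hK4 hY8 hYε m₀ hm₀
  refine ⟨?_, _, HypS6 H, fun s hs => hcard s (left_ne_zero_of_mul hs)⟩
  have hL0 : 0 < L := by linarith
  set y : ℝ := Real.exp Y with hy
  set z : ℝ := Real.exp Z with hz
  have hly : Real.log y = Y := Real.log_exp Y
  have hlz : Real.log z = Z := Real.log_exp Z
  have hyY : Y + 1 ≤ y := Real.add_one_le_exp Y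
  have hyz : y ≤ z := Real.exp_le_exp.2 hYZ
  have hy2 : 2 ≤ y := by linarith
  have h1 := sum_block CR hSR y z hy2 hyz
  rw [hly, hlz] at h1
  have h2 := p_G2 hε hε4 hL0 he1 hY0 hY hZ hlog1 (CR + Y) (by
    rw [add_div, div_self hY0.ne']
    linarith)
  rw [add_div, div_self hY0.ne'] at h2
  have h3 : ∑ i, 1 / (((emb (PS y z ∅) i : ℕ) : ℝ) - 1) ≤
      (1 + 2 / y) * ∑ i, 1 / ((emb (PS y z ∅) i : ℕ) : ℝ) := by
    rw [Finset.mul_sum]
    apply Finset.sum_le_sum
    intro i _
    have e1 := (PS_mem (by linarith) (emb_mem (PS y z ∅) i)).2.1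
    have hp : 0 < ((emb (PS y z ∅) i : ℕ) : ℝ) := by linarith
    have hp1 : 0 < ((emb (PS y z ∅) i : ℕ) : ℝ) - 1 := by linarith
    rw [mul_one_div, div_le_div_iff₀ hp1 hp]
    have e2 : 2 / y * y = 2 := by field_simp
    have e3 : 2 / y * y ≤ 2 / y * ((emb (PS y z ∅) i : ℕ) : ℝ) :=
      mul_le_mul_of_nonneg_left e1.le (by positivity)
    have e4 : 2 / y ≤ 1 := by rw [div_le_one (by linarith)]; exact hy2
    nlinarith
  have h4 : (2 / y) * ∑ i, 1 / ((emb (PS y z ∅) i : ℕ) : ℝ) ≤ 1 := by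
    have e1 : ∑ i, 1 / ((emb (PS y z ∅) i : ℕ) : ℝ) ≤ 11 / 10 * e := by linarith
    have e2 : (2 / y) * ∑ i, 1 / ((emb (PS y z ∅) i : ℕ) : ℝ) ≤ (2 / y) * (11 / 10 * e) :=
      mul_le_mul_of_nonneg_left e1 (by positivity)
    refine e2.trans ?_
    rw [div_mul_eq_mul_div, div_le_one (by linarith)]
    linarith
  linarith

end Pool.Agent.K4H19.FQ
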