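import Pool.Agent.K4H19.FQ.MBV

set_option autoImplicit false
set_option linter.unusedSectionVars false

/-! # The covering sieve for a weighted set, with errors summable over the moduli -/

namespace Pool.Agent.K4H19.FQ

open Finset Pool.Agent.H256R2.SC Pool.Agent.Y831.RC

variable {n₁ n₂ : ℕ} {κ : Type} [Fintype κ] [DecidableEq κ]

/-- the coefficient bound of the weight `V` -/
noncomputable def MG (U T MR : ℝ) (r JR J₂ : ℕ) : ℝ :=
  U ^ J₂ * (Real.exp 1 * T ^ J₂ * (4 ^ (r * (r * JR)) * MR ^ r))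

/-- the coefficient bound of the test function -/
noncomputable def MF (u U T MR : ℝ) (r JR J₂ J : ℕ) : ℝ :=
  4 ^ ((r * JR + J₂ + (r * JR + J₂)) + (JR + J)) *
    ((4 ^ (r * JR + J₂ + (r * JR + J₂)) * (MG U T MR r JR J₂ * MG U T MR r JR J₂)) *
      (1 + u * (4 ^ (JR + J) * (MR * 2))))

theorem core6 {α : Type} [DecidableEq α] (𝒜 : Finset α) (ω : α → ℝ) (hω : ∀ a ∈ 𝒜, 0 ≤ ω a)
    (col : α → Col (n₁ + n₂) κ) (P₁ : Fin n₁ → ℝ) (hP₁ : ∀ i, 1 ≤ P₁ i)
    {p g₂ : Fin n₂ → ℝ} {h : Finset (Fin n₂) → ℝ} {z K v₀ : ℝ} (H : HypS p g₂ h z K v₀)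
    (g₁ : Fin n₁ → ℝ) (R : κ → Col n₁ κ → ℝ) (m τ : ℝ) (HR : BHyp g₁ R m τ)
    (hτ0 : 0 ≤ τ) (hτ1 : τ ≤ 1) (MR QR : ℝ) (JR : ℕ) (hMR : 1 ≤ MR) (hQR : 1 ≤ QR)
    (hRL : ∀ k, MB P₁ MR QR JR (R k))
    (Q δ N η R₂ b T U QT : ℝ) (J m₀ r J₂ : ℕ) (hJ : Even J) (hm₀ : m₀ ≤ J)
    (hN : 0 < N) (hQz : 1 ≤ Q) (hη0 : 0 < η) (hη1 : η ≤ 1)
    (hg₁ : ∀ i, 0 ≤ g₁ i) (hg₁u : ∀ i, (Fintype.card κ : ℝ) * g₁ i ≤ 1 / 2)
    (hρ1 : 0 ≤ rho g₁ 1)
    (htg : ∀ i, 3 * 3 * g₂ i ≤ 1)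
    (hug : ∀ i, (Fintype.card κ : ℝ) * g₂ i ≤ 1)
    (hδ : ∀ D : Col n₂ κ, qq p D ≤ Q → 2 * ∑ i with D i ≠ none, g₂ i ≤ δ)
    (hug4 : (Fintype.card κ : ℝ) * δ ≤ 1 / 4)
    (hr : Real.log Q / v₀ ≤ r) (hrm : (r:ℝ) + 1 ≤ m) (hR₂ : 1 ≤ R₂)
    (hcard : ∀ s, h s ≠ 0 → s.card ≤ m₀)
    (hE8 : Real.exp (η * ((1 + η) * (Fintype.card κ : ℝ) *
      (rho g₁ 1 * K) / Real.log z - Real.log (Q / z) / Real.log z)) ≤ 1 / 8)
    (htail : 4 * ((Fintype.card κ : ℝ) * rho g₁ 1) * (τ + (δ ^ 2 +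
      Real.exp (η * ((1 + η) * (Fintype.card κ : ℝ) *
      (rho g₁ 1 * K) / Real.log z - Real.log (Q / z) / Real.log z)))) ≤ 1 / 12)
    (hmom : 2 * ((Fintype.card κ : ℝ) * rho g₁ 1) * ((1 / 3) ^ J *
      Real.exp (20 * ∑ i, g₂ i)) ≤ 1 / 12)
    (hpen : 2 * ((Fintype.card κ : ℝ) * rho g₁ 1) * Real.exp (20 * ∑ i, g₂ i) ≤ R₂ / 12)
    (hJ₂ : ∀ D : Col n₂ κ, qq p D ≤ Q → (Pool.Agent.H256R2.SC.supp D).card ≤ J₂)
    (hT1 : 1 ≤ T) (hT : (Fintype.card κ : ℝ) * ∑ i, g₂ i ≤ T) (hU1 : 1 ≤ U)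
    (hU : (Fintype.card κ : ℝ) ≤ U) (hb : 1 ≤ b) (hpb : ∀ i, p i ≤ b)
    (hQT : (QR ^ r * Q) * (QR ^ r * Q) * (QR * b ^ J) ≤ QT)
    (Er : Finset (Fin (n₁ + n₂)) → ℝ) (hEr : ∀ s, 0 ≤ Er s)
    (hcnt : ∀ D : Col (n₁ + n₂) κ, qq (Fin.append P₁ p) D ≤ QT →
      |∑ a ∈ 𝒜 with (∀ i, D i ≠ none → col a i = D i), ω a -
        N * nu (Fin.append g₁ g₂) D| ≤ Er (Pool.Agent.H256R2.SC.supp D))
    (hfin : MF (Fintype.card κ) U T MR r JR J₂ J *
      ∑ s : Finset (Fin (n₁ + n₂)) with ∏ i ∈ s, (Fin.append P₁ p) i ≤ QT, Er s ≤ N / 8) :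
    3 / 8 * N ≤ (∑ a ∈ 𝒜 with (∀ k, ∃ i, col a i = some k), ω a) *
      (3 * (1 + 3 * Real.exp (∑ i, g₂ i) * ((J : ℝ) + 2) ^ (2 * J) * (R₂ + 1)) ^ r) ^ 2 := by
  set u : ℝ := (Fintype.card κ : ℝ) with hu
  have hu0 : 0 ≤ u := Nat.cast_nonneg _
  have hQ0 : 0 < Q := by linarith
  have hz0 : 0 < z := by linarith [H.z1]
  have hw : ∀ i (c : Option κ), 0 ≤ wt (g₂ i) c := fun i c => wt_nonneg (H.g0 i).le (hug i) c
  have hw₁ : ∀ i (c : Option κ), 0 ≤ wt (g₁ i) c := fun i c =>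
    wt_nonneg (hg₁ i) (by linarith [hg₁u i]) c
  set E : ℝ := Real.exp (η * ((1 + η) * u * (rho g₁ 1 * K) / Real.log z -
    Real.log (Q / z) / Real.log z)) with hE
  set Z : ℝ := Zw (om g₁ : Col n₂ κ → ℝ) g₂ h with hZ
  have hZ1 : 1 ≤ Z := Zw_ge_one H hg₁ hg₁u
  have hE0 : 0 < E := Real.exp_pos _
  have hp1 : ∀ i, 1 ≤ p i := fun i => (H.p1 i).le
  have hTl : ∑ D : Col n₂ κ with Q / z < qq p D, om g₁ D * ((yy h D) ^ 2 * nu g₂ D) ≤ E * Z :=
    tail_rho H (om g₁) (om_nonneg hg₁ hg₁u) (rho g₁ 1) hρ1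
      (fun D k hD => om_step hg₁ hg₁u D k hD) η hη0 hη1 (Q / z) (by positivity)
  have hT8 : E * Z ≤ 1 / 8 * Z := by nlinarith
  have hm1 : Real.log Q / v₀ + 1 ≤ m := by linarith
  set V : Col n₁ κ → Col n₂ κ → ℝ := V5 g₂ (yT p h Q) R with hV
  have hlow : 3 / 4 * Z ≤ EE g₁ (fun x₁ => EE g₂ (fun x₂ => (V x₁ x₂) ^ 2)) :=
    lower5 H HR hg₁ hg₁u Q δ (E * Z) hug hδ hug4 hQ0 hTl hT8 (by linarith)
  set G : Col (n₁ + n₂) κ → ℝ := fun x => V (fstc x) (sndc x) with hG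
  set B : κ → Col (n₁ + n₂) κ → ℝ := fun k x => R k (fstc x) * (SS J k (sndc x) + 1 / R₂) with hB
  set e20 : ℝ := Real.exp (20 * ∑ i, g₂ i) with he20
  have he0 : 0 < e20 := Real.exp_pos _
  -- the majorants
  have hup : ∀ k, EE (Fin.append g₁ g₂) (fun x => (G x) ^ 2 * B k x) ≤
      4 * rho g₁ 1 * (τ * Z + (δ ^ 2 * Z + E * Z)) + ((1 / 3) ^ J + 1 / R₂) *
        (2 * rho g₁ 1 * e20 * Z) := by
    intro k
    rw [EE_append]
    have h1 := avoid5 H HR hτ0 hτ1 hg₁ hg₁u hρ1 Q δ (E * Z) hug hδ hQ0 hm1 hTl k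
    have h2 := moment5 H HR hτ1 hg₁ hg₁u hρ1 Q hug htg hm1 k
    have h3 : EE g₁ (fun x₁ => EE g₂ (fun x₂ =>
        (G (Fin.append x₁ x₂)) ^ 2 * B k (Fin.append x₁ x₂))) ≤
        EE g₁ (fun x₁ : Col n₁ κ => EE g₂ (fun x₂ : Col n₂ κ =>
          R k x₁ * ((if (∀ i, x₂ i ≠ some k) then 1 else 0) * (V x₁ x₂) ^ 2)) +
          ((1 / 3) ^ J + 1 / R₂) * EE g₂ (fun x₂ : Col n₂ κ => R k x₁ *
            ((∏ i, if x₂ i = some k then (1:ℝ) + 3 else 1) * (V x₁ x₂) ^ 2))) := by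
      apply EE_mono hw₁
      intro x₁
      rw [← EE_smul, ← EE_add]
      apply EE_mono hw
      intro x₂
      have h4 := SS_upper J hJ 3 (by norm_num) k x₂
      have h6 : G (Fin.append x₁ x₂) = V x₁ x₂ := by
        simp only [hG]
        rw [fstc_append, sndc_append]
      have h6' : B k (Fin.append x₁ x₂) = R k x₁ * (SS J k x₂ + 1 / R₂) := by
        simp only [hB]
        rw [fstc_append, sndc_append]
      rw [h6, h6']
      have h8 : (1:ℝ) ≤ ∏ i, if x₂ i = some k then (1:ℝ) + 3 else 1 := by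
        have e0 : (1:ℝ) = ∏ _i : Fin n₂, (1:ℝ) := by simp
        refine le_trans (le_of_eq e0) ?_
        apply Finset.prod_le_prod (fun _ _ => zero_le_one)
        intro i _
        split_ifs <;> norm_num
      have h9 : 0 ≤ 1 / R₂ := by positivity
      have h10 : SS J k x₂ + 1 / R₂ ≤ (if ∀ i, x₂ i ≠ some k then (1 : ℝ) else 0) +
          ((1 / 3) ^ J + 1 / R₂) * ∏ i, (if x₂ i = some k then 1 + 3 else 1) := by
        have := mul_le_mul_of_nonneg_left h8 h9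
        nlinarith
      have h11 : 0 ≤ R k x₁ * (V x₁ x₂) ^ 2 := mul_nonneg (HR.nn k x₁) (sq_nonneg _)
      have h7 := mul_le_mul_of_nonneg_left h10 h11
      refine le_trans (le_of_eq ?_) (h7.trans (le_of_eq ?_))
      · ring
      · ring
    refine h3.trans ?_
    rw [EE_add, EE_smul]
    have h9 := mul_le_mul_of_nonneg_left h2 (show (0:ℝ) ≤ (1 / 3) ^ J + 1 / R₂ by positivity)
    exact add_le_add h1 h9
  set F : Col (n₁ + n₂) κ → ℝ := fun x => G x ^ 2 * (1 - ∑ k, B k x) with hF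
  have hEF : Z / 2 ≤ EE (Fin.append g₁ g₂) F := by
    have e1 : EE (Fin.append g₁ g₂) F = EE (Fin.append g₁ g₂) (fun x => (G x) ^ 2) -
        ∑ k, EE (Fin.append g₁ g₂) (fun x => (G x) ^ 2 * B k x) := by
      rw [← EE_sum, ← EE_sub]
      congr 1
      funext x
      rw [hF]
      simp only
      rw [← Finset.mul_sum]
      ring
    have e0 : EE (Fin.append g₁ g₂) (fun x => (G x) ^ 2) =
        EE g₁ (fun x₁ => EE g₂ (fun x₂ => (V x₁ x₂) ^ 2)) := by
      rw [EE_append]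
      simp only [hG, fstc_append, sndc_append]
    rw [e1, e0]
    have e2 : ∑ k : κ, EE (Fin.append g₁ g₂) (fun x => (G x) ^ 2 * B k x) ≤
        u * (4 * rho g₁ 1 * (τ * Z + (δ ^ 2 * Z + E * Z)) + ((1 / 3) ^ J + 1 / R₂) *
        (2 * rho g₁ 1 * e20 * Z)) := by
      refine (Finset.sum_le_sum (fun k _ => hup k)).trans ?_
      rw [Finset.sum_const, Finset.card_univ, nsmul_eq_mul]
    have hZ0 : 0 ≤ Z := by linarith
    have e3 : u * (4 * rho g₁ 1 * (τ * Z + (δ ^ 2 * Z + E * Z))) ≤ 1 / 12 * Z := by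
      have := mul_le_mul_of_nonneg_right htail hZ0
      linarith
    have e4 : u * ((1 / 3) ^ J * (2 * rho g₁ 1 * e20 * Z)) ≤ 1 / 12 * Z := by
      have := mul_le_mul_of_nonneg_right hmom hZ0
      linarith
    have e5 : u * (1 / R₂ * (2 * rho g₁ 1 * e20 * Z)) ≤ 1 / 12 * Z := by
      have h0 : 2 * (u * rho g₁ 1) * e20 * (1 / R₂) ≤ R₂ / 12 * (1 / R₂) :=
        mul_le_mul_of_nonneg_right hpen (by positivity)
      have h1 : R₂ / 12 * (1 / R₂) = 1 / 12 := by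
        have : R₂ ≠ 0 := by positivity
        field_simp
      rw [h1] at h0
      have := mul_le_mul_of_nonneg_right h0 hZ0
      linarith
    nlinarith
  have hyy1 : ∀ D : Col n₂ κ, |yT p h Q D| ≤ 1 := by
    intro D
    unfold yT
    split_ifs
    · exact yy_abs_le H.h0 H.h1 D
    · simp
  have hyq : ∀ D : Col n₂ κ, yT p h Q D ≠ 0 → qq p D ≤ Q := by
    intro D hD
    by_contra hc
    exact hD (by unfold yT; rw [if_neg hc])
  have hcolr : ∀ D : Col n₂ κ, yT p h Q D ≠ 0 → (cols D).card ≤ r := by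
    intro D hD
    have := (card_cols H Q D hD).trans hr
    exact_mod_cast this
  have hPa : ∀ i, 1 ≤ (Fin.append P₁ p) i := by
    intro i
    refine Fin.addCases (fun j => ?_) (fun j => ?_) i
    · rw [Fin.append_left]
      exact hP₁ j
    · rw [Fin.append_right]
      exact hp1 j
  have hGM : MB (Fin.append P₁ p) (MG U T MR r JR J₂) (QR ^ r * Q) (r * JR + J₂) G :=
    MB_V5 P₁ hP₁ p hp1 g₂ (fun i => (H.g0 i).le) (yT p h Q) hyy1 Q hyq J₂
      (fun D hD => hJ₂ D (hyq D hD)) R MR QR JR hMR hQR hRL r hcolr T U hT1 hT hU1 hU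
  have hbJ : 1 ≤ b ^ J := one_le_pow₀ hb
  have hQB : 1 ≤ QR * b ^ J := by nlinarith
  have hSM : MB (Fin.append P₁ p) (1 + u * (4 ^ (JR + J) * (MR * 2))) (QR * b ^ J) (JR + J)
      (fun x : Col (n₁ + n₂) κ => 1 - ∑ k, B k x) := by
    have e1 : MB (Fin.append P₁ p) 1 (QR * b ^ J) (JR + J) (fun _ : Col (n₁ + n₂) κ => (1:ℝ)) := by
      have := MB_const (n := n₁ + n₂) (κ := κ) (Fin.append P₁ p) 1 (QR * b ^ J) (JR + J) hQB
      simpa using this
    have eB : ∀ k, MB (Fin.append P₁ p) (4 ^ (JR + J) * (MR * 2)) (QR * b ^ J) (JR + J) (B k) := by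
      intro k
      have e3 : MB (Fin.append P₁ p) 2 (b ^ J) J
          (fun x : Col (n₁ + n₂) κ => SS J k (sndc x) + 1 / R₂) := by
        have e4 : MB (Fin.append P₁ p) 1 (b ^ J) J (fun x : Col (n₁ + n₂) κ => SS J k (sndc x)) :=
          MB_snd hP₁ hp1 (MB_SS p b hb hp1 hpb J k)
        have e5 : MB (Fin.append P₁ p) 1 (b ^ J) J (fun _ : Col (n₁ + n₂) κ => 1 / R₂) := by
          have := MB_const (n := n₁ + n₂) (κ := κ) (Fin.append P₁ p) (1 / R₂) (b ^ J) J hbJ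
          refine MB_mono ?_ le_rfl le_rfl this
          rw [abs_of_nonneg (by positivity)]
          rw [div_le_one (by linarith)]
          exact hR₂
        have e6 := MB_add e4 e5
        refine MB_mono (by norm_num) le_rfl le_rfl e6
      exact MB_mul hPa (MB_fst hP₁ hp1 (hRL k)) e3
    have e2 := MB_sum (n := n₁ + n₂) (univ : Finset κ) (fun _ => 4 ^ (JR + J) * (MR * 2))
      (fun k => B k) (fun k _ => eB k)
    have e3 := MB_sub e1 e2
    refine MB_mono (le_of_eq ?_) le_rfl le_rfl e3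
    rw [Finset.sum_const, Finset.card_univ, nsmul_eq_mul]
  have hFM : MB (Fin.append P₁ p) (MF u U T MR r JR J₂ J) QT
      ((r * JR + J₂ + (r * JR + J₂)) + (JR + J)) F := by
    have e1 := MB_mul hPa (MB_mul hPa hGM hGM) hSM
    have e2 : F = fun x => G x * G x * (1 - ∑ k, B k x) := by
      rw [hF]; funext x; ring
    rw [e2]
    exact MB_mono (le_of_eq rfl) hQT le_rfl e1
  have htr := transfer_MB 𝒜 ω col (Fin.append P₁ p) (Fin.append g₁ g₂) N _ QT _ Er hEr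
    (fun D hD _ => hcnt D hD) F hFM
  have hMF0 : 0 ≤ MF u U T MR r JR J₂ J := MB_nn hFM
  have hpos : 3 / 8 * N ≤ ∑ a ∈ 𝒜, ω a * F (col a) := by
    have e1 := (abs_le.mp htr).1
    have e2 : N / 2 ≤ N * EE (Fin.append g₁ g₂) F := by nlinarith
    have e3 : MF u U T MR r JR J₂ J * ∑ s : Finset (Fin (n₁ + n₂)) with
        ∏ i ∈ s, (Fin.append P₁ p) i ≤ QT ∧ s.card ≤ (r * JR + J₂ + (r * JR + J₂)) + (JR + J), Er s ≤
        MF u U T MR r JR J₂ J *
      ∑ s : Finset (Fin (n₁ + n₂)) with ∏ i ∈ s, (Fin.append P₁ p) i ≤ QT, Er s := by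
      apply mul_le_mul_of_nonneg_left _ hMF0
      apply Finset.sum_le_sum_of_subset_of_nonneg
      · intro s hs
        rw [Finset.mem_filter] at hs ⊢
        exact ⟨hs.1, hs.2.1⟩
      · intro s _ _
        exact hEr s
    linarith
  set Bd : ℝ := 3 * (1 + 3 * Real.exp (∑ i, g₂ i) * ((J : ℝ) + 2) ^ (2 * J) * (R₂ + 1)) ^ r
    with hBd
  have hpt : ∀ a ∈ 𝒜, ω a * F (col a) ≤
      if (∀ k, ∃ i, col a i = some k) then ω a * Bd ^ 2 else 0 := by
    intro a ha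
    have hωa := hω a ha
    have hV0 : 0 ≤ G (col a) ^ 2 := sq_nonneg _
    have hSS0 : ∀ l, 0 ≤ SS J l (sndc (col a)) := by
      intro l
      refine le_trans ?_ (SS_lower J hJ l (sndc (col a)))
      split_ifs <;> norm_num
    have hR0 : ∀ l, 0 ≤ R l (fstc (col a)) := fun l => HR.nn l _
    have hiR : 0 < 1 / R₂ := by positivity
    have hB0 : ∀ l, 0 ≤ B l (col a) := by
      intro l
      simp only [hB]
      have := hSS0 l
      exact mul_nonneg (hR0 l) (by linarith)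
    by_cases h1 : 1 ≤ ∑ k, B k (col a)
    · have h2 : F (col a) ≤ 0 := mul_nonpos_of_nonneg_of_nonpos hV0 (by linarith)
      have h3 : ω a * F (col a) ≤ 0 := mul_nonpos_of_nonneg_of_nonpos hωa h2
      refine h3.trans ?_
      split_ifs
      · exact mul_nonneg hωa (sq_nonneg _)
      · exact le_rfl
    · push Not at h1
      have hk1 : ∀ k, B k (col a) < 1 := fun k =>
        lt_of_le_of_lt (Finset.single_le_sum (fun l _ => hB0 l) (Finset.mem_univ k)) h1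
      have hall : ∀ k, ∃ i, col a i = some k := by
        intro k
        by_contra hk
        push Not at hk
        have h3 := SS_lower J hJ k (sndc (col a))
        have hk2 : ∀ i, sndc (col a) i ≠ some k := fun i => hk (Fin.natAdd n₁ i)
        rw [if_pos hk2] at h3
        have h4 : R k (fstc (col a)) = 1 := HR.one k _ (fun i => hk (Fin.castAdd n₂ i))
        have h5 := hk1 k
        simp only [hB] at h5
        rw [h4] at h5
        linarith
      rw [if_pos hall]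
      have hs1 : ∑ k, R k (fstc (col a)) * SS J k (sndc (col a)) ≤ 1 := by
        refine le_trans (Finset.sum_le_sum fun k _ => ?_) h1.le
        simp only [hB]
        exact mul_le_mul_of_nonneg_left (by linarith) (hR0 k)
      have hs2 : ∑ k, R k (fstc (col a)) ≤ R₂ := by
        have e1 : (1 / R₂) * ∑ k, R k (fstc (col a)) ≤ 1 := by
          rw [Finset.mul_sum]
          refine le_trans (Finset.sum_le_sum fun k _ => ?_) h1.le
          simp only [hB]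
          rw [mul_comm]
          exact mul_le_mul_of_nonneg_left (by linarith [hSS0 k]) (hR0 k)
        have e2 := mul_le_mul_of_nonneg_left e1 (show (0:ℝ) ≤ R₂ by linarith)
        have e3 : R₂ * (1 / R₂ * ∑ k, R k (fstc (col a))) = ∑ k, R k (fstc (col a)) := by
          have : R₂ ≠ 0 := by positivity
          field_simp
        rw [e3, mul_one] at e2
        exact e2
      have hVb : |G (col a)| ≤ Bd := by
        rw [hBd]
        refine V5_le g₂ (fun i => (H.g0 i).le) (yT p h Q) hyy1 R J m₀ r hJ hm₀ ?_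
          (fstc (col a)) (sndc (col a)) hR0 R₂ hs2 hs1
        intro D hD
        refine ⟨hcolr D hD, fun k => ?_⟩
        by_cases hf : (fib D k).Nonempty
        · apply hcard
          intro h0
          apply hD
          unfold yT
          split_ifs
          · unfold yy
            apply Finset.prod_eq_zero (Finset.mem_univ k)
            unfold al
            rw [if_neg hf.ne_empty, h0]
            simp
          · rfl
        · rw [Finset.not_nonempty_iff_eq_empty] at hf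
          rw [hf, Finset.card_empty]
          exact Nat.zero_le _
      have h7 : G (col a) ^ 2 ≤ Bd ^ 2 := by
        rw [← sq_abs]
        exact pow_le_pow_left₀ (abs_nonneg _) hVb 2
      have h8 : 0 ≤ ∑ k, B k (col a) := Finset.sum_nonneg fun k _ => hB0 k
      apply mul_le_mul_of_nonneg_left _ hωa
      calc F (col a) = G (col a) ^ 2 * (1 - ∑ k, B k (col a)) := rfl
        _ ≤ G (col a) ^ 2 * 1 := mul_le_mul_of_nonneg_left (by linarith) hV0
        _ ≤ Bd ^ 2 := by linarith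
  refine hpos.trans ((Finset.sum_le_sum hpt).trans (le_of_eq ?_))
  rw [← Finset.sum_filter, ← Finset.sum_mul]

end Pool.Agent.K4H19.FQ
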