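import Pool.Agent.K4H19.FQ.Core6
import Pool.Agent.K4H19.FQ.Blk6

set_option autoImplicit false
set_option linter.unusedSectionVars false
set_option linter.unusedVariables false

/-! # Parameter inequalities for the weighted covering theorem -/

namespace Pool.Agent.K4H19.FQ

open Filter Pool.Agent.Y831.RC

theorem four_pow_le (n : ℕ) (x : ℝ) (h : (n:ℝ) ≤ x) : (4:ℝ) ^ n ≤ Real.exp (2 * x) := by
  have h1 : (4:ℝ) ≤ Real.exp 2 := by
    have e1 := Real.exp_one_gt_d9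
    have e2 : Real.exp 2 = Real.exp 1 * Real.exp 1 := by rw [← Real.exp_add]; norm_num
    have e3 : (2:ℝ) ≤ Real.exp 1 := by linarith
    rw [e2]
    nlinarith
  calc (4:ℝ) ^ n ≤ (Real.exp 2) ^ n := pow_le_pow_left₀ (by norm_num) h1 n
    _ = Real.exp (n * 2) := by rw [← Real.exp_nat_mul]
    _ ≤ Real.exp (2 * x) := Real.exp_le_exp.2 (by linarith)

theorem nB_le (w y L : ℝ) (hL : 1 ≤ L) (hl : 1 ≤ Real.log L) (hw : 1 ≤ Real.log w)
    (hy0 : 0 ≤ Real.log y) (hy : Real.log y ≤ L) : (nB w y : ℝ) ≤ 3 * Real.log L := by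
  unfold nB
  have h1 : (Nat.log 2 ⌊Real.log y / Real.log w⌋₊ : ℝ) ≤ 2 * Real.log L := by
    by_cases hm : ⌊Real.log y / Real.log w⌋₊ = 0
    · rw [hm]
      simp
      linarith
    · have h2 : 2 ^ Nat.log 2 ⌊Real.log y / Real.log w⌋₊ ≤ ⌊Real.log y / Real.log w⌋₊ :=
        Nat.pow_log_le_self 2 hm
      have h3 : (2:ℝ) ^ Nat.log 2 ⌊Real.log y / Real.log w⌋₊ ≤ L := by
        calc (2:ℝ) ^ Nat.log 2 ⌊Real.log y / Real.log w⌋₊ ≤ (⌊Real.log y / Real.log w⌋₊ : ℝ) := by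
              exact_mod_cast h2
          _ ≤ Real.log y / Real.log w := Nat.floor_le (by positivity)
          _ ≤ Real.log y := div_le_self hy0 hw
          _ ≤ L := hy
      have h4 := Real.log_le_log (by positivity) h3
      rw [Real.log_pow] at h4
      have h5 := Real.log_two_gt_d9
      have h6 : (0:ℝ) ≤ (Nat.log 2 ⌊Real.log y / Real.log w⌋₊ : ℝ) := Nat.cast_nonneg _
      nlinarith
  push_cast
  linarith

theorem p_JR (nb b₀ : ℕ) (l e : ℝ) (hl : 1 ≤ l) (hnb : (nb:ℝ) ≤ 3 * l) (hb₀ : (b₀:ℝ) ≤ 5 * e)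
    (hel : e ≤ l) : ((nb * (b₀ + nb) : ℕ) : ℝ) ≤ 24 * l ^ 2 := by
  push_cast
  have h0 : (0:ℝ) ≤ nb := Nat.cast_nonneg _
  have h1 : (b₀:ℝ) + nb ≤ 8 * l := by linarith
  calc (nb:ℝ) * (b₀ + nb) ≤ 3 * l * (8 * l) := mul_le_mul hnb h1 (by positivity) (by linarith)
    _ = 24 * l ^ 2 := by ring

/-- the coefficient bound -/
theorem MF_le (u L l E : ℝ) (nb JR r J₂ J : ℕ) (hL1 : 1 ≤ L) (hLl : L = Real.exp l) (hl : 1 ≤ l)
    (hE : 1 ≤ E) (hu0 : 0 ≤ u) (hu : u ≤ L ^ 2) (hnb : (nb:ℝ) ≤ 3 * l)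
    (hJR : (JR:ℝ) ≤ 24 * l ^ 2) (hr : (r:ℝ) ≤ E) (hJ₂ : (J₂:ℝ) ≤ E * l ^ 2)
    (hJ : (J:ℝ) ≤ 31 * l) :
    MF u (L ^ 2) (L ^ 3) (4 ^ (nb * JR)) r JR J₂ J ≤ Real.exp (1000 * (E ^ 2 * l ^ 3)) := by
  have hE0 : 0 ≤ E := by linarith
  have hl0 : 0 ≤ l := by linarith
  have hl2 : 1 ≤ l ^ 2 := one_le_pow₀ hl
  have hl3 : 1 ≤ l ^ 3 := one_le_pow₀ hl
  have hl12 : l ≤ l ^ 2 := by nlinarith
  have hl23 : l ^ 2 ≤ l ^ 3 := by nlinarith
  have hE2 : E ≤ E ^ 2 := by nlinarith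
  have hE21 : 1 ≤ E ^ 2 := one_le_pow₀ hE
  have hEl3 : E * l ^ 3 ≤ E ^ 2 * l ^ 3 := mul_le_mul_of_nonneg_right hE2 (by positivity)
  have hE2l : E ^ 2 * l ^ 2 ≤ E ^ 2 * l ^ 3 := mul_le_mul_of_nonneg_left hl23 (by positivity)
  have hEl2 : E * l ^ 2 ≤ E ^ 2 * l ^ 3 :=
    (mul_le_mul_of_nonneg_left hl23 hE0).trans hEl3
  have h1El : (1:ℝ) ≤ E ^ 2 * l ^ 3 := by nlinarith
  have hl3E : l ^ 3 ≤ E ^ 2 * l ^ 3 := by nlinarith
  have hl2E : l ^ 2 ≤ E ^ 2 * l ^ 3 := by linarith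
  -- the factors
  have hMR : ((nb * JR : ℕ) : ℝ) ≤ 72 * l ^ 3 := by
    push_cast
    calc (nb:ℝ) * JR ≤ 3 * l * (24 * l ^ 2) := mul_le_mul hnb hJR (by positivity) (by linarith)
      _ = 72 * l ^ 3 := by ring
  have hMR' : (4:ℝ) ^ (nb * JR) ≤ Real.exp (144 * l ^ 3) := by
    have := four_pow_le (nb * JR) (72 * l ^ 3) hMR
    refine this.trans (le_of_eq ?_)
    congr 1
    ring
  have hrJR : ((r * JR : ℕ) : ℝ) ≤ 24 * (E * l ^ 2) := by
    push_cast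
    calc (r:ℝ) * JR ≤ E * (24 * l ^ 2) := mul_le_mul hr hJR (by positivity) hE0
      _ = _ := by ring
  have hrrJR : ((r * (r * JR) : ℕ) : ℝ) ≤ 24 * (E ^ 2 * l ^ 2) := by
    push_cast at hrJR ⊢
    calc (r:ℝ) * (r * JR) ≤ E * (24 * (E * l ^ 2)) := mul_le_mul hr hrJR (by positivity) hE0
      _ = _ := by ring
  have hMG : MG (L ^ 2) (L ^ 3) (4 ^ (nb * JR)) r JR J₂ ≤ Real.exp (200 * (E ^ 2 * l ^ 3)) := by
    unfold MG
    have e1 : (L ^ 2) ^ J₂ ≤ Real.exp (2 * (E ^ 2 * l ^ 3)) := by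
      rw [hLl, ← Real.exp_nat_mul, ← Real.exp_nat_mul]
      apply Real.exp_le_exp.2
      push_cast
      have : (J₂:ℝ) * l ≤ E * l ^ 2 * l := mul_le_mul_of_nonneg_right hJ₂ hl0
      nlinarith
    have e2 : (L ^ 3) ^ J₂ ≤ Real.exp (3 * (E ^ 2 * l ^ 3)) := by
      rw [hLl, ← Real.exp_nat_mul, ← Real.exp_nat_mul]
      apply Real.exp_le_exp.2
      push_cast
      have : (J₂:ℝ) * l ≤ E * l ^ 2 * l := mul_le_mul_of_nonneg_right hJ₂ hl0
      nlinarith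
    have e3 : (4:ℝ) ^ (r * (r * JR)) ≤ Real.exp (48 * (E ^ 2 * l ^ 3)) := by
      refine (four_pow_le _ _ hrrJR).trans ?_
      apply Real.exp_le_exp.2
      linarith
    have e4 : ((4:ℝ) ^ (nb * JR)) ^ r ≤ Real.exp (144 * (E ^ 2 * l ^ 3)) := by
      calc ((4:ℝ) ^ (nb * JR)) ^ r ≤ (Real.exp (144 * l ^ 3)) ^ r :=
            pow_le_pow_left₀ (by positivity) hMR' r
        _ = Real.exp (r * (144 * l ^ 3)) := by rw [← Real.exp_nat_mul]
        _ ≤ _ := by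
            apply Real.exp_le_exp.2
            calc (r:ℝ) * (144 * l ^ 3) ≤ E * (144 * l ^ 3) :=
                  mul_le_mul_of_nonneg_right hr (by positivity)
              _ ≤ _ := by linarith
    calc (L ^ 2) ^ J₂ * (Real.exp 1 * (L ^ 3) ^ J₂ * (4 ^ (r * (r * JR)) * (4 ^ (nb * JR)) ^ r))
        ≤ Real.exp (2 * (E ^ 2 * l ^ 3)) * (Real.exp 1 * Real.exp (3 * (E ^ 2 * l ^ 3)) *
          (Real.exp (48 * (E ^ 2 * l ^ 3)) * Real.exp (144 * (E ^ 2 * l ^ 3)))) := by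
          apply mul_le_mul e1 _ (by positivity) (by positivity)
          apply mul_le_mul _ _ (by positivity) (by positivity)
          · exact mul_le_mul_of_nonneg_left e2 (by positivity)
          · exact mul_le_mul e3 e4 (by positivity) (by positivity)
      _ = Real.exp (1 + 197 * (E ^ 2 * l ^ 3)) := by
          rw [← Real.exp_add, ← Real.exp_add, ← Real.exp_add, ← Real.exp_add]
          congr 1
          ring
      _ ≤ _ := Real.exp_le_exp.2 (by linarith)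
  have hMG0 : 0 ≤ MG (L ^ 2) (L ^ 3) (4 ^ (nb * JR)) r JR J₂ := by
    unfold MG
    positivity
  have hS : ((r * JR + J₂ : ℕ) : ℝ) ≤ 25 * (E * l ^ 2) := by
    push_cast at hrJR ⊢
    linarith
  have hJJ : ((JR + J : ℕ) : ℝ) ≤ 55 * l ^ 2 := by
    push_cast
    linarith
  have f1 : (4:ℝ) ^ ((r * JR + J₂ + (r * JR + J₂)) + (JR + J)) ≤
      Real.exp (210 * (E ^ 2 * l ^ 3)) := by
    refine (four_pow_le _ (50 * (E * l ^ 2) + 55 * l ^ 2) ?_).trans ?_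
    · push_cast at hS hJJ ⊢
      linarith
    · apply Real.exp_le_exp.2
      linarith
  have f2 : (4:ℝ) ^ (r * JR + J₂ + (r * JR + J₂)) ≤ Real.exp (100 * (E ^ 2 * l ^ 3)) := by
    refine (four_pow_le _ (50 * (E * l ^ 2)) ?_).trans ?_
    · push_cast at hS ⊢
      linarith
    · apply Real.exp_le_exp.2
      linarith
  have f3 : 1 + u * (4 ^ (JR + J) * (4 ^ (nb * JR) * 2)) ≤ Real.exp (258 * (E ^ 2 * l ^ 3)) := by
    have g1 : (4:ℝ) ^ (JR + J) ≤ Real.exp (110 * l ^ 2) := by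
      refine (four_pow_le _ _ hJJ).trans (le_of_eq ?_)
      congr 1
      ring
    have g2 : u ≤ Real.exp (2 * l) := by
      refine hu.trans (le_of_eq ?_)
      rw [hLl, ← Real.exp_nat_mul]
      push_cast
      rfl
    have g3 : (2:ℝ) ≤ Real.exp 1 := by
      have := Real.exp_one_gt_d9
      linarith
    have g4 : u * (4 ^ (JR + J) * (4 ^ (nb * JR) * 2)) ≤
        Real.exp (2 * l) * (Real.exp (110 * l ^ 2) * (Real.exp (144 * l ^ 3) * Real.exp 1)) := by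
      apply mul_le_mul g2 _ (by positivity) (by positivity)
      apply mul_le_mul g1 _ (by positivity) (by positivity)
      exact mul_le_mul hMR' g3 (by positivity) (by positivity)
    have g5 : Real.exp (2 * l) * (Real.exp (110 * l ^ 2) * (Real.exp (144 * l ^ 3) * Real.exp 1)) =
        Real.exp (2 * l + 110 * l ^ 2 + 144 * l ^ 3 + 1) := by
      rw [← Real.exp_add, ← Real.exp_add, ← Real.exp_add]
      congr 1
      ring
    have g6 : 1 ≤ Real.exp (2 * l + 110 * l ^ 2 + 144 * l ^ 3 + 1) :=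
      Real.one_le_exp (by positivity)
    calc 1 + u * (4 ^ (JR + J) * (4 ^ (nb * JR) * 2))
        ≤ 2 * Real.exp (2 * l + 110 * l ^ 2 + 144 * l ^ 3 + 1) := by linarith
      _ ≤ Real.exp 1 * Real.exp (2 * l + 110 * l ^ 2 + 144 * l ^ 3 + 1) :=
          mul_le_mul_of_nonneg_right g3 (Real.exp_pos _).le
      _ = Real.exp (2 * l + 110 * l ^ 2 + 144 * l ^ 3 + 2) := by
          rw [← Real.exp_add]
          congr 1
          ring
      _ ≤ _ := by
          apply Real.exp_le_exp.2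
          linarith
  unfold MF
  calc 4 ^ ((r * JR + J₂ + (r * JR + J₂)) + (JR + J)) *
      ((4 ^ (r * JR + J₂ + (r * JR + J₂)) * (MG (L ^ 2) (L ^ 3) (4 ^ (nb * JR)) r JR J₂ *
        MG (L ^ 2) (L ^ 3) (4 ^ (nb * JR)) r JR J₂)) *
      (1 + u * (4 ^ (JR + J) * (4 ^ (nb * JR) * 2))))
      ≤ Real.exp (210 * (E ^ 2 * l ^ 3)) * ((Real.exp (100 * (E ^ 2 * l ^ 3)) *
        (Real.exp (200 * (E ^ 2 * l ^ 3)) * Real.exp (200 * (E ^ 2 * l ^ 3)))) *
        Real.exp (258 * (E ^ 2 * l ^ 3))) := by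
        apply mul_le_mul f1 _ (by positivity) (by positivity)
        apply mul_le_mul _ f3 (by positivity) (by positivity)
        apply mul_le_mul f2 _ (by positivity) (by positivity)
        exact mul_le_mul hMG hMG hMG0 (by positivity)
    _ = Real.exp (968 * (E ^ 2 * l ^ 3)) := by
        rw [← Real.exp_add, ← Real.exp_add, ← Real.exp_add, ← Real.exp_add]
        congr 1
        ring
    _ ≤ _ := Real.exp_le_exp.2 (by linarith)

variable {L e ε Y Z : ℝ}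

theorem p_δ6 (hε : 0 < ε) (hε4 : ε ≤ 1 / 4) (hL : 2 ≤ L) (hY1 : 1 ≤ Y)
    (hY : 6 * Real.log L ≤ Y) :
    4 * ((1 / 2 - ε) * L / Y) / Real.exp Y ≤ 1 / L ^ 4 := by
  have hL0 : 0 < L := by linarith
  have h1 := p_pow (L := L) (Y := Y) (by linarith) 6 (by push_cast; exact hY)
  have h2 : 4 * ((1 / 2 - ε) * L / Y) ≤ 2 * L := by
    have h3 : (1 / 2 - ε) * L / Y ≤ (1 / 2 - ε) * L := by
      apply div_le_self _ hY1
      have : 0 ≤ 1 / 2 - ε := by linarith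
      positivity
    nlinarith
  rw [div_le_div_iff₀ (Real.exp_pos _) (by positivity)]
  calc 4 * ((1 / 2 - ε) * L / Y) * L ^ 4 ≤ 2 * L * L ^ 4 :=
        mul_le_mul_of_nonneg_right h2 (by positivity)
    _ ≤ L * L * L ^ 4 := by
        apply mul_le_mul_of_nonneg_right _ (by positivity)
        exact mul_le_mul_of_nonneg_right hL hL0.le
    _ = L ^ 6 := by ring
    _ ≤ Real.exp Y := h1
    _ = 1 * Real.exp Y := (one_mul _).symm

/-- the size of the moduli -/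
theorem p_QT (hε : 0 < ε) (hε4 : ε ≤ 1 / 4) (hL : 2 ≤ L) (he : 300 / ε ≤ e) (he1 : 8 ≤ e)
    (hY : Y = L * Real.exp (-e) / e ^ 2) (hZ : Z = ε ^ 2 * L / (100 * e))
    (b₀ J r : ℕ) (hb₀ : (b₀:ℝ) ≤ 4 * e + 2)
    (hJ : (J:ℝ) ≤ 30 * e + 2) (hr : (r:ℝ) ≤ Real.exp e) :
    ((Real.exp (Y * (2 * b₀ + 4))) ^ r * Real.exp ((1 / 2 - ε) * L)) *
      ((Real.exp (Y * (2 * b₀ + 4))) ^ r * Real.exp ((1 / 2 - ε) * L)) *
      (Real.exp (Y * (2 * b₀ + 4)) * (Real.exp Z) ^ J) ≤ Real.exp ((1 - ε) * L) := by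
  have hL0 : 0 < L := by linarith
  have he0 : 0 < e := by linarith
  have hE := Real.exp_pos e
  have hE1 : 1 ≤ Real.exp e := Real.one_le_exp he0.le
  have hY0 : 0 < Y := by rw [hY]; positivity
  have hZ0 : 0 < Z := by rw [hZ]; positivity
  have hYe : Y * Real.exp e * e = L / e := by
    rw [hY, Real.exp_neg]
    field_simp
  have h1 : Y * (2 * b₀ + 4) ≤ 9 * (Y * e) := by
    have : 2 * (b₀:ℝ) + 4 ≤ 9 * e := by linarith
    calc Y * (2 * b₀ + 4) ≤ Y * (9 * e) := mul_le_mul_of_nonneg_left this hY0.le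
      _ = _ := by ring
  have h1L : Y * (2 * b₀ + 4) ≤ 9 * (L / e) := by
    rw [← hYe]
    have : Y * e ≤ Y * Real.exp e * e := by
      have h2 : 0 ≤ Y * e := by positivity
      nlinarith
    linarith
  have h2 : (r:ℝ) * (Y * (2 * b₀ + 4)) ≤ 9 * (L / e) := by
    have h3 : (0:ℝ) ≤ 9 * (Y * e) := by positivity
    calc (r:ℝ) * (Y * (2 * b₀ + 4)) ≤ Real.exp e * (9 * (Y * e)) :=
          mul_le_mul hr h1 (by positivity) hE.le
      _ = 9 * (L / e) := by rw [← hYe]; ring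
  have h3 : (J:ℝ) * Z ≤ 31 / 100 * (ε ^ 2 * L) := by
    have h4 : (J:ℝ) * Z ≤ 31 * e * Z := mul_le_mul_of_nonneg_right (by linarith) hZ0.le
    refine h4.trans (le_of_eq ?_)
    rw [hZ]
    field_simp
  rw [← Real.exp_nat_mul, ← Real.exp_nat_mul, ← Real.exp_add, ← Real.exp_add, ← Real.exp_add,
    ← Real.exp_add]
  apply Real.exp_le_exp.2
  have e1 : 300 ≤ e * ε := by rw [div_le_iff₀ hε] at he; exact he
  have e2 : L / e ≤ ε / 300 * L := by
    rw [div_le_iff₀ he0]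
    nlinarith
  have e6 : ε ^ 2 * L ≤ ε / 4 * L := by
    apply mul_le_mul_of_nonneg_right _ hL0.le
    nlinarith
  have e7 : 0 < ε * L := by positivity
  nlinarith

end Pool.Agent.K4H19.FQ
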