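import Pool.Agent.K4H19.FQ.Cover6
import Pool.Agent.K4H19.FQ.Par7

set_option autoImplicit false
set_option linter.unusedSectionVars false
set_option linter.unusedVariables false

/-! # The covering theorem for weighted sets of integers: choice of the parameters -/

namespace Pool.Agent.K4H19.FQ

open Finset Filter Pool.Agent.H256R2.SC Pool.Agent.Y831.RC

open scoped Classical

theorem QS_mono {w QT QT' : ℝ} {ps : ℕ} (h : QT ≤ QT') : QS w QT ps ⊆ QS w QT' ps := by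
  intro q hq
  unfold QS at hq ⊢
  rw [Finset.mem_filter, Finset.mem_Icc] at hq ⊢
  exact ⟨⟨hq.1.1, hq.1.2.trans (Nat.floor_le_floor h)⟩, hq.2⟩

theorem cov6_at (ε c C CR C₁ K₀ M₀ : ℝ) (hε : 0 < ε) (hε4 : ε ≤ 1 / 8) (hc : 0 < c) (hC : 0 < C)
    (hC₁ : 0 < C₁) (hCR0 : 0 ≤ CR)
    (hWb : ∀ y : ℝ, 2 ≤ y → c ≤ WW y * Real.log y ∧ WW y * Real.log y ≤ C)
    (hSR : ∀ a b : ℝ, 2 ≤ a → a ≤ b →
    ∑ p ∈ (Finset.Ioc ⌊a⌋₊ ⌊b⌋₊).filter Nat.Prime, (1 : ℝ) / p ≤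
      Real.log (Real.log b / Real.log a) + CR / Real.log a)
    (hBH : ∀ (w y : ℝ) (b₀ : ℕ) (m τ : ℝ) (κ : Type) [Fintype κ]
    [DecidableEq κ], 12 ≤ w → C₁ ≤ Real.log w → w ≤ y → Even b₀ →
    2 * (Fintype.card κ : ℝ) + 1 ≤ w → 0 ≤ m → τ ≤ 1 → m * (1 / 3) ^ b₀ ≤ Real.exp (-130) * τ →
    ∀ PP : Finset ℕ, PP ⊆ PS w y ∅ →
    ∃ R : κ → Col PP.card κ → ℝ,
      BHyp (fun i => 1 / (((emb PP i : ℕ) : ℝ) - 1)) R m τ ∧
      ∀ k, MB (fun i => ((emb PP i : ℕ) : ℝ)) (4 ^ (nB w y * (nB w y * (b₀ + nB w y))))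
        (Real.exp (Real.log y * (2 * b₀ + 4))) (nB w y * (b₀ + nB w y)) (R k))
    (hK1 : 1000 ≤ K₀) (hK2 : 100 / ε ^ 2 ≤ K₀) (hK3 : 300 / ε ≤ K₀) (hK4 : 64 / (c * ε) ≤ K₀)
    (hK5 : 72 * C ≤ K₀) (hM1 : 12 ≤ M₀) (hM2 : 200 / ε ≤ M₀) (hM3 : C ≤ M₀)
    (hM4 : Real.exp C₁ ≤ M₀) (hM5 : 2 * CR ≤ M₀)
    (L e : ℝ) (he1 : K₀ ≤ e) (he3 : K₀ * e ^ 3 ≤ Real.exp e) (helog : Real.log (K₀ * e) ≤ e / K₀)
    (a1 : M₀ ≤ L) (a2 : 1 ≤ Real.log L) (a3 : M₀ ≤ L ^ ε) (a4 : Real.log L * M₀ ≤ L)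
    (heu : e ≤ (1 - ε) * Real.log L)
    (b1 : M₀ * Real.log L ≤ L * Real.exp (-e) / e ^ 2)
    (ps : ℕ) (hps : Real.log ps ≤ L * Real.exp (-e) / e ^ 2)
    (κ : Type) [Fintype κ] [DecidableEq κ]
    (hκ : 2 * (Fintype.card κ : ℝ) ≤ (1 / 2 - 3 * ε) * (e * L * WW (L ^ (1 + ε))))
    (res : ℕ → κ → ℤ)
    (hres : ∀ p : ℕ, p.Prime → L ^ (1 + ε) < p →
      (p : ℝ) ≤ Real.exp (ε ^ 2 * L / (100 * e)) → ∀ k l, k ≠ l →
      ¬ ((p : ℤ) ∣ res p k - res p l))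
    (hres0 : ∀ p : ℕ, p.Prime → L ^ (1 + ε) < p →
      (p : ℝ) ≤ Real.exp (ε ^ 2 * L / (100 * e)) → ∀ k, ¬ ((p : ℤ) ∣ res p k))
    (𝒜 : Finset ℤ) (ω : ℤ → ℝ) (hω : ∀ a ∈ 𝒜, 0 ≤ ω a) (N : ℝ) (hN : 0 < N) (Er : ℕ → ℝ)
    (hEr : ∀ q, 0 ≤ Er q)
    (hcnt : ∀ q : ℕ, (q:ℝ) ≤ Real.exp L → Squarefree q →
      (∀ p : ℕ, p.Prime → p ∣ q → L ^ (1 + ε) < (p:ℝ) ∧ p ≠ ps) → ∀ r : ℤ, IsCoprime r (q:ℤ) →
      |∑ a ∈ 𝒜 with (q:ℤ) ∣ a - r, ω a - N / (q.totient : ℝ)| ≤ Er q)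
    (hfin : Real.exp (1000 * (Real.exp (2 * e) * (Real.log L) ^ 3)) *
      ∑ q ∈ QS (L ^ (1 + ε)) (Real.exp L) ps, Er q ≤ N / 8) :
    3 / 8 * N ≤ (∑ a ∈ 𝒜 with (∀ k : κ, ∃ p : ℕ, p.Prime ∧
      L ^ (1 + ε) < p ∧ (p : ℝ) ≤ Real.exp (ε ^ 2 * L / (100 * e)) ∧
      (p : ℤ) ∣ a - res p k), ω a) * Real.exp (e ^ 2 * Real.exp e) := by
  have he1000 : 1000 ≤ e := by linarith only [hK1, he1]
  have he0 : 0 < e := by linarith only [he1000]
  have he1' : 1 ≤ e := by linarith only [he1000]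
  have hε4' : ε ≤ 1 / 4 := by linarith only [hε4]
  set l : ℝ := Real.log L with hl
  have hL12 : 12 ≤ L := by linarith only [hM1, a1]
  have hL2 : 2 ≤ L := by linarith only [hL12]
  have hL0 : 0 < L := by linarith only [hL2]
  have hL1 : 1 ≤ L := by linarith only [hL2]
  have hl0 : 0 ≤ l := by linarith only [a2]
  have hel : e ≤ l := by
    have : 0 ≤ ε * l := mul_nonneg hε.le hl0
    linarith only [this, heu]
  have hM0 : 0 < M₀ := by linarith only [hM1]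
  have hM8 : 8 ≤ M₀ := by linarith only [hM1]
  have hlL : l ≤ L := by
    have h1 : 12 * l ≤ M₀ * l := q_mul hM1 hl0
    linarith only [h1, a4, hl0]
  have hExpL : Real.exp e ≤ L := by
    rw [← Real.exp_log hL0]
    exact Real.exp_le_exp.2 hel
  have he3' : e ^ 3 ≤ Real.exp e := q_cube hK1 he1' he3
  have he30 : 0 ≤ e ^ 3 := by positivity
  have h72 : 72 * C * e ^ 3 ≤ Real.exp e := (q_mul hK5 he30).trans he3
  have h12 : 12 * C * e ^ 3 ≤ Real.exp e := by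
    have : 12 * C ≤ K₀ := by linarith only [hK5, hC]
    exact (q_mul this he30).trans he3
  set Y : ℝ := L * Real.exp (-e) / e ^ 2 with hY
  set Z : ℝ := ε ^ 2 * L / (100 * e) with hZ
  obtain ⟨hYZ, hvZ, hZ0, hY0, _, _⟩ := p_YZ hε hε4' hL0 (hK2.trans he1) he3' hY hZ
  have hYM : M₀ ≤ Y := by
    have : M₀ * 1 ≤ M₀ * l := mul_le_mul_of_nonneg_left a2 hM0.le
    linarith only [this, b1]
  have hlog1 : Real.log e ≤ e / 20 := q_log1 hK1 he1' helog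
  have hlog2 : Real.log (100 * e / ε ^ 2) ≤ ε / 4 * e := q_log2 hε hK1 he1' helog hK2 hK3
  have hCRY : CR / Y ≤ 1 / 2 := by
    rw [div_le_iff₀ hY0]
    linarith only [hM5, hYM]
  have h64 : 64 / ε ≤ 200 / ε := div_le_div_of_nonneg_right (by norm_num) hε.le
  set m₀ : ℕ := ⌈20 * e⌉₊ with hm₀
  have hm₀1 : 20 * e ≤ m₀ := Nat.le_ceil _
  have hm₀2 : (m₀ : ℝ) < 20 * e + 1 := Nat.ceil_lt_add_one (by positivity)
  have hYl : M₀ * l ≤ Y := b1
  have hyL6 : L ^ 6 ≤ Real.exp Y := by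
    apply p_pow hL1 6
    push_cast
    exact (q_mul (by linarith only [hM1] : (6:ℝ) ≤ M₀) hl0).trans b1
  have hYe4 : 4 * e ≤ Real.exp Y := by
    have e1 : e ≤ L := hel.trans hlL
    have e2 : 4 * L ≤ L ^ 6 := by
      have e3 : (4:ℝ) ≤ L ^ 5 := by
        calc (4:ℝ) ≤ L := by linarith only [hL12]
          _ = L ^ 1 := (pow_one L).symm
          _ ≤ L ^ 5 := pow_le_pow_right₀ hL1 (by norm_num)
      calc 4 * L ≤ L ^ 5 * L := mul_le_mul_of_nonneg_right e3 hL0.le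
        _ = L ^ 6 := by ring
    linarith only [e1, e2, hyL6]
  obtain ⟨hG₂, hprof⟩ := blk2_prof6 ε c C CR hε hε4' hc hWb hSR L e Y Z hL1 he1' hY0 hY hZ hYZ hvZ
    hlog1 hlog2 hCRY he1000 (hK4.trans he1) (hM8.trans hYM) (h64.trans (hM2.trans hYM)) hYe4 m₀ hm₀1
  set w : ℝ := L ^ (1 + ε) with hw
  have hwL : L ≤ w := by
    calc L = L ^ (1:ℝ) := (Real.rpow_one L).symm
      _ ≤ L ^ (1 + ε) := Real.rpow_le_rpow_of_exponent_le hL1 (by linarith only [hε])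
  have hw12 : 12 ≤ w := by linarith only [hwL, hL12]
  have hw2 : 2 ≤ w := by linarith only [hwL, hL2]
  have hlw : Real.log w = (1 + ε) * l := by rw [hw, Real.log_rpow hL0]
  have hlw1 : 1 ≤ Real.log w := by
    rw [hlw]
    have : 0 ≤ ε * l := mul_nonneg hε.le hl0
    linarith only [this, a2]
  have hwy : w ≤ Real.exp Y := q_wy hL0 (by linarith only [hε4]) hM8 a2 hw b1
  set y : ℝ := Real.exp Y with hy
  set z : ℝ := Real.exp Z with hz
  have hly : Real.log y = Y := Real.log_exp Y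
  have hlz : Real.log z = Z := Real.log_exp Z
  have hyY : Y + 1 ≤ y := Real.add_one_le_exp Y
  have hyz : y ≤ z := Real.exp_le_exp.2 hYZ
  have hy10 : 10 ≤ y := by linarith only [hyY, hYM, hM1]
  have hz1 : 1 < z := by linarith only [hy10, hyz]
  have hpsy : (ps:ℝ) ≤ y := by
    rcases Nat.eq_zero_or_pos ps with h0 | h0
    · rw [h0]
      push_cast
      linarith only [hy10]
    · have h1 : (0:ℝ) < ps := by exact_mod_cast h0
      rw [hy, ← Real.log_le_iff_le_exp h1]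
      exact hps
  -- Mertens
  obtain ⟨hWw1, hWw2⟩ := hWb w hw2
  obtain ⟨hWy1, hWy2⟩ := hWb y (by linarith only [hy10])
  rw [hlw] at hWw1 hWw2
  rw [hly] at hWy1 hWy2
  have hV0 := WW_pos y
  have hW0 := WW_pos w
  have hW1 := WW_le_one w
  set V : ℝ := WW y with hV
  set W : ℝ := WW w with hW
  set u : ℝ := (Fintype.card κ : ℝ) with hu
  have hu0 : 0 ≤ u := Nat.cast_nonneg _
  have h2u0 : 0 ≤ 2 * u := by linarith only [hu0]
  have h2u2 : 2 * u ≤ L ^ 2 / 2 := p_u2 hL2 hlL he0.le hel hW0 hW1 hε (2 * u) hκ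
  have hu2 : u ≤ L ^ 2 / 2 := by linarith only [h2u2, hu0]
  obtain ⟨hlam0, hlam1, hlam2⟩ := p_lam hε hε4' hL1 he1' hV0 hW0 hWy2 hY (2 * u) h2u0 hκ
  have huw : 2 * (2 * u) ≤ w := p_uw hL1 a2 he0.le hel hW0 hε hWw2 (hM3.trans a3) (2 * u) hκ
  have huw1 : 2 * u + 1 ≤ w := by linarith only [huw, hw2]
  set v₀ : ℝ := L * Real.exp (-e) with hv₀
  have hv₀0 : 0 < v₀ := by positivity
  -- the parameters
  set J : ℕ := 2 * ⌈15 * e⌉₊ with hJ
  have hJe : Even J := even_two_mul _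
  have hJ1 : 30 * e ≤ J := by
    have := Nat.le_ceil (15 * e)
    rw [hJ]; push_cast; linarith only [this]
  have hJ2 : (J:ℝ) ≤ 30 * e + 2 := by
    have := (Nat.ceil_lt_add_one (show 0 ≤ 15 * e by positivity)).le
    rw [hJ]; push_cast; linarith only [this]
  have hm₀J : m₀ ≤ J := by
    have : (m₀:ℝ) ≤ J := by linarith only [hm₀2, hJ1, he1000]
    exact_mod_cast this
  set b₀ : ℕ := 2 * ⌈2 * e⌉₊ with hb₀
  have hb₀e : Even b₀ := even_two_mul _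
  have hb₀1 : 4 * e ≤ b₀ := by
    have := Nat.le_ceil (2 * e)
    rw [hb₀]; push_cast; linarith only [this]
  have hb₀2 : (b₀:ℝ) ≤ 4 * e + 2 := by
    have := (Nat.ceil_lt_add_one (show 0 ≤ 2 * e by positivity)).le
    rw [hb₀]; push_cast; linarith only [this]
  set Q : ℝ := Real.exp ((1 / 2 - ε) * L) with hQ
  have hlQ : Real.log Q = (1 / 2 - ε) * L := Real.log_exp _
  have hhalf : 0 ≤ 1 / 2 - ε := by linarith only [hε4]
  have hlQ0 : 0 ≤ (1 / 2 - ε) * L := mul_nonneg hhalf hL0.le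
  have hQ1 : 1 ≤ Q := Real.one_le_exp hlQ0
  set r : ℕ := ⌈Real.log Q / v₀⌉₊ with hr
  have hr1 : Real.log Q / v₀ ≤ r := Nat.le_ceil _
  have hrv : Real.log Q / v₀ ≤ Real.exp e / 2 := by
    rw [hlQ, hv₀]
    exact q_rv hε hL0
  have hexp1000 : 1001 ≤ Real.exp e := by
    have := Real.add_one_le_exp e
    linarith only [this, he1000]
  have hr2 : (r:ℝ) ≤ Real.exp e / 2 + 1 := by
    have := (Nat.ceil_lt_add_one (show 0 ≤ Real.log Q / v₀ by
      apply div_nonneg _ hv₀0.le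
      rw [hlQ]
      exact hlQ0)).le
    linarith only [this, hrv]
  have hrm : (r:ℝ) + 1 ≤ Real.exp e := by linarith only [hr2, hexp1000]
  have hre : (r:ℝ) ≤ Real.exp e := by linarith only [hrm]
  -- the support in the second block
  set J₂ : ℕ := ⌈Real.log Q / Real.log y⌉₊ with hJ₂
  have hJ₂1 : Real.log Q / Real.log y ≤ J₂ := Nat.le_ceil _
  have hJ₂2 : (J₂:ℝ) ≤ Real.exp e * l ^ 2 := by
    have h1 : Real.log Q / Real.log y ≤ Real.exp e * e ^ 2 / 2 := by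
      rw [hlQ, hly, div_le_iff₀ hY0]
      have h2 : Y * e ^ 2 * Real.exp e = L := by
        rw [hY, hv₀, Real.exp_neg]
        field_simp
      have h3 : Real.exp e * e ^ 2 / 2 * Y = L / 2 := by rw [← h2]; ring
      rw [h3]
      have : 0 ≤ ε * L := mul_nonneg hε.le hL0.le
      linarith only [this]
    have h2 := (Nat.ceil_lt_add_one (show 0 ≤ Real.log Q / Real.log y by
      rw [hlQ, hly]
      exact div_nonneg hlQ0 hY0.le)).le
    have h3 : e ^ 2 ≤ l ^ 2 := pow_le_pow_left₀ he0.le hel 2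
    have h4 : Real.exp e * e ^ 2 ≤ Real.exp e * l ^ 2 :=
      mul_le_mul_of_nonneg_left h3 (Real.exp_pos e).le
    have h5 : 2 ≤ Real.exp e * e ^ 2 := by
      have : 1 ≤ e ^ 2 := one_le_pow₀ he1'
      nlinarith only [this, hexp1000]
    linarith only [h1, h2, h4, h5]
  have hC1l : C₁ ≤ l := by
    rw [hl, Real.le_log_iff_exp_le hL0]
    exact hM4.trans a1
  have hεl : 0 ≤ ε * l := mul_nonneg hε.le hl0
  -- the first block
  obtain ⟨R, hR1, hR2⟩ := hBH w y b₀ (Real.exp e) (Real.exp (-(2 * e))) κ hw12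
    (by rw [hlw]; linarith only [hC1l, hεl]) hwy hb₀e huw1 (Real.exp_pos e).le
    (by rw [Real.exp_le_one_iff]; linarith only [he0]) (q_τ he1000 b₀ hb₀1)
    (PS w y {ps}) (by rw [PS_erase]; exact Finset.erase_subset _ _)
  have hQz : Real.log (Q / z) = (1 / 2 - ε) * L - Z := by
    rw [Real.log_div (Real.exp_pos _).ne' (Real.exp_pos _).ne', hlQ, hlz]
  have hEE : Real.exp (ε * ((1 + ε) * (2 * u) * (V / W * (1 / ((1 - ε) * V * e))) / Real.log z -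
      Real.log (Q / z) / Real.log z)) ≤ Real.exp (-(20 * e)) := by
    apply Real.exp_le_exp.2
    rw [hlz, hQz]
    have h1 := p_exp hε hε4' hL1 he1' hV0 hZ (2 * u * (V / W)) hlam1
    have h2 : (1 + ε) * (2 * u) * (V / W * (1 / ((1 - ε) * V * e))) =
        (1 + ε) * (2 * u * (V / W) * (1 / ((1 - ε) * V * e))) := by ring
    rw [h2]
    exact h1
  have c1 : 4 * (Real.log Q / Real.log y) / y ≤ 1 / L ^ 4 := by
    rw [hlQ, hly]
    exact p_δ6 hε hε4' hL2 (by linarith only [hM1, hYM])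
      ((q_mul (by linarith only [hM1]) hl0).trans b1)
  have c2 : u + 1 ≤ y := by
    have e1 := p_pow (L := L) (Y := Y) hL1 2
      (le_trans (q_mul (by push_cast; linarith only [hM1]) hl0) b1)
    have e2 : 2 ≤ L ^ 2 := by nlinarith only [hL2]
    linarith only [e1, e2, hu2]
  have hnb : (nB w y : ℝ) ≤ 3 * l :=
    nB_le w y L hL1 a2 hlw1 (by rw [hly]; exact hY0.le) (by
      rw [hly, hY]
      have h1 : Real.exp (-e) ≤ 1 := by rw [Real.exp_le_one_iff]; linarith only [he0]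
      have h2 : 1 ≤ e ^ 2 := one_le_pow₀ he1'
      rw [div_le_iff₀ (by positivity)]
      nlinarith only [h1, h2, hL0])
  have hJR : ((nB w y * (b₀ + nB w y) : ℕ) : ℝ) ≤ 24 * l ^ 2 :=
    p_JR (nB w y) b₀ l e a2 hnb (by linarith only [hb₀2, he1000]) hel
  have hMF := MF_le u L l (Real.exp e) (nB w y) (nB w y * (b₀ + nB w y)) r J₂ J hL1
    (Real.exp_log hL0).symm a2 (Real.one_le_exp he0.le) hu0 (by
      have : 0 ≤ L ^ 2 := by positivity
      linarith only [this, hu2]) hnb hJR hre hJ₂2 (by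
      linarith only [hJ2, hel, he1000])
  have hE2 : (Real.exp e) ^ 2 = Real.exp (2 * e) := by
    rw [← Real.exp_nat_mul]
    push_cast
    rfl
  rw [hE2] at hMF
  have hQT := p_QT hε hε4' hL2 (hK3.trans he1) (by linarith only [he1000]) hY hZ b₀ J r hb₀2 hJ2 hre
  have hQTL : Real.exp ((1 - ε) * L) ≤ Real.exp L := by
    apply Real.exp_le_exp.2
    have : 0 ≤ ε * L := mul_nonneg hε.le hL0.le
    linarith only [this]
  have hlogy' : Real.log y * (2 * (b₀:ℝ) + 4) = Y * (2 * b₀ + 4) := by rw [hly]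
  rw [hlogy'] at hR2
  have hsum0 : 0 ≤ ∑ q ∈ QS w (Real.exp ((1 - ε) * L)) ps, Er q :=
    Finset.sum_nonneg fun q _ => hEr q
  have hfin' : MF u (L ^ 2) (L ^ 3) (4 ^ (nB w y * (nB w y * (b₀ + nB w y)))) r
      (nB w y * (b₀ + nB w y)) J₂ J * ∑ q ∈ QS w (Real.exp ((1 - ε) * L)) ps, Er q ≤ N / 8 := by
    refine le_trans ?_ hfin
    apply mul_le_mul hMF _ hsum0 (Real.exp_pos _).le
    exact Finset.sum_le_sum_of_subset_of_nonneg (QS_mono hQTL) fun q _ _ => hEr q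
  have hL2' : 1 ≤ L ^ 2 := one_le_pow₀ hL1
  have hL3' : 1 ≤ L ^ 3 := one_le_pow₀ hL1
  have hT : u * (11 / 10 * e) ≤ L ^ 3 := by
    have e1 : 11 / 10 * e ≤ 2 * L := by linarith only [hel, hlL, he0]
    have e2 : u * (11 / 10 * e) ≤ L ^ 2 / 2 * (2 * L) :=
      mul_le_mul hu2 e1 (by positivity) (by positivity)
    refine e2.trans (le_of_eq ?_)
    ring
  have hmain := cover6 w y z (1 / ((1 - ε) * V * e)) Q (1 / L ^ 4) ε (11 / 10 * e) v₀ (Real.exp e)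
    (Real.exp (-(2 * e))) (Real.exp (24 * e)) (4 ^ (nB w y * (nB w y * (b₀ + nB w y))))
    (Real.exp (Y * (2 * b₀ + 4))) (L ^ 3) (L ^ 2) (Real.exp ((1 - ε) * L))
    (nB w y * (b₀ + nB w y)) J m₀ r J₂ ps hJe hm₀J
    hw2 hwy hyz hpsy hy10 hz1 hQ1 hε (by linarith only [hε4]) hG₂ hprof
    c1 κ u rfl (Real.exp_pos _).le (by rw [Real.exp_le_one_iff]; linarith only [he0])
    (one_le_pow₀ (by norm_num)) (Real.one_le_exp (by positivity)) ⟨R, hR1, hR2⟩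
    hr1 hrm (Real.one_le_exp (by positivity)) huw1 c2
    (p_uδ hL2 u hu2) hv₀0
    (q_E8 he1' hEE)
    (p_tail he1' hC.le h72 (2 * u * (V / W)) hlam0 hlam2 hExpL _ hEE)
    (p_mom he1' hC.le h12 (2 * u * (V / W)) hlam0 hlam2 J hJ1)
    (p_pen he1' hC.le h12 (2 * u * (V / W)) hlam0 hlam2)
    hJ₂1 hL3' hT hL2' (by linarith only [hu2, hL2']) hQT
    res hres hres0 𝒜 ω hω N hN Er hEr
    (fun q hq => hcnt q (hq.trans hQTL)) hfin'
  refine hmain.trans ?_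
  apply mul_le_mul_of_nonneg_left _
    (Finset.sum_nonneg fun a ha => hω a (Finset.mem_filter.1 ha).1)
  exact p_loss K₀ hK1 he1000 helog J r hJ2 hre

/-- the covering theorem for weighted sets -/
theorem cov6 : ∃ c₂ e₀ L₀ : ℝ, 0 < c₂ ∧ 1 ≤ e₀ ∧ 3 ≤ L₀ ∧ ∀ L : ℝ, L₀ ≤ L →
    ∀ e : ℝ, e₀ ≤ e → e ≤ (1 / 2) * Real.log L →
    ∀ ps : ℕ, Real.log ps ≤ L ^ (1 / 4 : ℝ) →
    ∀ (κ : Type) [Fintype κ] [DecidableEq κ],
    (Fintype.card κ : ℝ) ≤ c₂ * (e * L / Real.log L) →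
    ∀ res : ℕ → κ → ℤ,
    (∀ p : ℕ, p.Prime → L ^ (9 / 8 : ℝ) < p → ∀ k l, k ≠ l → ¬ ((p : ℤ) ∣ res p k - res p l)) →
    (∀ p : ℕ, p.Prime → L ^ (9 / 8 : ℝ) < p → ∀ k, ¬ ((p : ℤ) ∣ res p k)) →
    ∀ (𝒜 : Finset ℤ) (ω : ℤ → ℝ), (∀ a ∈ 𝒜, 0 ≤ ω a) → ∀ N : ℝ, 0 < N → ∀ Er : ℕ → ℝ,
    (∀ q, 0 ≤ Er q) →
    (∀ q : ℕ, (q:ℝ) ≤ Real.exp L → Squarefree q →
      (∀ p : ℕ, p.Prime → p ∣ q → L ^ (9 / 8 : ℝ) < (p:ℝ) ∧ p ≠ ps) → ∀ r : ℤ,
      IsCoprime r (q:ℤ) →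
      |∑ a ∈ 𝒜 with (q:ℤ) ∣ a - r, ω a - N / (q.totient : ℝ)| ≤ Er q) →
    Real.exp (1000 * (Real.exp (2 * e) * (Real.log L) ^ 3)) *
      ∑ q ∈ QS (L ^ (9 / 8 : ℝ)) (Real.exp L) ps, Er q ≤ N / 8 →
    3 / 8 * N ≤ (∑ a ∈ 𝒜 with (∀ k : κ, ∃ p : ℕ, p.Prime ∧
      L ^ (9 / 8 : ℝ) < p ∧ (p : ℝ) ≤ Real.exp L ∧
      (p : ℤ) ∣ a - res p k), ω a) * Real.exp (e ^ 2 * Real.exp e) := by
  obtain ⟨c, C, hc, hcC, hWb⟩ := WW_bounds
  obtain ⟨CR, hCR0, hSR⟩ := sum_ratio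
  obtain ⟨C₁, hC₁, hBH⟩ := BHyp6
  have hC : 0 < C := hc.trans_le hcC
  have h0a : (0:ℝ) < 100 / (1 / 8) ^ 2 := by positivity
  have h0b : (0:ℝ) < 300 / (1 / 8) := by positivity
  have h0c : 0 < 64 / (c * (1 / 8)) := by positivity
  have h0d : (0:ℝ) < 200 / (1 / 8) := by positivity
  have hE₁ := Real.exp_pos C₁
  obtain ⟨e₀, he₀⟩ := ev_e (1000 + 100 / (1 / 8) ^ 2 + 300 / (1 / 8) + 64 / (c * (1 / 8)) + 72 * C)
    (by linarith only [h0a, h0b, h0c, hC])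
  obtain ⟨L₀, hL₀⟩ := ev_L5 (1 / 8) (12 + 200 / (1 / 8) + C + Real.exp C₁ + 2 * CR) (by norm_num)
    (by norm_num) (by linarith only [h0d, hC, hE₁, hCR0])
  -- `L^(1/4) ≤ L e^{-e}/e²` for `e ≤ log L / 2`
  have hev : ∀ᶠ L : ℝ in atTop, (Real.log L) ^ (2:ℝ) ≤ L ^ (1 / 4 : ℝ) := by
    have h := (isLittleO_log_rpow_rpow_atTop 2 (show (0:ℝ) < 1 / 4 by norm_num)).def
      (show (0:ℝ) < 1 by norm_num)
    filter_upwards [h, eventually_ge_atTop (1:ℝ)] with L hL hL1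
    rw [Real.norm_of_nonneg (Real.rpow_nonneg (Real.log_nonneg hL1) _),
      Real.norm_of_nonneg (Real.rpow_nonneg (by linarith) _), one_mul] at hL
    exact hL
  obtain ⟨L₁, hL₁⟩ := Filter.eventually_atTop.1 hev
  refine ⟨c / 20, max e₀ 1, max (max L₀ L₁) 3, by positivity, le_max_right _ _,
    le_max_right _ _, ?_⟩
  intro L hL e he heu ps hps κ _ _ hκ res hres hres0 𝒜 ω hω N hN Er hEr hcnt hfin
  have hLa : L₀ ≤ L := ((le_max_left _ _).trans (le_max_left _ _)).trans hL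
  have hLb : L₁ ≤ L := ((le_max_right _ _).trans (le_max_left _ _)).trans hL
  have hL3 : 3 ≤ L := (le_max_right _ _).trans hL
  obtain ⟨he1, he3, helog⟩ := he₀ e ((le_max_left _ _).trans he)
  obtain ⟨a1, a2, a3, a4, a5⟩ := hL₀ L hLa
  have he1' : 1 ≤ e := (le_max_right _ _).trans he
  have hl0 : 0 < Real.log L := by linarith only [a2]
  have heu' : e ≤ (1 - 1 / 8) * Real.log L := by linarith only [heu, hl0]
  have b1 := a5 e he1' heu'
  have hL0 : 0 < L := by linarith only [hL3]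
  have h98 : (1:ℝ) + 1 / 8 = 9 / 8 := by norm_num
  have hps' : Real.log ps ≤ L * Real.exp (-e) / e ^ 2 := by
    refine hps.trans ?_
    have h1 := hL₁ L hLb
    have e0 : (Real.log L) ^ (2:ℝ) = (Real.log L) ^ (2:ℕ) := by
      have := Real.rpow_natCast (Real.log L) 2
      push_cast at this
      exact this
    rw [e0] at h1
    have he2 : e ^ 2 ≤ L ^ (1 / 4 : ℝ) := by
      refine le_trans ?_ h1
      apply pow_le_pow_left₀ (by linarith only [he1'])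
      linarith only [heu, hl0]
    rw [le_div_iff₀ (by positivity)]
    have h2 : L ^ (1 / 2 : ℝ) ≤ L * Real.exp (-e) := by
      have h3 : Real.exp (-((1 / 2) * Real.log L)) ≤ Real.exp (-e) :=
        Real.exp_le_exp.2 (by linarith only [heu])
      calc L ^ (1 / 2 : ℝ) = L * Real.exp (-((1 / 2) * Real.log L)) := by
            rw [Real.rpow_def_of_pos hL0]
            conv_rhs => rw [← Real.exp_log hL0]
            rw [Real.log_exp, ← Real.exp_add]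
            congr 1
            ring
        _ ≤ _ := mul_le_mul_of_nonneg_left h3 hL0.le
    calc L ^ (1 / 4 : ℝ) * e ^ 2 ≤ L ^ (1 / 4 : ℝ) * L ^ (1 / 4 : ℝ) :=
          mul_le_mul_of_nonneg_left he2 (by positivity)
      _ = L ^ (1 / 2 : ℝ) := by rw [← Real.rpow_add hL0]; norm_num
      _ ≤ _ := h2
  have hκ' : 2 * (Fintype.card κ : ℝ) ≤ (1 / 2 - 3 * (1 / 8)) *
      (e * L * WW (L ^ (1 + 1 / 8 : ℝ))) := by
    have hw : 1 ≤ L := by linarith only [hL3]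
    have hwL : L ≤ L ^ (1 + 1 / 8 : ℝ) := by
      calc L = L ^ (1:ℝ) := (Real.rpow_one L).symm
        _ ≤ L ^ (1 + 1 / 8 : ℝ) := Real.rpow_le_rpow_of_exponent_le hw (by norm_num)
    have h1 := (hWb (L ^ (1 + 1 / 8 : ℝ)) (by linarith only [hwL, hL3])).1
    rw [Real.log_rpow hL0] at h1
    have h2 : c / (9 / 8 * Real.log L) ≤ WW (L ^ (1 + 1 / 8 : ℝ)) := by
      rw [div_le_iff₀ (by positivity)]
      linarith only [h1]
    have h3 : 0 ≤ e * L := by positivity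
    have h4 := mul_le_mul_of_nonneg_left h2 h3
    have h5 : 2 * (c / 20 * (e * L / Real.log L)) ≤
        (1 / 2 - 3 * (1 / 8)) * (e * L * (c / (9 / 8 * Real.log L))) := by
      have h6 : e * L * (c / (9 / 8 * Real.log L)) = 8 / 9 * (c * (e * L / Real.log L)) := by
        field_simp
      rw [h6]
      have h7 : 0 ≤ c * (e * L / Real.log L) := by positivity
      linarith only [h7]
    linarith only [h4, h5, hκ]
  have hzL : Real.exp ((1 / 8) ^ 2 * L / (100 * e)) ≤ Real.exp L := by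
    apply Real.exp_le_exp.2
    rw [div_le_iff₀ (by positivity)]
    nlinarith only [he1', hL0]
  have hmain := cov6_at (1 / 8) c C CR C₁
    (1000 + 100 / (1 / 8) ^ 2 + 300 / (1 / 8) + 64 / (c * (1 / 8)) + 72 * C)
    (12 + 200 / (1 / 8) + C + Real.exp C₁ + 2 * CR) (by norm_num) (by norm_num) hc hC hC₁ hCR0
    hWb hSR hBH
    (by linarith only [h0a, h0b, h0c, hC]) (by linarith only [h0a, h0b, h0c, hC])
    (by linarith only [h0a, h0b, h0c, hC]) (by linarith only [h0a, h0b, h0c, hC])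
    (by linarith only [h0a, h0b, h0c, hC]) (by linarith only [h0d, hC, hE₁, hCR0])
    (by linarith only [h0d, hC, hE₁, hCR0]) (by linarith only [h0d, hC, hE₁, hCR0])
    (by linarith only [h0d, hC, hE₁, hCR0]) (by linarith only [h0d, hC, hE₁, hCR0])
    L e he1 he3 helog a1 a2 a3 a4 heu' b1 ps hps' κ hκ' res
    (by
      rw [h98]
      exact fun p hp h1 _ => hres p hp h1)
    (by
      rw [h98]
      exact fun p hp h1 _ => hres0 p hp h1)
    𝒜 ω hω N hN Er hEr (by rw [h98]; exact hcnt) (by rw [h98]; exact hfin)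
  refine hmain.trans ?_
  apply mul_le_mul_of_nonneg_right _ (Real.exp_pos _).le
  apply Finset.sum_le_sum_of_subset_of_nonneg
  · intro a ha
    rw [Finset.mem_filter] at ha ⊢
    refine ⟨ha.1, fun k => ?_⟩
    obtain ⟨p, h1, h2, h3, h4⟩ := ha.2 k
    rw [h98] at h2
    exact ⟨p, h1, h2, h3.trans hzL, h4⟩
  · intro a ha _
    exact hω a (Finset.mem_filter.1 ha).1

end Pool.Agent.K4H19.FQ
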