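import Pool.Agent.K4H19.FQ.Core6
import Pool.Agent.K4H19.FQ.Blk6

set_option autoImplicit false
set_option linter.unusedSectionVars false
set_option linter.unusedVariables false

/-! # The covering theorem for weighted sets of integers, under numerical conditions -/

namespace Pool.Agent.K4H19.FQ

open Finset Filter Pool.Agent.H256R2.SC Pool.Agent.Y831.RC

open scoped Classical

/-- the sieving moduli -/
noncomputable def QS (w QT : ℝ) (ps : ℕ) : Finset ℕ :=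
  (Icc 1 ⌊QT⌋₊).filter (fun q => Squarefree q ∧ ∀ p : ℕ, p.Prime → p ∣ q → w < (p:ℝ) ∧ p ≠ ps)

section primes
variable {ι : Type} [DecidableEq ι] {E : ι → ℕ}

theorem prime_dvd_prod_iff (hE : ∀ i, (E i).Prime) (hinj : Function.Injective E) (s : Finset ι)
    (i : ι) : E i ∣ ∏ j ∈ s, E j ↔ i ∈ s := by
  constructor
  · intro h
    obtain ⟨j, hj, hij⟩ := (Prime.dvd_finsetProd_iff (hE i).prime _).mp h
    have := (Nat.prime_dvd_prime_iff_eq (hE i) (hE j)).1 hij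
    rw [hinj this]
    exact hj
  · intro h
    exact Finset.dvd_prod_of_mem _ h

theorem prod_primes_inj (hE : ∀ i, (E i).Prime) (hinj : Function.Injective E) :
    Function.Injective (fun s : Finset ι => ∏ j ∈ s, E j) := by
  intro s t hst
  ext i
  rw [← prime_dvd_prod_iff hE hinj s i, ← prime_dvd_prod_iff hE hinj t i]
  have : ∏ j ∈ s, E j = ∏ j ∈ t, E j := hst
  rw [this]

theorem prod_primes_sqfree (hE : ∀ i, (E i).Prime) (hinj : Function.Injective E) (s : Finset ι) :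
    Squarefree (∏ j ∈ s, E j) := by
  refine Finset.squarefree_prod_of_pairwise_isCoprime ?_ ?_
  · intro i _ j _ hij
    exact (Nat.coprime_iff_isRelPrime.mp
      ((Nat.coprime_primes (hE i) (hE j)).mpr fun h => hij (hinj h)))
  · intro i _
    exact (hE i).squarefree

theorem totient_prod_primes (hE : ∀ i, (E i).Prime) (hinj : Function.Injective E) (s : Finset ι) :
    ((∏ j ∈ s, E j).totient : ℝ) = ∏ j ∈ s, ((E j : ℝ) - 1) := by
  induction s using Finset.induction_on with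
  | empty => simp
  | insert a s ha ih =>
    rw [Finset.prod_insert ha, Finset.prod_insert ha, Nat.totient_mul, Nat.totient_prime (hE a)]
    · push_cast
      rw [ih, Nat.cast_sub (hE a).one_le]
      simp
    · apply Nat.Coprime.prod_right
      intro j hj
      rw [Nat.coprime_primes (hE a) (hE j)]
      intro h
      exact ha (hinj h ▸ hj)

end primes

theorem cover6 (w y z K Q δ η G₂ v₀ m τ R₂ MR QR T U QT : ℝ) (JR J m₀ r J₂ ps : ℕ) (hJ : Even J)
    (hm₀ : m₀ ≤ J)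
    (hw2 : 2 ≤ w) (hwy : w ≤ y) (hyz : y ≤ z) (hpsy : (ps:ℝ) ≤ y)
    (hy10 : 10 ≤ y) (hz1 : 1 < z) (hQ : 1 ≤ Q) (hη0 : 0 < η) (hη1 : η ≤ 1)
    (hG₂ : ∑ i, 1 / (((emb (PS y z ∅) i : ℕ) : ℝ) - 1) ≤ G₂)
    (hH : ∃ h, HypS (fun i => ((emb (PS y z ∅) i : ℕ) : ℝ))
      (fun i => 1 / (((emb (PS y z ∅) i : ℕ) : ℝ) - 1)) h z K v₀ ∧ ∀ s, h s ≠ 0 → s.card ≤ m₀)
    (hδ : 4 * (Real.log Q / Real.log y) / y ≤ δ)
    (κ : Type) [Fintype κ] [DecidableEq κ] (u : ℝ) (hu : (Fintype.card κ : ℝ) = u)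
    (hτ0 : 0 ≤ τ) (hτ1 : τ ≤ 1) (hMR : 1 ≤ MR) (hQR : 1 ≤ QR)
    (hR : ∃ R : κ → Col (PS w y {ps}).card κ → ℝ,
      BHyp (fun i => 1 / (((emb (PS w y {ps}) i : ℕ) : ℝ) - 1)) R m τ ∧
      ∀ k, MB (fun i => ((emb (PS w y {ps}) i : ℕ) : ℝ)) MR QR JR (R k))
    (hr : Real.log Q / v₀ ≤ r) (hrm : (r:ℝ) + 1 ≤ m) (hR₂ : 1 ≤ R₂)
    (huw : 2 * u + 1 ≤ w) (huy : u + 1 ≤ y) (huδ : u * δ ≤ 1 / 4) (hv₀ : 0 < v₀)
    (hE8 : Real.exp (η * ((1 + η) * (2 * u) * (WW y / WW w * K) / Real.log z -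
      Real.log (Q / z) / Real.log z)) ≤ 1 / 8)
    (htail : 4 * (2 * u * (WW y / WW w)) * (τ + (δ ^ 2 +
      Real.exp (η * ((1 + η) * (2 * u) * (WW y / WW w * K) / Real.log z -
      Real.log (Q / z) / Real.log z)))) ≤ 1 / 12)
    (hmom : 2 * (2 * u * (WW y / WW w)) * ((1 / 3) ^ J * Real.exp (20 * G₂)) ≤ 1 / 12)
    (hpen : 2 * (2 * u * (WW y / WW w)) * Real.exp (20 * G₂) ≤ R₂ / 12)
    (hJ₂ : Real.log Q / Real.log y ≤ J₂)
    (hT1 : 1 ≤ T) (hT : u * G₂ ≤ T) (hU1 : 1 ≤ U) (hU : u ≤ U)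
    (hQT : (QR ^ r * Q) * (QR ^ r * Q) * (QR * z ^ J) ≤ QT)
    (res : ℕ → κ → ℤ)
    (hres : ∀ p : ℕ, p.Prime → w < p → (p : ℝ) ≤ z → ∀ k l, k ≠ l →
      ¬ ((p : ℤ) ∣ res p k - res p l))
    (hres0 : ∀ p : ℕ, p.Prime → w < p → (p : ℝ) ≤ z → ∀ k, ¬ ((p : ℤ) ∣ res p k))
    (𝒜 : Finset ℤ) (ω : ℤ → ℝ) (hω : ∀ a ∈ 𝒜, 0 ≤ ω a) (N : ℝ) (hN : 0 < N) (Er : ℕ → ℝ)
    (hEr : ∀ q, 0 ≤ Er q)
    (hcnt : ∀ q : ℕ, (q:ℝ) ≤ QT → Squarefree q →
      (∀ p : ℕ, p.Prime → p ∣ q → w < (p:ℝ) ∧ p ≠ ps) → ∀ r : ℤ, IsCoprime r (q:ℤ) →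
      |∑ a ∈ 𝒜 with (q:ℤ) ∣ a - r, ω a - N / (q.totient : ℝ)| ≤ Er q)
    (hfin : MF u U T MR r JR J₂ J * ∑ q ∈ QS w QT ps, Er q ≤ N / 8) :
    3 / 8 * N ≤ (∑ a ∈ 𝒜 with (∀ k : κ, ∃ p : ℕ, p.Prime ∧ w < p ∧
      (p : ℝ) ≤ z ∧ (p : ℤ) ∣ a - res p k), ω a) *
      (3 * (1 + 3 * Real.exp G₂ * ((J : ℝ) + 2) ^ (2 * J) * (R₂ + 1)) ^ r) ^ 2 := by
  obtain ⟨h, H, hcard⟩ := hH
  have hzpos : 0 < z := zero_lt_one.trans hz1
  have hu0 : 0 ≤ u := by rw [← hu]; positivity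
  have hy0 : 0 < y := by linarith
  have hw0 : 0 < w := by linarith
  have hlogy : 0 < Real.log y := Real.log_pos (by linarith)
  set PP₁ : Finset ℕ := PS w y {ps} with hPP₁
  set PP₂ : Finset ℕ := PS y z ∅ with hPP₂
  obtain ⟨R, HR, hRL⟩ := hR
  have hm₁ : ∀ p ∈ PP₁, p.Prime ∧ w < (p:ℝ) ∧ (p:ℝ) ≤ y ∧ p ≠ ps := by
    intro p hp
    rw [hPP₁, PS_erase, Finset.mem_erase] at hp
    obtain ⟨h1, h2, h3⟩ := PS_mem hy0.le hp.2
    exact ⟨h1, h2, h3, hp.1⟩
  have hm₂ : ∀ p ∈ PP₂, p.Prime ∧ y < (p:ℝ) ∧ (p:ℝ) ≤ z ∧ p ≠ ps := by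
    intro p hp
    obtain ⟨h1, h2, h3⟩ := PS_mem hzpos.le hp
    refine ⟨h1, h2, h3, ?_⟩
    rintro rfl
    linarith
  have hd : Disjoint PP₁ PP₂ := by
    rw [Finset.disjoint_left]
    intro p hp hp'
    have h1 := (hm₁ p hp).2.2.1
    have h2 := (hm₂ p hp').2.1
    linarith
  have hinj₁ : ∀ p ∈ PP₁, ∀ k l : κ, k ≠ l → ¬ ((p : ℤ) ∣ res p k - res p l) := by
    intro p hp
    obtain ⟨h1, h2, h4, _⟩ := hm₁ p hp
    exact hres p h1 h2 (h4.trans hyz)
  have hinj₂ : ∀ p ∈ PP₂, ∀ k l : κ, k ≠ l → ¬ ((p : ℤ) ∣ res p k - res p l) := by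
    intro p hp
    obtain ⟨h1, h2, h4, _⟩ := hm₂ p hp
    exact hres p h1 (lt_of_le_of_lt hwy h2) h4
  have hPw : ∀ i, w < ((emb PP₁ i : ℕ) : ℝ) := fun i => (hm₁ _ (emb_mem PP₁ i)).2.1
  have hP₁0 : ∀ i, 0 < ((emb PP₁ i : ℕ) : ℝ) - 1 := fun i => by have := hPw i; linarith
  have hPy : ∀ i, y < ((emb PP₂ i : ℕ) : ℝ) := fun i => (hm₂ _ (emb_mem PP₂ i)).2.1
  have hP0 : ∀ i, 0 < ((emb PP₂ i : ℕ) : ℝ) - 1 := fun i => by have := hPy i; linarith
  have hgy : ∀ i, 1 / (((emb PP₂ i : ℕ) : ℝ) - 1) ≤ 2 / y := fun i => by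
    rw [div_le_div_iff₀ (hP0 i) hy0]
    have := hPy i
    linarith
  have hG0 : 0 ≤ ∑ i, 1 / (((emb PP₂ i : ℕ) : ℝ) - 1) :=
    Finset.sum_nonneg fun i _ => by have := hP0 i; positivity
  have hG₂0 : 0 ≤ G₂ := hG0.trans hG₂
  -- sizes of supports
  have hsuppc : ∀ D : Col PP₂.card κ, qq (fun i => ((emb PP₂ i : ℕ) : ℝ)) D ≤ Q →
      ((Pool.Agent.H256R2.SC.supp D).card : ℝ) ≤ Real.log Q / Real.log y := by
    intro D hD
    have h1 : Real.exp (((Pool.Agent.H256R2.SC.supp D).card : ℝ) * Real.log y) ≤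
        qq (fun i => ((emb PP₂ i : ℕ) : ℝ)) D := by
      unfold qq
      rw [prod_nu1]
      have : Real.exp (((Pool.Agent.H256R2.SC.supp D).card : ℝ) * Real.log y) =
          ∏ i ∈ Pool.Agent.H256R2.SC.supp D, Real.exp (Real.log y) := by
        rw [Finset.prod_const, ← Real.exp_nat_mul]
      rw [this]
      apply Finset.prod_le_prod
      · intro i _; exact (Real.exp_pos _).le
      · intro i _
        rw [Real.exp_log hy0]
        exact (hPy i).le
    have h2 := h1.trans hD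
    have h3 : ((Pool.Agent.H256R2.SC.supp D).card : ℝ) * Real.log y ≤ Real.log Q := by
      rw [Real.le_log_iff_exp_le (by linarith)]
      exact h2
    rw [le_div_iff₀ hlogy]
    exact h3
  have hsupp : ∀ D : Col PP₂.card κ, qq (fun i => ((emb PP₂ i : ℕ) : ℝ)) D ≤ Q →
      2 * ∑ i with D i ≠ none, 1 / (((emb PP₂ i : ℕ) : ℝ) - 1) ≤ δ := by
    intro D hD
    have h4 := hsuppc D hD
    have h5 : ∑ i with D i ≠ none, 1 / (((emb PP₂ i : ℕ) : ℝ) - 1) ≤
        (Pool.Agent.H256R2.SC.supp D).card * (2 / y) := by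
      have : ∑ i ∈ Pool.Agent.H256R2.SC.supp D, 1 / (((emb PP₂ i : ℕ) : ℝ) - 1) ≤
          ∑ i ∈ Pool.Agent.H256R2.SC.supp D, (2 / y) :=
        Finset.sum_le_sum (fun i _ => hgy i)
      rw [Finset.sum_const, nsmul_eq_mul] at this
      exact this
    refine le_trans ?_ hδ
    calc 2 * ∑ i with D i ≠ none, 1 / (((emb PP₂ i : ℕ) : ℝ) - 1) ≤
          2 * ((Pool.Agent.H256R2.SC.supp D).card * (2 / y)) :=
          mul_le_mul_of_nonneg_left h5 (by norm_num)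
      _ ≤ 2 * (Real.log Q / Real.log y * (2 / y)) := by
          apply mul_le_mul_of_nonneg_left _ (by norm_num)
          exact mul_le_mul_of_nonneg_right h4 (by positivity)
      _ = 4 * (Real.log Q / Real.log y) / y := by ring
  have hJ₂' : ∀ D : Col PP₂.card κ, qq (fun i => ((emb PP₂ i : ℕ) : ℝ)) D ≤ Q →
      (Pool.Agent.H256R2.SC.supp D).card ≤ J₂ := by
    intro D hD
    have := (hsuppc D hD).trans hJ₂
    exact_mod_cast this
  -- the primes
  set E : Fin (PP₁.card + PP₂.card) → ℕ := Fin.append (emb PP₁) (emb PP₂) with hE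
  have hEP : ∀ i, (E i).Prime := by
    intro i
    refine Fin.addCases (fun j => ?_) (fun j => ?_) i
    · rw [hE, Fin.append_left]
      exact (hm₁ _ (emb_mem PP₁ j)).1
    · rw [hE, Fin.append_right]
      exact (hm₂ _ (emb_mem PP₂ j)).1
  have hEw : ∀ i, w < ((E i : ℕ) : ℝ) ∧ E i ≠ ps := by
    intro i
    refine Fin.addCases (fun j => ?_) (fun j => ?_) i
    · rw [hE, Fin.append_left]
      exact ⟨(hm₁ _ (emb_mem PP₁ j)).2.1, (hm₁ _ (emb_mem PP₁ j)).2.2.2⟩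
    · rw [hE, Fin.append_right]
      exact ⟨lt_of_le_of_lt hwy (hm₂ _ (emb_mem PP₂ j)).2.1, (hm₂ _ (emb_mem PP₂ j)).2.2.2⟩
  have hEinj : Function.Injective E := by
    intro i j
    refine Fin.addCases (fun a => ?_) (fun a => ?_) i
    · refine Fin.addCases (fun b => ?_) (fun b => ?_) j
      · rw [hE, Fin.append_left, Fin.append_left]
        intro h
        rw [(emb PP₁).injective h]
      · rw [hE, Fin.append_left, Fin.append_right]
        intro h
        exact absurd (h ▸ emb_mem PP₂ b) (Finset.disjoint_left.1 hd (emb_mem PP₁ a))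
    · refine Fin.addCases (fun b => ?_) (fun b => ?_) j
      · rw [hE, Fin.append_left, Fin.append_right]
        intro h
        exact absurd (h ▸ emb_mem PP₂ a) (Finset.disjoint_left.1 hd (emb_mem PP₁ b))
      · rw [hE, Fin.append_right, Fin.append_right]
        intro h
        rw [(emb PP₂).injective h]
  have hPE : ∀ i, (Fin.append (fun i => ((emb PP₁ i : ℕ) : ℝ)) (fun i => ((emb PP₂ i : ℕ) : ℝ)) :
      Fin (PP₁.card + PP₂.card) → ℝ) i = ((E i : ℕ) : ℝ) := by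
    intro i
    refine Fin.addCases (fun j => ?_) (fun j => ?_) i
    · rw [hE, Fin.append_left, Fin.append_left]
    · rw [hE, Fin.append_right, Fin.append_right]
  have hgE : ∀ i, (Fin.append (fun i => 1 / (((emb PP₁ i : ℕ) : ℝ) - 1))
      (fun i => 1 / (((emb PP₂ i : ℕ) : ℝ) - 1)) : Fin (PP₁.card + PP₂.card) → ℝ) i =
      1 / (((E i : ℕ) : ℝ) - 1) := by
    intro i
    refine Fin.addCases (fun j => ?_) (fun j => ?_) i
    · rw [hE, Fin.append_left, Fin.append_left]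
    · rw [hE, Fin.append_right, Fin.append_right]
  have hqs : ∀ D : Col (PP₁.card + PP₂.card) κ, qn PP₁ (fstc D) * qn PP₂ (sndc D) =
      ∏ i ∈ Pool.Agent.H256R2.SC.supp D, E i := by
    intro D
    have e1 : ∏ i ∈ Pool.Agent.H256R2.SC.supp D, E i = ∏ i, if D i ≠ none then E i else 1 := by
      unfold Pool.Agent.H256R2.SC.supp
      rw [Finset.prod_filter]
    rw [e1, Fin.prod_univ_add]
    unfold qn Pool.Agent.H256R2.SC.supp
    rw [Finset.prod_filter, Finset.prod_filter]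
    simp only [hE, Fin.append_left, Fin.append_right]
    rfl
  have hnuE : ∀ D : Col (PP₁.card + PP₂.card) κ,
      nu (Fin.append (fun i => 1 / (((emb PP₁ i : ℕ) : ℝ) - 1))
      (fun i => 1 / (((emb PP₂ i : ℕ) : ℝ) - 1))) D =
      1 / ((∏ i ∈ Pool.Agent.H256R2.SC.supp D, E i).totient : ℝ) := by
    intro D
    have e1 : nu (Fin.append (fun i => 1 / (((emb PP₁ i : ℕ) : ℝ) - 1))
      (fun i => 1 / (((emb PP₂ i : ℕ) : ℝ) - 1))) D = ∏ i ∈ Pool.Agent.H256R2.SC.supp D,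
      (Fin.append (fun i => 1 / (((emb PP₁ i : ℕ) : ℝ) - 1))
      (fun i => 1 / (((emb PP₂ i : ℕ) : ℝ) - 1)) : Fin (PP₁.card + PP₂.card) → ℝ) i := prod_nu1 _ D
    rw [e1, totient_prod_primes hEP hEinj, Finset.prod_congr rfl fun i _ => hgE i]
    rw [Finset.prod_div_distrib, Finset.prod_const_one]
  have hevent : ∀ D : Col (PP₁.card + PP₂.card) κ,
      qq (Fin.append (fun i => ((emb PP₁ i : ℕ) : ℝ)) (fun i => ((emb PP₂ i : ℕ) : ℝ))) D ≤ QT →
      |∑ a ∈ 𝒜 with (∀ i, D i ≠ none →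
        (Fin.append (colr PP₁ res a) (colr PP₂ res a) : Col (PP₁.card + PP₂.card) κ) i =
          D i), ω a -
        N * nu (Fin.append (fun i => 1 / (((emb PP₁ i : ℕ) : ℝ) - 1))
          (fun i => 1 / (((emb PP₂ i : ℕ) : ℝ) - 1))) D| ≤
      Er (∏ i ∈ Pool.Agent.H256R2.SC.supp D, E i) := by
    intro D hD
    obtain ⟨r, hr⟩ := event_two (fun p hp => (hm₁ p hp).1) (fun p hp => (hm₂ p hp).1) hd
      hinj₁ hinj₂ D
    have h1 : (𝒜.filter (fun a => ∀ i, D i ≠ none →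
        (Fin.append (colr PP₁ res a) (colr PP₂ res a) : Col (PP₁.card + PP₂.card) κ) i = D i)) =
        𝒜.filter (fun a => ((∏ i ∈ Pool.Agent.H256R2.SC.supp D, E i : ℕ) : ℤ) ∣ a - r) := by
      apply Finset.filter_congr
      intro a _
      rw [← hqs D]
      exact hr a
    rw [h1, hnuE D, mul_one_div]
    apply hcnt
    · refine le_trans (le_of_eq ?_) hD
      rw [qq_supp, Finset.prod_congr rfl fun i _ => hPE i]
      push_cast
      rfl
    · exact prod_primes_sqfree hEP hEinj _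
    · intro p hp hpd
      obtain ⟨i, _, hi⟩ := (Prime.dvd_finsetProd_iff hp.prime _).mp hpd
      have := (Nat.prime_dvd_prime_iff_eq hp (hEP i)).1 hi
      rw [this]
      exact hEw i
    · -- coprimality of the class
      have h2 := (hr r).2 (by simp)
      push_cast
      apply IsCoprime.prod_right
      intro i hi
      have hDi : D i ≠ none := mem_supp.1 hi
      have h3 := h2 i hDi
      obtain ⟨k, hk⟩ := Option.ne_none_iff_exists'.1 hDi
      rw [hk] at h3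
      have h4 : ¬ ((E i : ℕ) : ℤ) ∣ r := by
        revert h3 hk hDi hi
        refine Fin.addCases (fun j => ?_) (fun j => ?_) i
        · intro _ _ h3 _
          rw [Fin.append_left] at h3
          have h5 := (colr_eq hinj₁ r j k).mp h3
          rw [hE, Fin.append_left]
          intro h6
          have h7 := dvd_sub h6 h5
          have h8 : r - (r - res (emb PP₁ j) k) = res (emb PP₁ j) k := by ring
          rw [h8] at h7
          obtain ⟨g1, g2, g3, _⟩ := hm₁ _ (emb_mem PP₁ j)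
          exact hres0 _ g1 g2 (g3.trans hyz) k h7
        · intro _ _ h3 _
          rw [Fin.append_right] at h3
          have h5 := (colr_eq hinj₂ r j k).mp h3
          rw [hE, Fin.append_right]
          intro h6
          have h7 := dvd_sub h6 h5
          have h8 : r - (r - res (emb PP₂ j) k) = res (emb PP₂ j) k := by ring
          rw [h8] at h7
          obtain ⟨g1, g2, g3, _⟩ := hm₂ _ (emb_mem PP₂ j)
          exact hres0 _ g1 (lt_of_le_of_lt hwy g2) g3 k h7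
      exact (Nat.prime_iff_prime_int.1 (hEP i)).coprime_iff_not_dvd.2 h4 |>.symm
  have c2 : ∀ i, 3 * 3 * (1 / (((emb PP₂ i : ℕ) : ℝ) - 1)) ≤ 1 := fun i => by
    rw [mul_one_div, div_le_one (hP0 i)]
    have := hPy i
    linarith
  have c3 : ∀ i, (Fintype.card κ : ℝ) * (1 / (((emb PP₂ i : ℕ) : ℝ) - 1)) ≤ 1 := fun i => by
    rw [hu, mul_one_div, div_le_one (hP0 i)]
    have := hPy i
    linarith
  have c3' : ∀ i, (Fintype.card κ : ℝ) * (1 / (((emb PP₁ i : ℕ) : ℝ) - 1)) ≤ 1 / 2 := fun i => by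
    rw [hu, mul_one_div, div_le_div_iff₀ (hP₁0 i) (by norm_num)]
    have := (hPw i).le
    linarith
  obtain ⟨c9, hrho⟩ := rho6 w y hw2 hwy ps
  rw [← hPP₁] at c9 hrho
  set ρ : ℝ := rho (fun i => 1 / (((emb PP₁ i : ℕ) : ℝ) - 1)) 1 with hρ
  have hWpos := WW_pos w
  have hWpos' := WW_pos y
  have hρ0 : 0 ≤ u * ρ := mul_nonneg hu0 c9
  have hρ1 : u * ρ ≤ 2 * u * (WW y / WW w) := by nlinarith
  have hG20 : Real.exp (20 * ∑ i, 1 / (((emb PP₂ i : ℕ) : ℝ) - 1)) ≤ Real.exp (20 * G₂) := by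
    apply Real.exp_le_exp.2
    linarith
  have c5 : 2 * ((Fintype.card κ : ℝ) * ρ) *
      ((1 / 3) ^ J * Real.exp (20 * ∑ i, 1 / (((emb PP₂ i : ℕ) : ℝ) - 1))) ≤ 1 / 12 := by
    refine le_trans ?_ hmom
    rw [hu]
    apply mul_le_mul _ _ (by positivity) (by positivity)
    · linarith
    · exact mul_le_mul_of_nonneg_left hG20 (by positivity)
  have c5' : 2 * ((Fintype.card κ : ℝ) * ρ) *
      Real.exp (20 * ∑ i, 1 / (((emb PP₂ i : ℕ) : ℝ) - 1)) ≤ R₂ / 12 := by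
    refine le_trans ?_ hpen
    rw [hu]
    apply mul_le_mul _ hG20 (by positivity) (by positivity)
    linarith
  have hlogz : 0 < Real.log z := Real.log_pos hz1
  have hExp : Real.exp (η * ((1 + η) * (Fintype.card κ : ℝ) *
      (ρ * K) / Real.log z - Real.log (Q / z) / Real.log z)) ≤
      Real.exp (η * ((1 + η) * (2 * u) * (WW y / WW w * K) / Real.log z -
      Real.log (Q / z) / Real.log z)) := by
    apply Real.exp_le_exp.2
    apply mul_le_mul_of_nonneg_left _ hη0.le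
    apply sub_le_sub_right
    apply div_le_div_of_nonneg_right _ hlogz.le
    rw [hu]
    have hK := H.K0
    have e1 := mul_le_mul_of_nonneg_right hρ1 (mul_nonneg (show (0:ℝ) ≤ 1 + η by linarith) hK)
    calc (1 + η) * u * (ρ * K) = u * ρ * ((1 + η) * K) := by ring
      _ ≤ 2 * u * (WW y / WW w) * ((1 + η) * K) := e1
      _ = _ := by ring
  have c7 : 4 * ((Fintype.card κ : ℝ) * ρ) * (τ + (δ ^ 2 +
      Real.exp (η * ((1 + η) * (Fintype.card κ : ℝ) *
      (ρ * K) / Real.log z - Real.log (Q / z) / Real.log z)))) ≤ 1 / 12 := by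
    refine le_trans ?_ htail
    apply mul_le_mul
    · rw [hu]; linarith
    · linarith
    · positivity
    · positivity
  have c7' : Real.exp (η * ((1 + η) * (Fintype.card κ : ℝ) *
      (ρ * K) / Real.log z - Real.log (Q / z) / Real.log z)) ≤ 1 / 8 := hExp.trans hE8
  have c8 : (Fintype.card κ : ℝ) * δ ≤ 1 / 4 := by rw [hu]; exact huδ
  have c10 : (Fintype.card κ : ℝ) * ∑ i, 1 / (((emb PP₂ i : ℕ) : ℝ) - 1) ≤ T := by
    rw [hu]
    exact (mul_le_mul_of_nonneg_left hG₂ hu0).trans hT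
  have hsumEr : ∑ s : Finset (Fin (PP₁.card + PP₂.card)) with
      ∏ i ∈ s, (Fin.append (fun i => ((emb PP₁ i : ℕ) : ℝ)) (fun i => ((emb PP₂ i : ℕ) : ℝ)) :
      Fin (PP₁.card + PP₂.card) → ℝ) i ≤ QT, Er (∏ i ∈ s, E i) ≤ ∑ q ∈ QS w QT ps, Er q := by
    have e1 : ∑ s : Finset (Fin (PP₁.card + PP₂.card)) with
      ∏ i ∈ s, (Fin.append (fun i => ((emb PP₁ i : ℕ) : ℝ)) (fun i => ((emb PP₂ i : ℕ) : ℝ)) :
      Fin (PP₁.card + PP₂.card) → ℝ) i ≤ QT, Er (∏ i ∈ s, E i) =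
      ∑ q ∈ (univ.filter (fun s : Finset (Fin (PP₁.card + PP₂.card)) =>
        ∏ i ∈ s, (Fin.append (fun i => ((emb PP₁ i : ℕ) : ℝ)) (fun i => ((emb PP₂ i : ℕ) : ℝ)) :
        Fin (PP₁.card + PP₂.card) → ℝ) i ≤ QT)).image (fun s => ∏ i ∈ s, E i), Er q := by
      rw [Finset.sum_image]
      intro s _ t _ hst
      exact prod_primes_inj hEP hEinj hst
    rw [e1]
    apply Finset.sum_le_sum_of_subset_of_nonneg
    · intro q hq
      rw [Finset.mem_image] at hq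
      obtain ⟨s, hs, rfl⟩ := hq
      rw [Finset.mem_filter] at hs
      unfold QS
      rw [Finset.mem_filter, Finset.mem_Icc]
      refine ⟨⟨Finset.prod_pos fun i _ => (hEP i).pos, ?_⟩, prod_primes_sqfree hEP hEinj s, ?_⟩
      · apply Nat.le_floor
        refine le_trans (le_of_eq ?_) hs.2
        rw [Finset.prod_congr rfl fun i _ => hPE i]
        push_cast
        rfl
      · intro p hp hpd
        obtain ⟨i, _, hi⟩ := (Prime.dvd_finsetProd_iff hp.prime _).mp hpd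
        have := (Nat.prime_dvd_prime_iff_eq hp (hEP i)).1 hi
        rw [this]
        exact hEw i
    · intro q _ _
      exact hEr q
  have hMF : 0 ≤ MF u U T MR r JR J₂ J := by
    unfold MF MG
    have : 0 ≤ U := by linarith
    have : 0 ≤ T := by linarith
    positivity
  have hmain := core6 (κ := κ) 𝒜 ω hω
    (fun a => (Fin.append (colr PP₁ res a) (colr PP₂ res a) : Col (PP₁.card + PP₂.card) κ))
    (fun i => ((emb PP₁ i : ℕ) : ℝ)) (fun i => by have := hPw i; linarith)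
    H (fun i => 1 / (((emb PP₁ i : ℕ) : ℝ) - 1)) R m τ HR hτ0 hτ1 MR QR JR hMR hQR hRL
    Q δ N η R₂ z T U QT J m₀ r J₂ hJ hm₀ hN hQ hη0 hη1
    (fun i => by have := hP₁0 i; positivity) c3' c9 c2 c3 hsupp c8
    hr hrm hR₂ hcard c7' c7 c5 c5' hJ₂' hT1 c10 hU1 (by rw [hu]; exact hU) hz1.le
    (fun i => (hm₂ _ (emb_mem PP₂ i)).2.2.1) hQT
    (fun s => Er (∏ i ∈ s, E i)) (fun s => hEr _) hevent
    (by
      rw [hu]
      exact (mul_le_mul_of_nonneg_left hsumEr hMF).trans hfin)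
  refine hmain.trans ?_
  have hA1 : ∑ a ∈ 𝒜 with (∀ k, ∃ i,
      (Fin.append (colr PP₁ res a) (colr PP₂ res a) : Col (PP₁.card + PP₂.card) κ) i =
        some k), ω a ≤
      ∑ a ∈ 𝒜 with (∀ k : κ, ∃ p : ℕ, p.Prime ∧ w < p ∧
      (p : ℝ) ≤ z ∧ (p : ℤ) ∣ a - res p k), ω a := by
    apply Finset.sum_le_sum_of_subset_of_nonneg
    · intro a ha
      rw [Finset.mem_filter] at ha ⊢
      refine ⟨ha.1, fun k => ?_⟩
      obtain ⟨i, hi⟩ := ha.2 k
      revert hi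
      refine Fin.addCases (fun j hj => ?_) (fun j hj => ?_) i
      · rw [Fin.append_left] at hj
        have h1 := (colr_eq hinj₁ a j k).mp hj
        have h2 := hm₁ _ (emb_mem PP₁ j)
        exact ⟨emb PP₁ j, h2.1, h2.2.1, h2.2.2.1.trans hyz, h1⟩
      · rw [Fin.append_right] at hj
        have h1 := (colr_eq hinj₂ a j k).mp hj
        have h2 := hm₂ _ (emb_mem PP₂ j)
        exact ⟨emb PP₂ j, h2.1, lt_of_le_of_lt hwy h2.2.1, h2.2.2.1, h1⟩
    · intro a ha _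
      exact hω a (Finset.mem_filter.1 ha).1
  apply mul_le_mul hA1 _ (by positivity)
    (Finset.sum_nonneg fun a ha => hω a (Finset.mem_filter.1 ha).1)
  have hR20 : 0 ≤ R₂ + 1 := by linarith
  apply pow_le_pow_left₀ (by positivity)
  apply mul_le_mul_of_nonneg_left _ (by norm_num)
  apply pow_le_pow_left₀ (by positivity)
  have h5 : Real.exp (∑ i, 1 / (((emb PP₂ i : ℕ) : ℝ) - 1)) ≤ Real.exp G₂ := Real.exp_le_exp.2 hG₂
  have h6 : 0 ≤ ((J : ℝ) + 2) ^ (2 * J) * (R₂ + 1) := by positivity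
  have h7 := mul_le_mul_of_nonneg_right h5 h6
  linarith

end Pool.Agent.K4H19.FQ
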