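import Pool.Agent.K4H19.FQ.App2

set_option autoImplicit false
set_option linter.unusedVariables false

/-! # The number of primes isolated on the scale `l log X` -/

namespace Pool.Agent.K4H19.FQ

open Finset Filter

theorem Iso_real {F n : ℕ} (h : Iso F n) (m : ℕ) (hm : m.Prime) (hmn : m ≠ n) :
    (F:ℝ) + 1 ≤ |(m:ℝ) - n| := by
  have h1 := h m hm hmn
  have h2 : (F:ℤ) + 1 ≤ |(m:ℤ) - n| := h1
  exact_mod_cast h2

open scoped Classical in
theorem main_primes : ∃ c C X₀ : ℝ, 0 < c ∧ 0 < C ∧ 3 ≤ X₀ ∧ ∀ X : ℝ, X₀ ≤ X →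
    ∀ l : ℝ, 1 ≤ l → l ≤ c * Real.log (Real.log X) →
    X / Real.log X * Real.exp (-Real.exp (C * l)) ≤
      (((Icc 1 ⌊X⌋₊).filter (fun q : ℕ => q.Prime ∧ X / 3 < q ∧ ∀ m : ℕ, m.Prime → m ≠ q →
        l * Real.log X ≤ |(m:ℝ) - q|)).card : ℝ) := by
  obtain ⟨c₅, e₀, X₁, hc₅, he₀, hX₁, hmain⟩ := main_iso
  set K : ℝ := max e₀ (2 / c₅) with hK
  have hKe : e₀ ≤ K := le_max_left _ _
  have hKc : 2 / c₅ ≤ K := le_max_right _ _
  have hK1 : 1 ≤ K := he₀.trans hKe
  have hK0 : 0 < K := by linarith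
  have hlog := Real.tendsto_log_atTop
  have hll : Tendsto (fun X : ℝ => Real.log (Real.log X)) atTop atTop := hlog.comp hlog
  obtain ⟨X₂, hX₂⟩ := (hll.eventually (eventually_ge_atTop (2 * Real.log 2))).exists_forall_of_atTop
  refine ⟨1 / (400 * K), 4 + 2 * K, max (3 * X₁) (max X₂ 9), by positivity, by positivity,
    (by norm_num : (3:ℝ) ≤ 9).trans ((le_max_right _ _).trans (le_max_right _ _)), ?_⟩
  intro X hX l hl1 hl2
  have hXa : 3 * X₁ ≤ X := (le_max_left _ _).trans hX
  have hXb : X₂ ≤ X := (le_max_left _ _).trans ((le_max_right _ _).trans hX)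
  have hXc : 9 ≤ X := (le_max_right _ _).trans ((le_max_right _ _).trans hX)
  have h1 := hX₂ X hXb
  have hX0 : 0 < X := by linarith
  have hlogX : 0 < Real.log X := Real.log_pos (by linarith)
  have hlog3 : Real.log X / 2 ≤ Real.log (X / 3) := by
    rw [Real.log_div hX0.ne' (by norm_num)]
    have h2 : Real.log 9 ≤ Real.log X := Real.log_le_log (by norm_num) hXc
    have h3 : Real.log 9 = 2 * Real.log 3 := by
      rw [show (9:ℝ) = 3 ^ 2 by norm_num, Real.log_pow]
      norm_num
    linarith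
  have hlog3' : Real.log (X / 3) ≤ Real.log X :=
    Real.log_le_log (by positivity) (by linarith)
  have hlog30 : 0 < Real.log (X / 3) := by linarith
  have hlle : Real.log (Real.log X) / 2 ≤ Real.log (Real.log (X / 3)) := by
    have h2 : Real.log (Real.log X / 2) ≤ Real.log (Real.log (X / 3)) :=
      Real.log_le_log (by positivity) hlog3
    rw [Real.log_div hlogX.ne' (by norm_num)] at h2
    linarith
  have hl0 : 0 < l := by linarith
  set e : ℝ := K * l with he
  have hee : e₀ ≤ e := by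
    rw [he]
    nlinarith
  have he1 : 1 ≤ e := he₀.trans hee
  have hle : e ≤ (1 / 200) * Real.log (Real.log (X / 3)) := by
    have h2 : K * l ≤ K * (1 / (400 * K) * Real.log (Real.log X)) :=
      mul_le_mul_of_nonneg_left hl2 hK0.le
    have h3 : K * (1 / (400 * K) * Real.log (Real.log X)) = (1 / 400) * Real.log (Real.log X) := by
      field_simp
    rw [h3] at h2
    rw [he]
    linarith
  have h2 := hmain (X / 3) (by linarith) e hee hle
  have h3 : 3 * (X / 3) = X := by ring
  rw [h3] at h2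
  -- the left side
  have h4 : X / Real.log X * Real.exp (-Real.exp ((4 + 2 * K) * l)) ≤
      X / 3 / (3200 * Real.log (X / 3)) * Real.exp (-(e ^ 2 * Real.exp e)) := by
    have h5 : X / (9600 * Real.log X) ≤ X / 3 / (3200 * Real.log (X / 3)) := by
      rw [div_div]
      apply div_le_div_of_nonneg_left hX0.le (by positivity)
      nlinarith
    have h6 : Real.exp (-Real.exp ((4 + 2 * K) * l)) ≤
        1 / 9600 * Real.exp (-(e ^ 2 * Real.exp e)) := by
      have h7 : e ^ 2 ≤ 2 * Real.exp e := by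
        have := Real.quadratic_le_exp_of_nonneg (x := e) (by linarith)
        nlinarith
      have h8 : (0:ℝ) < Real.exp e := Real.exp_pos _
      have h9 : Real.exp 1 ≤ Real.exp e := Real.exp_le_exp.2 he1
      have h10 : (2.7:ℝ) < Real.exp 1 := by
        have := Real.exp_one_gt_d9
        linarith
      have h11 : (50:ℝ) ≤ Real.exp 4 := by
        have h12 : Real.exp 4 = Real.exp 1 ^ 4 := by
          rw [← Real.exp_nat_mul]
          norm_num
        rw [h12]
        have h13 : (2.7:ℝ) ^ 4 ≤ Real.exp 1 ^ 4 := by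
          apply pow_le_pow_left₀ (by norm_num) h10.le
        have h14 : (50:ℝ) ≤ 2.7 ^ 4 := by norm_num
        linarith
      have h12 : Real.exp ((4 + 2 * K) * l) ≥ Real.exp 4 * Real.exp e ^ 2 := by
        rw [← Real.exp_nat_mul, ← Real.exp_add]
        apply Real.exp_le_exp.2
        rw [he]
        push_cast
        nlinarith
      have h13 : 10 + e ^ 2 * Real.exp e ≤ Real.exp ((4 + 2 * K) * l) := by
        have h14 : e ^ 2 * Real.exp e ≤ 2 * Real.exp e ^ 2 := by nlinarith
        have h15 : (1:ℝ) ≤ Real.exp e ^ 2 := by nlinarith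
        nlinarith
      have h14 : Real.exp (-10) ≤ 1 / 9600 := by
        have h15 : (9600:ℝ) ≤ Real.exp 10 := by
          have h16 : Real.exp 10 = Real.exp 1 ^ 10 := by
            rw [← Real.exp_nat_mul]
            norm_num
          rw [h16]
          have h17 : (2.7:ℝ) ^ 10 ≤ Real.exp 1 ^ 10 := by
            apply pow_le_pow_left₀ (by norm_num) h10.le
          have h18 : (9600:ℝ) ≤ 2.7 ^ 10 := by norm_num
          linarith
        rw [Real.exp_neg, ← one_div]
        exact one_div_le_one_div_of_le (by norm_num) h15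
      calc Real.exp (-Real.exp ((4 + 2 * K) * l)) ≤ Real.exp (-10 + -(e ^ 2 * Real.exp e)) := by
            apply Real.exp_le_exp.2
            linarith
        _ = Real.exp (-10) * Real.exp (-(e ^ 2 * Real.exp e)) := Real.exp_add _ _
        _ ≤ _ := mul_le_mul_of_nonneg_right h14 (Real.exp_pos _).le
    calc X / Real.log X * Real.exp (-Real.exp ((4 + 2 * K) * l)) ≤
        X / Real.log X * (1 / 9600 * Real.exp (-(e ^ 2 * Real.exp e))) :=
          mul_le_mul_of_nonneg_left h6 (by positivity)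
      _ = X / (9600 * Real.log X) * Real.exp (-(e ^ 2 * Real.exp e)) := by
          field_simp
      _ ≤ _ := mul_le_mul_of_nonneg_right h5 (Real.exp_pos _).le
  refine (h4.trans h2).trans ?_
  have h5 : ((Icc 1 ⌊X⌋₊).filter (fun n : ℕ => n.Prime ∧ X / 3 < n ∧
        Iso ⌊c₅ * (e * Real.log (X / 3))⌋₊ n)) ⊆
      ((Icc 1 ⌊X⌋₊).filter (fun q : ℕ => q.Prime ∧ X / 3 < q ∧ ∀ m : ℕ, m.Prime → m ≠ q →
        l * Real.log X ≤ |(m:ℝ) - q|)) := by
    intro q hq
    rw [Finset.mem_filter] at hq ⊢
    refine ⟨hq.1, hq.2.1, hq.2.2.1, ?_⟩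
    intro m hm hmq
    have h6 := Iso_real hq.2.2.2 m hm hmq
    have h7 := Nat.lt_floor_add_one (c₅ * (e * Real.log (X / 3)))
    have h8 : l * Real.log X ≤ c₅ * (e * Real.log (X / 3)) := by
      have h9 : 2 ≤ c₅ * K := by
        rw [div_le_iff₀ hc₅] at hKc
        linarith
      calc l * Real.log X = (2 * l) * (Real.log X / 2) := by ring
        _ ≤ (c₅ * K * l) * Real.log (X / 3) := by
            apply mul_le_mul _ hlog3 (by positivity) (by positivity)
            nlinarith
        _ = _ := by rw [he]; ring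
    linarith
  exact_mod_cast Finset.card_le_card h5

/-- **Large gaps, both sides, counted by index.** -/
theorem main_index : ∃ c C X₀ : ℝ, 0 < c ∧ 0 < C ∧ 3 ≤ X₀ ∧ ∀ X : ℝ, X₀ ≤ X →
    ∀ l : ℝ, 1 ≤ l → l ≤ c * Real.log (Real.log X) →
    X / Real.log X * Real.exp (-Real.exp (C * l)) ≤
      (((Finset.range ⌊X⌋₊).filter (fun n : ℕ =>
        (Nat.nth Nat.Prime (n + 1) : ℝ) ≤ X ∧
        l * Real.log X ≤ (Nat.nth Nat.Prime (n + 1) : ℝ) - Nat.nth Nat.Prime n ∧
        l * Real.log X ≤ (Nat.nth Nat.Prime (n + 2) : ℝ) - Nat.nth Nat.Prime (n + 1))).card : ℝ) := by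
  classical
  obtain ⟨c, C, X₀, hc, hC, hX₀, h⟩ := main_primes
  refine ⟨c, C, max X₀ 9, hc, hC, hX₀.trans (le_max_left _ _), ?_⟩
  intro X hX l hl1 hl2
  have hX9 : 9 ≤ X := (le_max_right _ _).trans hX
  have hX0 : 0 ≤ X := by linarith
  refine (h X ((le_max_left _ _).trans hX) l hl1 hl2).trans (Nat.cast_le.2 ?_)
  apply Finset.card_le_card_of_injOn (fun q => Nat.count Nat.Prime q - 1)
  · intro q hq
    rw [Finset.mem_coe, Finset.mem_filter, Finset.mem_Icc] at hq
    obtain ⟨⟨hq1, hq2⟩, hqp, hq3, hq4⟩ := hq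
    have hq3' : 3 ≤ q := by
      have : (3:ℝ) < q := by linarith
      exact_mod_cast this.le
    have hcnt : 1 ≤ Nat.count Nat.Prime q := by
      have h1 := Nat.count_monotone Nat.Prime hq3'
      have h2 : Nat.count Nat.Prime 3 = 1 := by decide
      omega
    have hnth : Nat.nth Nat.Prime (Nat.count Nat.Prime q - 1 + 1) = q := by
      rw [Nat.sub_add_cancel hcnt]
      exact Nat.nth_count hqp
    have hmono := Nat.nth_strictMono Nat.infinite_setOfPred_prime
    have hlt1 : Nat.nth Nat.Prime (Nat.count Nat.Prime q - 1) < q := by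
      have := hmono (Nat.lt_succ_self (Nat.count Nat.Prime q - 1))
      rwa [Nat.succ_eq_add_one, hnth] at this
    have hlt2 : q < Nat.nth Nat.Prime (Nat.count Nat.Prime q - 1 + 2) := by
      have := hmono (Nat.lt_succ_self (Nat.count Nat.Prime q - 1 + 1))
      rwa [hnth] at this
    rw [Finset.mem_coe, Finset.mem_filter, Finset.mem_range]
    refine ⟨?_, ?_, ?_, ?_⟩
    · have h1 : Nat.count Nat.Prime q ≤ q := Nat.count_le _
      change Nat.count Nat.Prime q - 1 < ⌊X⌋₊
      omega
    · rw [hnth]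
      exact (Nat.le_floor_iff hX0).1 hq2
    · rw [hnth]
      have h1 := hq4 _ (Nat.prime_nth_prime _) hlt1.ne
      rw [abs_of_nonpos (by
        have : ((Nat.nth Nat.Prime (Nat.count Nat.Prime q - 1) : ℕ) : ℝ) ≤ q := by
          exact_mod_cast hlt1.le
        linarith)] at h1
      linarith
    · rw [hnth]
      have h1 := hq4 _ (Nat.prime_nth_prime _) hlt2.ne'
      rw [abs_of_nonneg (by
        have : (q:ℝ) ≤ (Nat.nth Nat.Prime (Nat.count Nat.Prime q - 1 + 2) : ℕ) := by
          exact_mod_cast hlt2.le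
        linarith)] at h1
      exact h1
  · intro q hq q' hq' hqq
    rw [Finset.mem_coe, Finset.mem_filter, Finset.mem_Icc] at hq hq'
    have h3 : ∀ q : ℕ, X / 3 < q → 1 ≤ Nat.count Nat.Prime q := by
      intro q hq
      have hq3' : 3 ≤ q := by
        have : (3:ℝ) < q := by linarith
        exact_mod_cast this.le
      have h1 := Nat.count_monotone Nat.Prime hq3'
      have h2 : Nat.count Nat.Prime 3 = 1 := by decide
      omega
    have h4 := h3 q hq.2.2.1
    have h5 := h3 q' hq'.2.2.1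
    have h6 : Nat.count Nat.Prime q = Nat.count Nat.Prime q' := by
      simp only at hqq
      omega
    rw [← Nat.nth_count hq.2.1, h6, Nat.nth_count hq'.2.1]

end Pool.Agent.K4H19.FQ
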