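import Pool.Agent.K4H19.FQ.Fin

set_option autoImplicit false
set_option linter.unusedVariables false

/-! # The proportion of indices below `N` -/

namespace Pool.Agent.K4H19.FQ

open Finset Filter

theorem main_N (c C X₀ : ℝ) (hc : 0 < c) (hC : 0 < C)
    (h : ∀ X : ℝ, X₀ ≤ X →
    ∀ l : ℝ, 1 ≤ l → l ≤ c * Real.log (Real.log X) →
    X / Real.log X * Real.exp (-Real.exp (C * l)) ≤
      (((Finset.range ⌊X⌋₊).filter (fun n : ℕ =>
        (Nat.nth Nat.Prime (n + 1) : ℝ) ≤ X ∧
        l * Real.log X ≤ (Nat.nth Nat.Prime (n + 1) : ℝ) - Nat.nth Nat.Prime n ∧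
        l * Real.log X ≤ (Nat.nth Nat.Prime (n + 2) : ℝ) - Nat.nth Nat.Prime (n + 1))).card : ℝ)) :
    ∃ N₀ : ℕ, ∀ N : ℕ, N₀ ≤ N →
    ∀ l : ℝ, 1 ≤ l → l ≤ c * Real.log (Real.log N) →
    N * Real.exp (-Real.exp ((C + 3) * l)) ≤
      (((Finset.range N).filter (fun n : ℕ =>
        l * Real.log N ≤ (Nat.nth Nat.Prime (n + 1) : ℝ) - Nat.nth Nat.Prime n ∧
        l * Real.log N ≤ (Nat.nth Nat.Prime (n + 2) : ℝ) - Nat.nth Nat.Prime (n + 1))).card : ℝ) := by
  classical
  have hlogN : Tendsto (fun N : ℕ => Real.log (N:ℝ)) atTop atTop :=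
    Real.tendsto_log_atTop.comp tendsto_natCast_atTop_atTop
  have hNN : Tendsto (fun N : ℕ => (N:ℝ)) atTop atTop := tendsto_natCast_atTop_atTop
  have hl4 := Real.log_two_lt_d9
  have hlog4 : Real.log 4 = 2 * Real.log 2 := by
    rw [show (4:ℝ) = 2 ^ 2 by norm_num, Real.log_pow]
    norm_num
  obtain ⟨X₁, hX₁⟩ := (Chebyshev.eventually_primeCounting_le
    (ε := 1) (by norm_num)).exists_forall_of_atTop
  obtain ⟨N₁, hN₁⟩ := ((hlogN.eventually (eventually_ge_atTop 4)).and
    (hNN.eventually (eventually_ge_atTop (max X₀ (max X₁ 9))))).exists_forall_of_atTop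
  refine ⟨N₁, ?_⟩
  intro N hN l hl1 hl2
  obtain ⟨h1, h2⟩ := hN₁ N hN
  have hNa : X₀ ≤ N := (le_max_left _ _).trans h2
  have hNb : X₁ ≤ N := (le_max_left _ _).trans ((le_max_right _ _).trans h2)
  have hNc : (9:ℝ) ≤ N := (le_max_right _ _).trans ((le_max_right _ _).trans h2)
  have hN0 : (0:ℝ) < N := by linarith
  set X : ℝ := N * Real.log N / 4 with hX
  have hNX : (N:ℝ) ≤ X := by
    rw [hX, le_div_iff₀ (by norm_num)]
    nlinarith
  have hX0 : 0 < X := by linarith
  have hlogX : Real.log N ≤ Real.log X := Real.log_le_log hN0 hNX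
  have hlogX0 : 0 < Real.log X := by linarith
  have hlogX2 : Real.log X ≤ 2 * Real.log N := by
    have h3 : X ≤ (N:ℝ) ^ 2 := by
      rw [hX]
      have := Real.log_le_self hN0.le
      nlinarith
    calc Real.log X ≤ Real.log ((N:ℝ) ^ 2) := Real.log_le_log hX0 h3
      _ = _ := by rw [Real.log_pow]; norm_num
  have hll : Real.log (Real.log N) ≤ Real.log (Real.log X) :=
    Real.log_le_log (by linarith) hlogX
  have h3 := h X (hNa.trans hNX) l hl1 (hl2.trans (mul_le_mul_of_nonneg_left hll hc.le))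
  have hpi : (Nat.primeCounting ⌊X⌋₊ : ℝ) ≤ N := by
    have h4 := hX₁ X (hNb.trans hNX)
    refine h4.trans ?_
    rw [div_le_iff₀ hlogX0, hX]
    nlinarith
  have h4 : N * Real.exp (-Real.exp ((C + 3) * l)) ≤
      X / Real.log X * Real.exp (-Real.exp (C * l)) := by
    have h5 : (N:ℝ) / 8 ≤ X / Real.log X := by
      rw [div_le_div_iff₀ (by norm_num) hlogX0, hX]
      nlinarith
    have h6 : Real.exp (-Real.exp ((C + 3) * l)) ≤ 1 / 8 * Real.exp (-Real.exp (C * l)) := by
      have h7 : Real.exp 3 * Real.exp (C * l) ≤ Real.exp ((C + 3) * l) := by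
        rw [← Real.exp_add]
        apply Real.exp_le_exp.2
        nlinarith
      have h8 : (1:ℝ) ≤ Real.exp (C * l) := Real.one_le_exp (by positivity)
      have h9 : (4:ℝ) ≤ Real.exp 3 := by
        have := Real.add_one_le_exp (3:ℝ)
        linarith
      have h10 : Real.exp (-3) ≤ 1 / 8 := by
        have h11 : (8:ℝ) ≤ Real.exp 3 := by
          have h12 : Real.exp 3 = Real.exp 1 ^ 3 := by
            rw [← Real.exp_nat_mul]
            norm_num
          rw [h12]
          have h13 : (2:ℝ) ≤ Real.exp 1 := by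
            have := Real.add_one_le_exp (1:ℝ)
            linarith
          calc (8:ℝ) = 2 ^ 3 := by norm_num
            _ ≤ _ := pow_le_pow_left₀ (by norm_num) h13 3
        rw [Real.exp_neg, ← one_div]
        exact one_div_le_one_div_of_le (by norm_num) h11
      calc Real.exp (-Real.exp ((C + 3) * l)) ≤ Real.exp (-3 + -Real.exp (C * l)) := by
            apply Real.exp_le_exp.2
            nlinarith
        _ = Real.exp (-3) * Real.exp (-Real.exp (C * l)) := Real.exp_add _ _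
        _ ≤ _ := mul_le_mul_of_nonneg_right h10 (Real.exp_pos _).le
    calc N * Real.exp (-Real.exp ((C + 3) * l)) ≤ N * (1 / 8 * Real.exp (-Real.exp (C * l))) :=
          mul_le_mul_of_nonneg_left h6 hN0.le
      _ = N / 8 * Real.exp (-Real.exp (C * l)) := by ring
      _ ≤ _ := mul_le_mul_of_nonneg_right h5 (Real.exp_pos _).le
  refine (h4.trans h3).trans (Nat.cast_le.2 (Finset.card_le_card ?_))
  intro n hn
  rw [Finset.mem_filter, Finset.mem_range] at hn ⊢
  obtain ⟨_, hn1, hn2, hn3⟩ := hn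
  have hl0 : 0 ≤ l := by linarith
  have h5 : l * Real.log N ≤ l * Real.log X := mul_le_mul_of_nonneg_left hlogX hl0
  refine ⟨?_, h5.trans hn2, h5.trans hn3⟩
  have h6 : Nat.nth Nat.Prime (n + 1) ≤ ⌊X⌋₊ := Nat.le_floor hn1
  have h7 : Nat.primeCounting (Nat.nth Nat.Prime (n + 1)) ≤ Nat.primeCounting ⌊X⌋₊ :=
    Nat.monotone_primeCounting h6
  have h8 : Nat.primeCounting (Nat.nth Nat.Prime (n + 1)) = n + 2 := by
    unfold Nat.primeCounting Nat.primeCounting'
    exact Nat.count_nth_succ_of_infinite Nat.infinite_setOfPred_prime (n + 1)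
  have h9 : Nat.primeCounting ⌊X⌋₊ ≤ N := by exact_mod_cast hpi
  omega

end Pool.Agent.K4H19.FQ
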