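import Pool.Agent.Y831.RC5.Blk5

set_option autoImplicit false
set_option linter.unusedSectionVars false

/-! # Combinations of elementary events with bounded coefficient sum on every support -/

namespace Pool.Agent.K4H19.FQ

open Finset Pool.Agent.H256R2.SC Pool.Agent.Y831.RC

variable {n n₁ n₂ : ℕ} {κ : Type} [Fintype κ] [DecidableEq κ]

/-- `F` is a combination of elementary events on at most `J` indices and of size at most `Q`, with
coefficient sum at most `M` on every support -/
def MB (P : Fin n → ℝ) (M Q : ℝ) (J : ℕ) (F : Col n κ → ℝ) : Prop :=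
  ∃ f : Col n κ → ℝ, (∀ x, F x = ∑ D, f D * ind D x) ∧
    (∀ D, f D ≠ 0 → qq P D ≤ Q ∧ (Pool.Agent.H256R2.SC.supp D).card ≤ J) ∧
    ∀ s : Finset (Fin n), ∑ D : Col n κ with Pool.Agent.H256R2.SC.supp D = s, |f D| ≤ M

theorem MB_mono {P : Fin n → ℝ} {M M' Q Q' : ℝ} {J J' : ℕ} {F : Col n κ → ℝ} (hM : M ≤ M')
    (hQ : Q ≤ Q') (hJ : J ≤ J') (h : MB P M Q J F) : MB P M' Q' J' F := by
  obtain ⟨f, h1, h2, h3⟩ := h
  exact ⟨f, h1, fun D hD => ⟨(h2 D hD).1.trans hQ, (h2 D hD).2.trans hJ⟩, fun s => (h3 s).trans hM⟩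

theorem MB_nn {P : Fin n → ℝ} {M Q : ℝ} {J : ℕ} {F : Col n κ → ℝ} (h : MB P M Q J F) : 0 ≤ M := by
  obtain ⟨f, _, _, h3⟩ := h
  exact (Finset.sum_nonneg fun D _ => abs_nonneg (f D)).trans (h3 ∅)

theorem supp_none : Pool.Agent.H256R2.SC.supp (fun _ => none : Col n κ) = ∅ := by
  unfold Pool.Agent.H256R2.SC.supp
  simp

theorem MB_single (P : Fin n → ℝ) (c : ℝ) (D₀ : Col n κ) (Q : ℝ) (J : ℕ) (hQ : qq P D₀ ≤ Q)
    (hJ : (Pool.Agent.H256R2.SC.supp D₀).card ≤ J) : MB P |c| Q J (fun x => c * ind D₀ x) := by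
  classical
  refine ⟨fun D => if D = D₀ then c else 0, fun x => ?_, fun D hD => ?_, fun s => ?_⟩
  · rw [Finset.sum_eq_single D₀]
    · simp
    · intro D _ hD
      simp [hD]
    · intro h
      exact absurd (mem_univ _) h
  · have h : D = D₀ := by
      by_contra h
      exact hD (if_neg h)
    subst h
    exact ⟨hQ, hJ⟩
  · calc ∑ D : Col n κ with Pool.Agent.H256R2.SC.supp D = s, |if D = D₀ then c else 0|
        ≤ ∑ D : Col n κ, |if D = D₀ then c else 0| :=
          Finset.sum_le_sum_of_subset_of_nonneg (Finset.filter_subset _ _)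
            fun D _ _ => abs_nonneg _
      _ = |c| := by
        rw [Finset.sum_eq_single D₀]
        · simp
        · intro D _ hD
          simp [hD]
        · intro h
          exact absurd (mem_univ _) h

theorem MB_const (P : Fin n → ℝ) (c Q : ℝ) (J : ℕ) (hQ : 1 ≤ Q) :
    MB P |c| Q J (fun _ : Col n κ => c) := by
  have h := MB_single P c (fun _ => none : Col n κ) Q J (by rw [qq_none]; exact hQ)
    (by rw [supp_none]; simp)
  have e : (fun x : Col n κ => c * ind (fun _ => none) x) = fun _ => c := by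
    funext x
    simp [ind]
  rwa [e] at h

theorem MB_add {P : Fin n → ℝ} {M M' Q : ℝ} {J : ℕ} {F G : Col n κ → ℝ} (hF : MB P M Q J F)
    (hG : MB P M' Q J G) : MB P (M + M') Q J (fun x => F x + G x) := by
  obtain ⟨f, h1, h2, h3⟩ := hF
  obtain ⟨f', h1', h2', h3'⟩ := hG
  refine ⟨fun D => f D + f' D, fun x => ?_, fun D hD => ?_, fun s => ?_⟩
  · change F x + G x = _
    rw [h1, h1', ← Finset.sum_add_distrib]
    exact Finset.sum_congr rfl fun D _ => by ring
  · by_cases h : f D = 0
    · exact h2' D fun h' => hD (by simp only [h, h', add_zero])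
    · exact h2 D h
  · refine le_trans ?_ (add_le_add (h3 s) (h3' s))
    rw [← Finset.sum_add_distrib]
    exact Finset.sum_le_sum fun D _ => abs_add_le _ _

theorem MB_smul {P : Fin n → ℝ} {M Q : ℝ} {J : ℕ} {F : Col n κ → ℝ} (c : ℝ)
    (hF : MB P M Q J F) : MB P (|c| * M) Q J (fun x => c * F x) := by
  obtain ⟨f, h1, h2, h3⟩ := hF
  refine ⟨fun D => c * f D, fun x => ?_, fun D hD => ?_, fun s => ?_⟩
  · change c * F x = _
    rw [h1, Finset.mul_sum]
    exact Finset.sum_congr rfl fun D _ => by ring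
  · exact h2 D fun h => hD (by simp only [h, mul_zero])
  · refine le_trans (le_of_eq ?_) (mul_le_mul_of_nonneg_left (h3 s) (abs_nonneg c))
    rw [Finset.mul_sum]
    exact Finset.sum_congr rfl fun D _ => abs_mul _ _

theorem MB_sub {P : Fin n → ℝ} {M M' Q : ℝ} {J : ℕ} {F G : Col n κ → ℝ} (hF : MB P M Q J F)
    (hG : MB P M' Q J G) : MB P (M + M') Q J (fun x => F x - G x) := by
  have h := MB_add hF (MB_smul (-1) hG)
  have e : (fun x => F x + -1 * G x) = fun x => F x - G x := by funext x; ring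
  rw [e] at h
  refine MB_mono (le_of_eq ?_) le_rfl le_rfl h
  rw [abs_neg, abs_one, one_mul]

theorem MB_zero (P : Fin n → ℝ) (Q : ℝ) (J : ℕ) : MB P 0 Q J (fun _ : Col n κ => 0) :=
  ⟨fun _ => 0, fun x => by simp, fun D hD => absurd rfl hD, fun s => by simp⟩

theorem MB_sum {P : Fin n → ℝ} {Q : ℝ} {J : ℕ} {ι : Type*} (S : Finset ι) (M : ι → ℝ)
    (F : ι → Col n κ → ℝ) (hF : ∀ j ∈ S, MB P (M j) Q J (F j)) :
    MB P (∑ j ∈ S, M j) Q J (fun x => ∑ j ∈ S, F j x) := by
  classical
  induction S using Finset.induction_on with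
  | empty => simpa using MB_zero (κ := κ) P Q J
  | insert a S ha ih =>
    have h1 := hF a (Finset.mem_insert_self a S)
    have h2 := ih fun j hj => hF j (Finset.mem_insert_of_mem hj)
    have h3 := MB_add h1 h2
    rw [Finset.sum_insert ha]
    have h4 : (fun x => ∑ j ∈ insert a S, F j x) = fun x => F a x + ∑ j ∈ S, F j x := by
      funext x
      rw [Finset.sum_insert ha]
    rw [h4]
    exact h3

theorem supp_un (D D' : Col n κ) : Pool.Agent.H256R2.SC.supp (un D D') =
    Pool.Agent.H256R2.SC.supp D ∪ Pool.Agent.H256R2.SC.supp D' := by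
  ext i
  rw [Finset.mem_union, mem_supp, mem_supp, mem_supp]
  unfold un
  cases hD : D i <;> simp

theorem mass_sub {f : Col n κ → ℝ} {M : ℝ}
    (h3 : ∀ s : Finset (Fin n), ∑ D : Col n κ with Pool.Agent.H256R2.SC.supp D = s, |f D| ≤ M)
    (s : Finset (Fin n)) :
    ∑ D : Col n κ with Pool.Agent.H256R2.SC.supp D ⊆ s, |f D| ≤ 2 ^ s.card * M := by
  classical
  have h1 : ∑ D : Col n κ with Pool.Agent.H256R2.SC.supp D ⊆ s, |f D| =
      ∑ t ∈ s.powerset, ∑ D ∈ (univ.filter fun D : Col n κ =>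
        Pool.Agent.H256R2.SC.supp D ⊆ s) with Pool.Agent.H256R2.SC.supp D = t, |f D| := by
    symm
    apply Finset.sum_fiberwise_of_maps_to
    intro D hD
    rw [Finset.mem_filter] at hD
    exact Finset.mem_powerset.2 hD.2
  rw [h1]
  calc ∑ t ∈ s.powerset, ∑ D ∈ (univ.filter fun D : Col n κ =>
        Pool.Agent.H256R2.SC.supp D ⊆ s) with Pool.Agent.H256R2.SC.supp D = t, |f D|
      ≤ ∑ t ∈ s.powerset, M := by
        apply Finset.sum_le_sum
        intro t _
        refine le_trans ?_ (h3 t)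
        apply Finset.sum_le_sum_of_subset_of_nonneg
        · intro D hD
          rw [Finset.mem_filter] at hD ⊢
          exact ⟨Finset.mem_univ _, hD.2⟩
        · intro D _ _
          exact abs_nonneg _
    _ = 2 ^ s.card * M := by
        rw [Finset.sum_const, Finset.card_powerset, nsmul_eq_mul]
        push_cast
        rfl

theorem MB_mul {P : Fin n → ℝ} (hP : ∀ i, 1 ≤ P i) {M M' Q Q' : ℝ} {J J' : ℕ}
    {F G : Col n κ → ℝ} (hF : MB P M Q J F) (hG : MB P M' Q' J' G) :
    MB P (4 ^ (J + J') * (M * M')) (Q * Q') (J + J') (fun x => F x * G x) := by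
  classical
  have hM0 := MB_nn hF
  have hM0' := MB_nn hG
  obtain ⟨f, h1, h2, h3⟩ := hF
  obtain ⟨f', h1', h2', h3'⟩ := hG
  set ff : Col n κ → ℝ := fun E => ∑ R : Col n κ × Col n κ, if Cmp R.1 R.2 ∧ un R.1 R.2 = E then
    f R.1 * f' R.2 else 0 with hff
  have hsup : ∀ E, ff E ≠ 0 → qq P E ≤ Q * Q' ∧ (Pool.Agent.H256R2.SC.supp E).card ≤ J + J' := by
    intro E hE
    obtain ⟨R, _, hR⟩ := Finset.exists_ne_zero_of_sum_ne_zero hE
    have hP1 : Cmp R.1 R.2 ∧ un R.1 R.2 = E := by
      by_contra h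
      exact hR (if_neg h)
    rw [if_pos hP1] at hR
    have a1 := h2 R.1 (left_ne_zero_of_mul hR)
    have a2 := h2' R.2 (right_ne_zero_of_mul hR)
    rw [← hP1.2]
    constructor
    · refine (qq_un hP _ _).trans ?_
      have b1 := one_le_qq hP R.1
      have b2 := one_le_qq hP R.2
      exact mul_le_mul a1.1 a2.1 (by linarith) (by linarith)
    · rw [supp_un]
      exact (Finset.card_union_le _ _).trans (add_le_add a1.2 a2.2)
  refine ⟨ff, fun x => ?_, hsup, fun s => ?_⟩
  · have e1 : ∑ E : Col n κ, ff E * ind E x =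
        ∑ R : Col n κ × Col n κ, ∑ E : Col n κ, (if Cmp R.1 R.2 ∧ un R.1 R.2 = E then
        f R.1 * f' R.2 else 0) * ind E x := by
      simp_rw [hff, Finset.sum_mul]
      exact Finset.sum_comm
    rw [e1]
    change F x * G x = _
    rw [h1, h1', Finset.sum_mul_sum, ← Finset.univ_product_univ, Finset.sum_product]
    refine Finset.sum_congr rfl fun D _ => Finset.sum_congr rfl fun D' _ => ?_
    have e2 : f D * ind D x * (f' D' * ind D' x) = f D * f' D' * (ind D x * ind D' x) := by ring
    rw [e2, ind_mul]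
    by_cases hc : Cmp D D'
    · rw [if_pos hc, Finset.sum_eq_single (un D D')]
      · rw [if_pos ⟨hc, rfl⟩]
      · intro E _ hE
        rw [if_neg fun h => hE h.2.symm, zero_mul]
      · intro h
        exact absurd (mem_univ _) h
    · rw [if_neg hc, mul_zero]
      symm
      apply Finset.sum_eq_zero
      intro E _
      rw [if_neg fun h => hc h.1, zero_mul]
  · by_cases hs : s.card ≤ J + J'
    · have e1 : ∀ E : Col n κ, |ff E| ≤ ∑ R : Col n κ × Col n κ, if un R.1 R.2 = E then
          |f R.1| * |f' R.2| else 0 := by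
        intro E
        refine (Finset.abs_sum_le_sum_abs _ _).trans (Finset.sum_le_sum fun R _ => ?_)
        by_cases h : un R.1 R.2 = E
        · by_cases hc : Cmp R.1 R.2
          · rw [if_pos ⟨hc, h⟩, if_pos h, abs_mul]
          · rw [if_neg fun h' => hc h'.1, if_pos h, abs_zero]
            positivity
        · rw [if_neg fun h' => h h'.2, if_neg h, abs_zero]
      refine (Finset.sum_le_sum fun E _ => e1 E).trans ?_
      rw [Finset.sum_comm]
      have e2 : ∀ R : Col n κ × Col n κ, (∑ E : Col n κ with Pool.Agent.H256R2.SC.supp E = s,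
          if un R.1 R.2 = E then |f R.1| * |f' R.2| else 0) ≤
          (if Pool.Agent.H256R2.SC.supp R.1 ⊆ s then |f R.1| else 0) *
          (if Pool.Agent.H256R2.SC.supp R.2 ⊆ s then |f' R.2| else 0) := by
        intro R
        rw [Finset.sum_ite_eq]
        by_cases hR : un R.1 R.2 ∈ univ.filter (fun E : Col n κ =>
            Pool.Agent.H256R2.SC.supp E = s)
        · rw [if_pos hR]
          rw [Finset.mem_filter, supp_un] at hR
          rw [if_pos (by rw [← hR.2]; exact Finset.subset_union_left),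
            if_pos (by rw [← hR.2]; exact Finset.subset_union_right)]
        · rw [if_neg hR]
          apply mul_nonneg <;> split_ifs <;> positivity
      refine (Finset.sum_le_sum fun R _ => e2 R).trans ?_
      rw [← Finset.univ_product_univ, Finset.sum_product]
      change ∑ D : Col n κ, ∑ D' : Col n κ,
        (if Pool.Agent.H256R2.SC.supp D ⊆ s then |f D| else 0) *
          (if Pool.Agent.H256R2.SC.supp D' ⊆ s then |f' D'| else 0) ≤ _
      rw [← Finset.sum_mul_sum, ← Finset.sum_filter, ← Finset.sum_filter]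
      have e3 := mass_sub h3 s
      have e4 := mass_sub h3' s
      have e5 : (2:ℝ) ^ s.card * M * (2 ^ s.card * M') ≤ 4 ^ (J + J') * (M * M') := by
        have e6 : (2:ℝ) ^ s.card * 2 ^ s.card = 4 ^ s.card := by
          rw [← mul_pow]; norm_num
        have e7 : (4:ℝ) ^ s.card ≤ 4 ^ (J + J') := pow_le_pow_right₀ (by norm_num) hs
        calc (2:ℝ) ^ s.card * M * (2 ^ s.card * M') =
            (2 ^ s.card * 2 ^ s.card) * (M * M') := by ring
          _ = 4 ^ s.card * (M * M') := by rw [e6]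
          _ ≤ _ := mul_le_mul_of_nonneg_right e7 (by positivity)
      refine le_trans ?_ e5
      exact mul_le_mul e3 e4 (Finset.sum_nonneg fun D _ => abs_nonneg _) (by positivity)
    · have e0 : ∑ D : Col n κ with Pool.Agent.H256R2.SC.supp D = s, |ff D| = 0 := by
        apply Finset.sum_eq_zero
        intro D hD
        rw [Finset.mem_filter] at hD
        by_contra hc
        have := (hsup D (fun h => hc (by rw [h, abs_zero]))).2
        rw [hD.2] at this
        exact hs this
      rw [e0]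
      positivity

theorem MB_prod {P : Fin n → ℝ} (hP : ∀ i, 1 ≤ P i) {ι : Type*} (S : Finset ι) (M Q : ι → ℝ)
    (J : ι → ℕ) (F : ι → Col n κ → ℝ) (hF : ∀ j ∈ S, MB P (M j) (Q j) (J j) (F j)) :
    MB P (4 ^ (S.card * ∑ j ∈ S, J j) * ∏ j ∈ S, M j) (∏ j ∈ S, Q j) (∑ j ∈ S, J j)
      (fun x => ∏ j ∈ S, F j x) := by
  classical
  induction S using Finset.induction_on with
  | empty =>
    simp only [Finset.prod_empty, Finset.sum_empty, Finset.card_empty]
    simpa using MB_const (n := n) (κ := κ) P 1 1 0 le_rfl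
  | insert a S ha ih =>
    have h1 := hF a (Finset.mem_insert_self a S)
    have h2 := ih fun j hj => hF j (Finset.mem_insert_of_mem hj)
    have h3 := MB_mul hP h1 h2
    simp only [Finset.prod_insert ha, Finset.sum_insert ha, Finset.card_insert_of_notMem ha]
    refine MB_mono ?_ le_rfl le_rfl h3
    have hM : 0 ≤ M a * ∏ j ∈ S, M j := mul_nonneg (MB_nn h1)
      (Finset.prod_nonneg fun j hj => MB_nn (hF j (Finset.mem_insert_of_mem hj)))
    calc (4:ℝ) ^ (J a + ∑ j ∈ S, J j) * (M a * (4 ^ (S.card * ∑ j ∈ S, J j) * ∏ j ∈ S, M j))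
        = 4 ^ (J a + ∑ j ∈ S, J j + S.card * ∑ j ∈ S, J j) * (M a * ∏ j ∈ S, M j) := by
          rw [pow_add]; ring
      _ ≤ 4 ^ ((S.card + 1) * (J a + ∑ j ∈ S, J j)) * (M a * ∏ j ∈ S, M j) := by
          apply mul_le_mul_of_nonneg_right _ hM
          apply pow_le_pow_right₀ (by norm_num)
          nlinarith [Nat.zero_le (S.card * J a)]

theorem ind_append (D₁ : Col n₁ κ) (D₂ : Col n₂ κ) (x : Col (n₁ + n₂) κ) :
    ind (Fin.append D₁ D₂) x = ind D₁ (fstc x) * ind D₂ (sndc x) := by
  rw [ind_eq_prod, ind_eq_prod, ind_eq_prod, Fin.prod_univ_add]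
  simp only [Fin.append_left, Fin.append_right, fstc, sndc]
  congr!

theorem qq_append (P₁ : Fin n₁ → ℝ) (P₂ : Fin n₂ → ℝ) (D : Col (n₁ + n₂) κ) :
    qq (Fin.append P₁ P₂) D = qq P₁ (fstc D) * qq P₂ (sndc D) := by
  unfold qq
  rw [Fin.prod_univ_add]
  simp only [Fin.append_left, Fin.append_right, fstc, sndc]

theorem supp_card (D : Col (n₁ + n₂) κ) : (Pool.Agent.H256R2.SC.supp D).card =
    (Pool.Agent.H256R2.SC.supp (fstc D)).card + (Pool.Agent.H256R2.SC.supp (sndc D)).card := by
  unfold Pool.Agent.H256R2.SC.supp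
  simp only [Finset.card_filter]
  rw [Fin.sum_univ_add]
  rfl

theorem MB_two {P₁ : Fin n₁ → ℝ} {P₂ : Fin n₂ → ℝ} (hP₁ : ∀ i, 1 ≤ P₁ i)
    (hP₂ : ∀ i, 1 ≤ P₂ i) {M Q₁ Q₂ : ℝ} {J₁ J₂ : ℕ}
    (B : Col n₂ κ → Col n₁ κ → ℝ) (m : Col n₂ κ → ℝ) (hB : ∀ E, MB P₁ (m E) Q₁ J₁ (B E))
    (hm : ∀ E, m E ≠ 0 → qq P₂ E ≤ Q₂ ∧ (Pool.Agent.H256R2.SC.supp E).card ≤ J₂)
    (hM : ∀ s : Finset (Fin n₂), ∑ E : Col n₂ κ with Pool.Agent.H256R2.SC.supp E = s, m E ≤ M) :
    MB (Fin.append P₁ P₂) M (Q₁ * Q₂) (J₁ + J₂)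
      (fun x : Col (n₁ + n₂) κ => ∑ E : Col n₂ κ, B E (fstc x) * ind E (sndc x)) := by
  classical
  choose f h1 h2 h3 using hB
  refine ⟨fun D => f (sndc D) (fstc D), fun x => ?_, fun D hD => ?_, fun s => ?_⟩
  · change ∑ E : Col n₂ κ, B E (fstc x) * ind E (sndc x) = _
    rw [← (Fin.appendEquiv (α := Option κ) n₁ n₂).sum_comp, Fintype.sum_prod_type,
      Finset.sum_comm]
    refine Finset.sum_congr rfl fun E _ => ?_
    rw [h1 E, Finset.sum_mul]
    refine Finset.sum_congr rfl fun D _ => ?_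
    simp only [Fin.appendEquiv, Equiv.coe_fn_mk]
    rw [fstc_append, sndc_append, ind_append]
    ring
  · have e1 := h2 (sndc D) (fstc D) hD
    have e2 : m (sndc D) ≠ 0 := by
      intro h0
      have e3 := h3 (sndc D) (Pool.Agent.H256R2.SC.supp (fstc D))
      rw [h0] at e3
      have e4 : |f (sndc D) (fstc D)| ≤ ∑ D' : Col n₁ κ with
          Pool.Agent.H256R2.SC.supp D' = Pool.Agent.H256R2.SC.supp (fstc D),
          |f (sndc D) D'| :=
        Finset.single_le_sum (f := fun D' => |f (sndc D) D'|) (fun D' _ => abs_nonneg _)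
          (Finset.mem_filter.2 ⟨Finset.mem_univ _, rfl⟩)
      have e5 : |f (sndc D) (fstc D)| ≤ 0 := e4.trans e3
      exact hD (abs_nonpos_iff.1 e5)
    have e3 := hm (sndc D) e2
    rw [qq_append, supp_card]
    refine ⟨?_, add_le_add e1.2 e3.2⟩
    have b1 := one_le_qq hP₁ (fstc D)
    have b2 := one_le_qq hP₂ (sndc D)
    exact mul_le_mul e1.1 e3.1 (by linarith) (by linarith)
  · set s₁ : Finset (Fin n₁) := univ.filter (fun i => Fin.castAdd n₂ i ∈ s) with hs₁
    set s₂ : Finset (Fin n₂) := univ.filter (fun i => Fin.natAdd n₁ i ∈ s) with hs₂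
    have e1 : ∑ D : Col (n₁ + n₂) κ with Pool.Agent.H256R2.SC.supp D = s,
        |f (sndc D) (fstc D)| ≤ ∑ D : Col (n₁ + n₂) κ,
        if Pool.Agent.H256R2.SC.supp (fstc D) = s₁ ∧ Pool.Agent.H256R2.SC.supp (sndc D) = s₂
        then |f (sndc D) (fstc D)| else 0 := by
      rw [Finset.sum_filter]
      apply Finset.sum_le_sum
      intro D _
      by_cases hD : Pool.Agent.H256R2.SC.supp D = s
      · rw [if_pos hD, if_pos]
        constructor
        · ext i
          rw [mem_supp, hs₁, Finset.mem_filter, ← hD, mem_supp]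
          simp [fstc]
        · ext i
          rw [mem_supp, hs₂, Finset.mem_filter, ← hD, mem_supp]
          simp [sndc]
      · rw [if_neg hD]
        split_ifs <;> positivity
    refine e1.trans ?_
    rw [← (Fin.appendEquiv (α := Option κ) n₁ n₂).sum_comp, Fintype.sum_prod_type,
      Finset.sum_comm]
    simp only [Fin.appendEquiv, Equiv.coe_fn_mk]
    simp only [fstc_append, sndc_append]
    refine le_trans ?_ (hM s₂)
    rw [Finset.sum_filter]
    apply Finset.sum_le_sum
    intro E _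
    by_cases hE : Pool.Agent.H256R2.SC.supp E = s₂
    · rw [if_pos hE]
      simp only [hE, and_true]
      rw [← Finset.sum_filter]
      exact h3 E s₁
    · rw [if_neg hE]
      simp only [hE, and_false, if_false, Finset.sum_const_zero]
      exact le_rfl

theorem MB_fst {P₁ : Fin n₁ → ℝ} {P₂ : Fin n₂ → ℝ} (hP₁ : ∀ i, 1 ≤ P₁ i)
    (hP₂ : ∀ i, 1 ≤ P₂ i) {M Q : ℝ} {J : ℕ} {F : Col n₁ κ → ℝ} (hF : MB P₁ M Q J F) :
    MB (Fin.append P₁ P₂) M Q J (fun x : Col (n₁ + n₂) κ => F (fstc x)) := by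
  classical
  have h0 := MB_nn hF
  have h := MB_two (P₂ := P₂) hP₁ hP₂ (M := M) (Q₁ := Q) (Q₂ := 1) (J₁ := J) (J₂ := 0)
    (fun E : Col n₂ κ => if E = (fun _ => none) then F else fun _ => 0)
    (fun E => if E = (fun _ => none) then M else 0)
    (by
      intro E
      by_cases hE : E = (fun _ => none)
      · simp only [if_pos hE]
        exact hF
      · simp only [if_neg hE]
        exact MB_zero P₁ Q J)
    (by
      intro E hE
      have hE' : E = (fun _ => none) := by
        by_contra hc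
        exact hE (if_neg hc)
      rw [hE', qq_none, supp_none]
      simp)
    (by
      intro s
      rw [Finset.sum_filter]
      calc ∑ E : Col n₂ κ, (if Pool.Agent.H256R2.SC.supp E = s then
            (if E = (fun _ => none) then M else 0) else 0)
          ≤ ∑ E : Col n₂ κ, (if E = (fun _ => none) then M else 0) := by
            apply Finset.sum_le_sum
            intro E _
            split_ifs <;> simp [h0]
        _ = M := by rw [Finset.sum_ite_eq']; simp)
  have e : (fun x : Col (n₁ + n₂) κ => ∑ E : Col n₂ κ,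
      (if E = (fun _ => none) then F else fun _ => 0) (fstc x) * ind E (sndc x)) =
      fun x => F (fstc x) := by
    funext x
    rw [Finset.sum_eq_single (fun _ => none : Col n₂ κ)]
    · simp [ind]
    · intro E _ hE
      simp [hE]
    · intro hc
      exact absurd (Finset.mem_univ _) hc
  rw [e] at h
  simpa using h

theorem MB_snd {P₁ : Fin n₁ → ℝ} {P₂ : Fin n₂ → ℝ} (hP₁ : ∀ i, 1 ≤ P₁ i)
    (hP₂ : ∀ i, 1 ≤ P₂ i) {M Q : ℝ} {J : ℕ} {F : Col n₂ κ → ℝ} (hF : MB P₂ M Q J F) :
    MB (Fin.append P₁ P₂) M Q J (fun x : Col (n₁ + n₂) κ => F (sndc x)) := by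
  obtain ⟨f, h1, h2, h3⟩ := hF
  have h := MB_two (P₁ := P₁) hP₁ hP₂ (M := M) (Q₁ := 1) (Q₂ := Q) (J₁ := 0) (J₂ := J)
    (fun (E : Col n₂ κ) (_ : Col n₁ κ) => f E) (fun E => |f E|)
    (fun E => MB_const P₁ (f E) 1 0 le_rfl)
    (fun E hE => h2 E (fun h => hE (by rw [h, abs_zero]))) h3
  have e : (fun x : Col (n₁ + n₂) κ => ∑ E : Col n₂ κ, f E * ind E (sndc x)) =
      fun x => F (sndc x) := by
    funext x
    rw [h1]
  rw [e] at h
  simpa using h

theorem supp_onS (k : κ) (s : Finset (Fin n)) :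
    Pool.Agent.H256R2.SC.supp (onS k s : Col n κ) = s := by
  ext i
  rw [mem_supp]
  unfold onS
  by_cases h : i ∈ s <;> simp [h]

theorem qq_supp (P : Fin n → ℝ) (D : Col n κ) :
    qq P D = ∏ i ∈ Pool.Agent.H256R2.SC.supp D, P i := prod_nu1 _ D

/-- a signed sum over sets of the events that the colour is `k` on the set -/
theorem MB_onS (P : Fin n → ℝ) (k : κ) (T : Finset (Finset (Fin n))) (c : Finset (Fin n) → ℝ)
    (hc : ∀ s ∈ T, |c s| ≤ 1) (Q : ℝ) (J : ℕ) (hQ : ∀ s ∈ T, ∏ i ∈ s, P i ≤ Q)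
    (hJ : ∀ s ∈ T, s.card ≤ J) :
    MB P 1 Q J (fun x : Col n κ => ∑ s ∈ T, c s * ind (onS k s) x) := by
  classical
  have hinj : ∀ s t : Finset (Fin n), (onS k s : Col n κ) = onS k t → s = t := by
    intro s t h
    rw [← supp_onS k s, ← supp_onS k t, h]
  refine ⟨fun D => ∑ s ∈ T, if D = onS k s then c s else 0, fun x => ?_, fun D hD => ?_,
    fun s => ?_⟩
  · simp_rw [Finset.sum_mul]
    rw [Finset.sum_comm]
    refine Finset.sum_congr rfl fun s _ => ?_
    rw [Finset.sum_eq_single (onS k s)]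
    · rw [if_pos rfl]
    · intro D _ hD
      rw [if_neg hD, zero_mul]
    · intro h
      exact absurd (Finset.mem_univ _) h
  · obtain ⟨s, hs, hs'⟩ := Finset.exists_ne_zero_of_sum_ne_zero hD
    have hDs : D = onS k s := by
      by_contra h
      exact hs' (if_neg h)
    rw [qq_supp, hDs, supp_onS]
    exact ⟨hQ s hs, hJ s hs⟩
  · have e1 : ∀ D : Col n κ, Pool.Agent.H256R2.SC.supp D = s →
        |∑ t ∈ T, if D = onS k t then c t else 0| ≤ if D = onS k s then 1 else 0 := by
      intro D hD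
      by_cases h : D = onS k s
      · rw [if_pos h]
        by_cases hs : s ∈ T
        · rw [Finset.sum_eq_single s]
          · rw [if_pos h]
            exact hc s hs
          · intro t _ ht
            rw [if_neg]
            intro h'
            exact ht (hinj t s (h'.symm.trans h))
          · intro h'
            exact absurd hs h'
        · rw [Finset.sum_eq_zero]
          · simp
          · intro t ht
            rw [if_neg]
            intro h'
            apply hs
            rw [hinj s t (h.symm.trans h')]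
            exact ht
      · rw [if_neg h, Finset.sum_eq_zero]
        · simp
        · intro t _
          rw [if_neg]
          intro h'
          apply h
          have : t = s := by rw [← supp_onS k t, ← h', hD]
          rw [← this]
          exact h'
    calc ∑ D : Col n κ with Pool.Agent.H256R2.SC.supp D = s,
          |∑ t ∈ T, if D = onS k t then c t else 0|
        ≤ ∑ D : Col n κ with Pool.Agent.H256R2.SC.supp D = s, (if D = onS k s then (1:ℝ) else 0) :=
          Finset.sum_le_sum fun D hD => e1 D (Finset.mem_filter.1 hD).2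
      _ ≤ ∑ D : Col n κ, (if D = onS k s then (1:ℝ) else 0) := by
          apply Finset.sum_le_sum_of_subset_of_nonneg (Finset.filter_subset _ _)
          intro D _ _
          split_ifs <;> norm_num
      _ = 1 := by rw [Finset.sum_ite_eq']; simp

theorem MB_SS (P : Fin n → ℝ) (b : ℝ) (hb : 1 ≤ b) (hP1 : ∀ i, 1 ≤ P i) (hP : ∀ i, P i ≤ b)
    (J : ℕ) (k : κ) : MB P 1 (b ^ J) J (fun x : Col n κ => SS J k x) := by
  have h := MB_onS P k (univ.filter (fun s : Finset (Fin n) => s.card ≤ J))
    (fun s => (-1) ^ s.card) (by intro s _; rw [abs_pow, abs_neg, abs_one, one_pow]) (b ^ J) J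
    (by
      intro s hs
      rw [Finset.mem_filter] at hs
      calc ∏ i ∈ s, P i ≤ ∏ i ∈ s, b :=
            Finset.prod_le_prod (fun i _ => by linarith [hP1 i]) fun i _ => hP i
        _ = b ^ s.card := by rw [Finset.prod_const]
        _ ≤ b ^ J := pow_le_pow_right₀ hb hs.2)
    (fun s hs => (Finset.mem_filter.1 hs).2)
  have e : (fun x : Col n κ => ∑ s ∈ univ.filter (fun s : Finset (Fin n) => s.card ≤ J),
      (-1) ^ s.card * ind (onS k s) x) = fun x => SS J k x := by
    funext x
    unfold SS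
    refine Finset.sum_congr rfl fun s _ => ?_
    rw [ind_onS]
  rw [e] at h
  exact h

theorem MB_SSmask (P : Fin n → ℝ) (bl : Fin n → ℕ) (j : ℕ) (b : ℝ) (hb : 1 ≤ b)
    (hP1 : ∀ i, 1 ≤ P i) (hP : ∀ i, bl i = j → P i ≤ b) (J : ℕ) (k : κ) :
    MB P 1 (b ^ J) J (fun x : Col n κ => SS J k (mask bl j x)) := by
  classical
  set S : Finset (Fin n) := univ.filter (fun i => bl i = j) with hS
  have h := MB_onS P k (S.powerset.filter (fun s : Finset (Fin n) => s.card ≤ J))
    (fun s => (-1) ^ s.card) (by intro s _; rw [abs_pow, abs_neg, abs_one, one_pow]) (b ^ J) J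
    (by
      intro s hs
      rw [Finset.mem_filter, Finset.mem_powerset] at hs
      calc ∏ i ∈ s, P i ≤ ∏ i ∈ s, b :=
            Finset.prod_le_prod (fun i _ => by linarith [hP1 i]) fun i hi => by
              have := hs.1 hi
              rw [hS, Finset.mem_filter] at this
              exact hP i this.2
        _ = b ^ s.card := by rw [Finset.prod_const]
        _ ≤ b ^ J := pow_le_pow_right₀ hb hs.2)
    (fun s hs => (Finset.mem_filter.1 hs).2)
  have e : (fun x : Col n κ => ∑ s ∈ S.powerset.filter (fun s => s.card ≤ J),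
      (-1) ^ s.card * ind (onS k s) x) = fun x => SS J k (mask bl j x) := by
    funext x
    unfold SS
    symm
    have e1 : S.powerset.filter (fun s => s.card ≤ J) ⊆
        univ.filter (fun s : Finset (Fin n) => s.card ≤ J) := by
      intro s hs
      rw [Finset.mem_filter] at hs ⊢
      exact ⟨Finset.mem_univ _, hs.2⟩
    rw [← Finset.sum_subset e1]
    · refine Finset.sum_congr rfl fun s hs => ?_
      rw [Finset.mem_filter, Finset.mem_powerset] at hs
      rw [ind_onS]
      congr 1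
      have e2 : (∀ i ∈ s, mask bl j x i = some k) ↔ ∀ i ∈ s, x i = some k := by
        constructor
        · intro h i hi
          exact ((mask_iff bl j x i k).1 (h i hi)).2
        · intro h i hi
          rw [mask_iff]
          have := hs.1 hi
          rw [hS, Finset.mem_filter] at this
          exact ⟨this.2, h i hi⟩
      by_cases h : ∀ i ∈ s, x i = some k
      · rw [if_pos h, if_pos (e2.2 h)]
      · rw [if_neg h, if_neg (fun h' => h (e2.1 h'))]
    · intro s hs hs'
      rw [Finset.mem_filter] at hs hs'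
      rw [if_neg, mul_zero]
      intro h
      apply hs'
      refine ⟨Finset.mem_powerset.2 fun i hi => ?_, hs.2⟩
      rw [hS, Finset.mem_filter]
      exact ⟨Finset.mem_univ _, ((mask_iff bl j x i k).1 (h i hi)).1⟩
  rw [e] at h
  exact h

theorem MB_BHk (P : Fin n → ℝ) (bl : Fin n → ℕ) (B : ℕ) (M : ℕ → ℕ) (b : ℕ → ℝ)
    (hb : ∀ j, 1 ≤ b j) (hP1 : ∀ i, 1 ≤ P i) (hP : ∀ i, P i ≤ b (bl i)) (k : κ) :
    MB P (4 ^ (B * ∑ j ∈ range B, M j)) (∏ j ∈ range B, b j ^ M j) (∑ j ∈ range B, M j)
      (BHk bl B M k : Col n κ → ℝ) := by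
  have h := MB_prod hP1 (range B) (fun _ => (1:ℝ)) (fun j => b j ^ M j) M
    (fun j (x : Col n κ) => SS (M j) k (mask bl j x))
    (fun j _ => MB_SSmask P bl j (b j) (hb j) hP1 (fun i hi => hi ▸ hP i) (M j) k)
  rw [Finset.prod_const_one, mul_one, Finset.card_range] at h
  exact h

/-- transfer to the actual set -/
theorem transfer_MB {α : Type*} [DecidableEq α] (𝒜 : Finset α) (ω : α → ℝ)
    (col : α → Col n κ) (P g : Fin n → ℝ) (N M Q : ℝ) (J : ℕ) (Er : Finset (Fin n) → ℝ)
    (hEr : ∀ s, 0 ≤ Er s)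
    (hcnt : ∀ D : Col n κ, qq P D ≤ Q → (Pool.Agent.H256R2.SC.supp D).card ≤ J →
      |∑ a ∈ 𝒜 with (∀ i, D i ≠ none → col a i = D i), ω a - N * nu g D| ≤
        Er (Pool.Agent.H256R2.SC.supp D))
    (F : Col n κ → ℝ) (hF : MB P M Q J F) :
    |∑ a ∈ 𝒜, ω a * F (col a) - N * EE g F| ≤
      M * ∑ s : Finset (Fin n) with ∏ i ∈ s, P i ≤ Q ∧ s.card ≤ J, Er s := by
  classical
  obtain ⟨f, hf1, hf2, hf3⟩ := hF
  have h1 : ∑ a ∈ 𝒜, ω a * F (col a) =
      ∑ D, f D * (∑ a ∈ 𝒜 with (∀ i, D i ≠ none → col a i = D i), ω a) := by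
    simp_rw [hf1, Finset.mul_sum]
    rw [Finset.sum_comm]
    apply Finset.sum_congr rfl
    intro D _
    rw [Finset.sum_filter]
    apply Finset.sum_congr rfl
    intro a _
    unfold ind
    split_ifs <;> ring
  have h2 : EE g F = ∑ D, f D * nu g D := by
    have h3 : EE g F = ∑ D, f D * EE g (fun x => ind D x) := by
      unfold EE
      simp_rw [hf1, Finset.mul_sum]
      rw [Finset.sum_comm]
      apply Finset.sum_congr rfl
      intro D _
      apply Finset.sum_congr rfl
      intro x _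
      ring
    rw [h3]
    apply Finset.sum_congr rfl
    intro D _
    rw [EE_ind]
  rw [h1, h2, Finset.mul_sum, ← Finset.sum_sub_distrib]
  have h4 : |∑ D, (f D * (∑ a ∈ 𝒜 with (∀ i, D i ≠ none → col a i = D i), ω a) -
        N * (f D * nu g D))| ≤
      ∑ D : Col n κ, (if qq P D ≤ Q ∧ (Pool.Agent.H256R2.SC.supp D).card ≤ J then
        |f D| * Er (Pool.Agent.H256R2.SC.supp D) else 0) := by
    refine (Finset.abs_sum_le_sum_abs _ _).trans (Finset.sum_le_sum fun D _ => ?_)
    have h5 : f D * (∑ a ∈ 𝒜 with (∀ i, D i ≠ none → col a i = D i), ω a) -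
        N * (f D * nu g D) =
        f D * (∑ a ∈ 𝒜 with (∀ i, D i ≠ none → col a i = D i), ω a - N * nu g D) := by ring
    rw [h5, abs_mul]
    by_cases hD : f D = 0
    · rw [hD, abs_zero, zero_mul]
      split_ifs
      · simp
      · exact le_rfl
    · rw [if_pos (hf2 D hD)]
      exact mul_le_mul_of_nonneg_left (hcnt D (hf2 D hD).1 (hf2 D hD).2) (abs_nonneg _)
  refine h4.trans ?_
  rw [Finset.mul_sum, Finset.sum_filter]
  have h6 : ∑ D : Col n κ, (if qq P D ≤ Q ∧ (Pool.Agent.H256R2.SC.supp D).card ≤ J then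
        |f D| * Er (Pool.Agent.H256R2.SC.supp D) else 0) =
      ∑ s : Finset (Fin n), ∑ D : Col n κ with Pool.Agent.H256R2.SC.supp D = s,
        (if qq P D ≤ Q ∧ (Pool.Agent.H256R2.SC.supp D).card ≤ J then
        |f D| * Er (Pool.Agent.H256R2.SC.supp D) else 0) := by
    symm
    apply Finset.sum_fiberwise_of_maps_to
    intro D _
    exact Finset.mem_univ _
  rw [h6]
  apply Finset.sum_le_sum
  intro s _
  by_cases hs : ∏ i ∈ s, P i ≤ Q ∧ s.card ≤ J
  · rw [if_pos hs]
    calc ∑ D : Col n κ with Pool.Agent.H256R2.SC.supp D = s,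
          (if qq P D ≤ Q ∧ (Pool.Agent.H256R2.SC.supp D).card ≤ J then
            |f D| * Er (Pool.Agent.H256R2.SC.supp D) else 0)
        = ∑ D : Col n κ with Pool.Agent.H256R2.SC.supp D = s, |f D| * Er s := by
          refine Finset.sum_congr rfl fun D hD => ?_
          rw [Finset.mem_filter] at hD
          rw [qq_supp, hD.2, if_pos hs]
      _ = (∑ D : Col n κ with Pool.Agent.H256R2.SC.supp D = s, |f D|) * Er s := by
          rw [Finset.sum_mul]
      _ ≤ M * Er s := mul_le_mul_of_nonneg_right (hf3 s) (hEr s)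
  · rw [if_neg hs]
    apply le_of_eq
    apply Finset.sum_eq_zero
    intro D hD
    rw [Finset.mem_filter] at hD
    rw [qq_supp, hD.2, if_neg hs]

end Pool.Agent.K4H19.FQ
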