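import Pool.Agent.K4H19.FQ.MB

set_option autoImplicit false
set_option linter.unusedSectionVars false

/-! # The sieve weight of two blocks: coefficient sums on every support -/

namespace Pool.Agent.K4H19.FQ

open Finset Pool.Agent.H256R2.SC Pool.Agent.Y831.RC

variable {n n₁ n₂ : ℕ} {κ : Type} [Fintype κ] [DecidableEq κ]

theorem card_supp_eq (s : Finset (Fin n)) :
    ((univ.filter (fun E : Col n κ => Pool.Agent.H256R2.SC.supp E = s)).card : ℝ) =
      (Fintype.card κ : ℝ) ^ s.card := by
  classical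
  have h1 : ((univ.filter (fun E : Col n κ => Pool.Agent.H256R2.SC.supp E = s)).card : ℝ) =
      ∑ E : Col n κ, ∏ i, (if i ∈ s then (if E i = none then (0:ℝ) else 1) else
        (if E i = none then 1 else 0)) := by
    rw [Finset.card_filter]
    push_cast
    refine Finset.sum_congr rfl fun E _ => ?_
    by_cases hE : Pool.Agent.H256R2.SC.supp E = s
    · rw [if_pos hE]
      symm
      apply Finset.prod_eq_one
      intro i _
      by_cases hi : i ∈ s
      · rw [if_pos hi]
        rw [← hE, mem_supp] at hi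
        rw [if_neg hi]
      · rw [if_neg hi]
        rw [← hE, mem_supp] at hi
        rw [if_pos (by simpa using hi)]
    · rw [if_neg hE]
      symm
      have : ∃ i, ¬ (i ∈ Pool.Agent.H256R2.SC.supp E ↔ i ∈ s) := by
        by_contra hc
        push Not at hc
        apply hE
        ext i
        exact hc i
      obtain ⟨i, hi⟩ := this
      apply Finset.prod_eq_zero (Finset.mem_univ i)
      rw [mem_supp] at hi
      by_cases h1 : i ∈ s
      · rw [if_pos h1]
        have : E i = none := by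
          by_contra h2
          exact hi ⟨fun _ => h1, fun _ => h2⟩
        rw [if_pos this]
      · rw [if_neg h1]
        have : ¬ E i = none := by
          intro h2
          exact hi ⟨fun h3 => absurd h2 h3, fun h3 => absurd h3 h1⟩
        rw [if_neg this]
  rw [h1]
  have h2 := Finset.prod_univ_sum (fun _ : Fin n => (Finset.univ : Finset (Option κ)))
    (fun i c => (if i ∈ s then (if c = none then (0:ℝ) else 1) else
        (if c = none then 1 else 0)))
  rw [Fintype.piFinset_univ] at h2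
  rw [← h2]
  have h3 : ∀ i : Fin n, ∑ c : Option κ, (if i ∈ s then (if c = none then (0:ℝ) else 1) else
        (if c = none then 1 else 0)) = if i ∈ s then (Fintype.card κ : ℝ) else 1 := by
    intro i
    by_cases hi : i ∈ s
    · simp only [if_pos hi]
      rw [Fintype.sum_option]
      simp
    · simp only [if_neg hi]
      rw [Fintype.sum_option]
      simp
  rw [Finset.prod_congr rfl fun i _ => h3 i, Finset.prod_ite, Finset.prod_const_one, mul_one,
    Finset.prod_const, Finset.filter_mem_eq_inter, Finset.univ_inter]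

theorem abs_cf_le (g T : ℝ) (hT : 1 ≤ T) (a b : Option κ) :
    |cf g a b| ≤ (if a ≠ none then T else 1) * |cf (g / T) a b| := by
  have hT0 : 0 < T := by linarith
  cases a with
  | none =>
    simp only [cf]
    split_ifs <;> simp_all
  | some k =>
    simp only [cf]
    by_cases h1 : b = some k
    · simp only [h1]
      simp
      exact hT
    · by_cases h2 : b = none
      · simp only [h2]
        simp
        rw [abs_div, abs_of_pos hT0]
        field_simp
        exact le_rfl
      · simp [h1, h2]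

theorem sum_cf_left (g : ℝ) (hg : 0 ≤ g) (b : Option κ) :
    ∑ a : Option κ, |cf g a b| ≤ 1 + (Fintype.card κ : ℝ) * g := by
  classical
  have h0 : 0 ≤ (Fintype.card κ : ℝ) * g := mul_nonneg (Nat.cast_nonneg _) hg
  rw [Fintype.sum_option]
  cases b with
  | none =>
    simp only [cf]
    simp [abs_of_nonneg hg]
  | some k =>
    simp only [cf]
    have h1 : ∑ x : κ, |(if (some k : Option κ) = some x then (1 : ℝ) else
        if (some k : Option κ) = none then -g else 0)| = 1 := by
      rw [Finset.sum_eq_single k]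
      · simp
      · intro b _ hb
        have : ¬ (some k : Option κ) = some b := fun h => hb (Option.some.inj h).symm
        simp [this]
      · intro h
        exact absurd (Finset.mem_univ k) h
    rw [h1]
    simp
    exact h0

theorem sum_prod_cf (g : Fin n → ℝ) (hg0 : ∀ i, 0 ≤ g i) (T : ℝ) (hT1 : 1 ≤ T)
    (hT : (Fintype.card κ : ℝ) * ∑ i, g i ≤ T) (E : Col n κ) (J₂ : ℕ) (y : Col n κ → ℝ)
    (hy : ∀ D, |y D| ≤ 1) (hJ₂ : ∀ D, y D ≠ 0 → (Pool.Agent.H256R2.SC.supp D).card ≤ J₂) :
    ∑ D : Col n κ, |y D * ∏ i, cf (g i) (D i) (E i)| ≤ Real.exp 1 * T ^ J₂ := by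
  classical
  have hT0 : 0 < T := by linarith
  have h1 : ∀ D : Col n κ, |y D * ∏ i, cf (g i) (D i) (E i)| ≤
      T ^ J₂ * ∏ i, |cf (g i / T) (D i) (E i)| := by
    intro D
    have hp : 0 ≤ ∏ i, |cf (g i / T) (D i) (E i)| := Finset.prod_nonneg fun i _ => abs_nonneg _
    by_cases hD : y D = 0
    · rw [hD, zero_mul, abs_zero]
      positivity
    · rw [abs_mul, Finset.abs_prod]
      calc |y D| * ∏ i, |cf (g i) (D i) (E i)| ≤ 1 * ∏ i, |cf (g i) (D i) (E i)| :=
            mul_le_mul_of_nonneg_right (hy D) (Finset.prod_nonneg fun i _ => abs_nonneg _)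
        _ ≤ ∏ i, ((if D i ≠ none then T else 1) * |cf (g i / T) (D i) (E i)|) := by
            rw [one_mul]
            exact Finset.prod_le_prod (fun i _ => abs_nonneg _) fun i _ => abs_cf_le _ _ hT1 _ _
        _ = (∏ i, if D i ≠ none then T else 1) * ∏ i, |cf (g i / T) (D i) (E i)| := by
            rw [Finset.prod_mul_distrib]
        _ = T ^ (Pool.Agent.H256R2.SC.supp D).card * ∏ i, |cf (g i / T) (D i) (E i)| := by
            congr 1
            rw [Finset.prod_ite, Finset.prod_const_one, mul_one, Finset.prod_const]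
            rfl
        _ ≤ T ^ J₂ * ∏ i, |cf (g i / T) (D i) (E i)| :=
            mul_le_mul_of_nonneg_right (pow_le_pow_right₀ hT1 (hJ₂ D hD)) hp
  refine (Finset.sum_le_sum fun D _ => h1 D).trans ?_
  rw [← Finset.mul_sum, mul_comm]
  apply mul_le_mul_of_nonneg_right _ (by positivity)
  have h2 := Finset.prod_univ_sum (fun _ : Fin n => (Finset.univ : Finset (Option κ)))
    (fun i c => |cf (g i / T) c (E i)|)
  rw [Fintype.piFinset_univ] at h2
  rw [← h2]
  calc ∏ i, ∑ c, |cf (g i / T) c (E i)| ≤ ∏ i, Real.exp ((Fintype.card κ : ℝ) * (g i / T)) := by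
        apply Finset.prod_le_prod
        · intro i _
          exact Finset.sum_nonneg fun c _ => abs_nonneg _
        · intro i _
          have h3 := sum_cf_left (κ := κ) (g i / T) (div_nonneg (hg0 i) hT0.le) (E i)
          have h4 := Real.add_one_le_exp ((Fintype.card κ : ℝ) * (g i / T))
          linarith
    _ = Real.exp ((Fintype.card κ : ℝ) * (∑ i, g i) / T) := by
        rw [← Real.exp_sum, ← Finset.mul_sum, ← Finset.sum_div]
        congr 1
        ring
    _ ≤ Real.exp 1 := by
        apply Real.exp_le_exp.2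
        rw [div_le_one hT0]
        exact hT

theorem cf_ne (g : Fin n → ℝ) (D E : Col n κ) (h3 : ∏ i, cf (g i) (D i) (E i) ≠ 0) :
    ∀ i, E i = D i ∨ E i = none := by
  intro i
  have h4 : cf (g i) (D i) (E i) ≠ 0 := by
    intro h5
    exact h3 (Finset.prod_eq_zero (Finset.mem_univ i) h5)
  unfold cf at h4
  cases hDi : D i with
  | none =>
    rw [hDi] at h4
    by_cases h7 : E i = none
    · right; exact h7
    · simp [h7] at h4
  | some k =>
    rw [hDi] at h4
    by_cases h7 : E i = some k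
    · left; exact h7
    · by_cases h8 : E i = none
      · right; exact h8
      · simp [h7, h8] at h4

theorem MB_V5 (P₁ : Fin n₁ → ℝ) (hP₁ : ∀ i, 1 ≤ P₁ i) (P₂ : Fin n₂ → ℝ) (hP₂ : ∀ i, 1 ≤ P₂ i)
    (g₂ : Fin n₂ → ℝ) (hg0 : ∀ i, 0 ≤ g₂ i)
    (y : Col n₂ κ → ℝ) (hy : ∀ D, |y D| ≤ 1) (Q : ℝ) (hQ : ∀ D, y D ≠ 0 → qq P₂ D ≤ Q)
    (J₂ : ℕ) (hJ₂ : ∀ D, y D ≠ 0 → (Pool.Agent.H256R2.SC.supp D).card ≤ J₂)
    (R : κ → Col n₁ κ → ℝ) (MR QR : ℝ) (JR : ℕ) (hMR : 1 ≤ MR) (hQR : 1 ≤ QR)
    (hR : ∀ k, MB P₁ MR QR JR (R k)) (r : ℕ) (hr : ∀ D, y D ≠ 0 → (cols D).card ≤ r)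
    (T U : ℝ) (hT1 : 1 ≤ T) (hT : (Fintype.card κ : ℝ) * ∑ i, g₂ i ≤ T) (hU1 : 1 ≤ U)
    (hU : (Fintype.card κ : ℝ) ≤ U) :
    MB (Fin.append P₁ P₂) (U ^ J₂ * (Real.exp 1 * T ^ J₂ * (4 ^ (r * (r * JR)) * MR ^ r)))
      (QR ^ r * Q) (r * JR + J₂)
      (fun x : Col (n₁ + n₂) κ => V5 g₂ y R (fstc x) (sndc x)) := by
  classical
  set MA : ℝ := 4 ^ (r * (r * JR)) * MR ^ r with hMA
  have hMA0 : 0 ≤ MA := by positivity
  have hA : ∀ D, y D ≠ 0 → MB P₁ MA (QR ^ r) (r * JR)
      (fun x₁ => ∏ k ∈ cols D, R k x₁) := by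
    intro D hD
    have h1 := MB_prod hP₁ (cols D) (fun _ => MR) (fun _ => QR) (fun _ => JR) R
      (fun k _ => hR k)
    simp only [Finset.prod_const, Finset.sum_const, smul_eq_mul] at h1
    have hc := hr D hD
    refine MB_mono ?_ (pow_le_pow_right₀ hQR hc) (Nat.mul_le_mul_right _ hc) h1
    rw [hMA]
    apply mul_le_mul
    · apply pow_le_pow_right₀ (by norm_num)
      exact Nat.mul_le_mul hc (Nat.mul_le_mul_right _ hc)
    · exact pow_le_pow_right₀ hMR hc
    · positivity
    · positivity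
  set B : Col n₂ κ → Col n₁ κ → ℝ := fun E x₁ => ∑ D : Col n₂ κ,
    (y D * ∏ i, cf (g₂ i) (D i) (E i)) * ∏ k ∈ cols D, R k x₁ with hB
  set m : Col n₂ κ → ℝ := fun E => ∑ D : Col n₂ κ,
    |y D * ∏ i, cf (g₂ i) (D i) (E i)| * MA with hm
  have hBm : ∀ E, MB P₁ (m E) (QR ^ r) (r * JR) (B E) := by
    intro E
    apply MB_sum
    intro D _
    by_cases hD : y D = 0
    · have e : (fun x₁ : Col n₁ κ => (y D * ∏ i, cf (g₂ i) (D i) (E i)) *
          ∏ k ∈ cols D, R k x₁) = fun _ => 0 := by
        funext x₁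
        rw [hD]
        ring
      rw [e, hD, zero_mul, abs_zero, zero_mul]
      exact MB_zero P₁ _ _
    · exact MB_smul _ (hA D hD)
  have hmne : ∀ E, m E ≠ 0 → qq P₂ E ≤ Q ∧ (Pool.Agent.H256R2.SC.supp E).card ≤ J₂ := by
    intro E hE
    obtain ⟨D, _, hD⟩ := Finset.exists_ne_zero_of_sum_ne_zero hE
    have h1 : y D * ∏ i, cf (g₂ i) (D i) (E i) ≠ 0 := by
      intro h0
      apply hD
      rw [h0, abs_zero, zero_mul]
    have h2 : y D ≠ 0 := left_ne_zero_of_mul h1
    have h3 := cf_ne g₂ D E (right_ne_zero_of_mul h1)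
    constructor
    · refine le_trans ?_ (hQ D h2)
      unfold qq
      apply Finset.prod_le_prod
      · intro i _
        exact le_trans zero_le_one (nu1_ge_one (P₂ i) (hP₂ i) (E i))
      · intro i _
        rcases h3 i with h6 | h6
        · rw [h6]
        · rw [h6]
          exact nu1_ge_one (P₂ i) (hP₂ i) (D i)
    · refine le_trans (Finset.card_le_card ?_) (hJ₂ D h2)
      intro i hi
      rw [mem_supp] at hi ⊢
      rcases h3 i with h6 | h6
      · rw [← h6]
        exact hi
      · exact absurd h6 hi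
  have hmle : ∀ E, m E ≤ Real.exp 1 * T ^ J₂ * MA := by
    intro E
    simp only [hm]
    rw [← Finset.sum_mul]
    exact mul_le_mul_of_nonneg_right (sum_prod_cf g₂ hg0 T hT1 hT E J₂ y hy hJ₂) hMA0
  have hmass : ∀ s : Finset (Fin n₂),
      ∑ E : Col n₂ κ with Pool.Agent.H256R2.SC.supp E = s, m E ≤
        U ^ J₂ * (Real.exp 1 * T ^ J₂ * MA) := by
    intro s
    have hX0 : 0 ≤ Real.exp 1 * T ^ J₂ * MA := by positivity
    by_cases hs : s.card ≤ J₂
    · calc ∑ E : Col n₂ κ with Pool.Agent.H256R2.SC.supp E = s, m E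
          ≤ ∑ E : Col n₂ κ with Pool.Agent.H256R2.SC.supp E = s, Real.exp 1 * T ^ J₂ * MA :=
            Finset.sum_le_sum fun E _ => hmle E
        _ = (Fintype.card κ : ℝ) ^ s.card * (Real.exp 1 * T ^ J₂ * MA) := by
            rw [Finset.sum_const, nsmul_eq_mul, card_supp_eq]
        _ ≤ U ^ J₂ * (Real.exp 1 * T ^ J₂ * MA) := by
            apply mul_le_mul_of_nonneg_right _ hX0
            exact (pow_le_pow_left₀ (Nat.cast_nonneg _) hU _).trans (pow_le_pow_right₀ hU1 hs)
    · have e0 : ∑ E : Col n₂ κ with Pool.Agent.H256R2.SC.supp E = s, m E = 0 := by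
        apply Finset.sum_eq_zero
        intro E hE
        rw [Finset.mem_filter] at hE
        by_contra hc
        have := (hmne E hc).2
        rw [hE.2] at this
        exact hs this
      rw [e0]
      positivity
  have h := MB_two hP₁ hP₂ B m hBm hmne hmass
  have e : (fun x : Col (n₁ + n₂) κ => ∑ E : Col n₂ κ, B E (fstc x) * ind E (sndc x)) =
      fun x => V5 g₂ y R (fstc x) (sndc x) := by
    funext x
    unfold V5 VV
    simp only [hB]
    simp_rw [psi_eq, Finset.mul_sum, Finset.sum_mul]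
    rw [Finset.sum_comm]
    refine Finset.sum_congr rfl fun D _ => Finset.sum_congr rfl fun E _ => ?_
    ring
  rw [e] at h
  exact h

end Pool.Agent.K4H19.FQ
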